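import Pool.Agent.H26.BV.Defs

/-!
# ALG: the laws of Boolean-valued equality and membership

Everything by induction on names (`BSet` induction) and Boolean algebra
(`le_himp_iff`, `iSup_inf_eq`, `inf_iSup_eq`, `le_iInf`, `iSup_le`, ...).
-/

set_option autoImplicit false

universe u

namespace BV

variable {B : Type u} [CompleteBooleanAlgebra B]

theorem beq_mk {ι ι' : Type u} (A : ι → BSet B) (a : ι → B) (A' : ι' → BSet B) (a' : ι' → B) :
    beq (BSet.mk ι A a) (BSet.mk ι' A' a') =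
      (⨅ i, a i ⇨ ⨆ j, a' j ⊓ beq (A i) (A' j)) ⊓ ⨅ j, a' j ⇨ ⨆ i, a i ⊓ beq (A i) (A' j) := by
  rw [beq]

theorem bmem_mk {ι : Type u} (x : BSet B) (A : ι → BSet B) (a : ι → B) :
    bmem x (BSet.mk ι A a) = ⨆ i, a i ⊓ beq x (A i) := rfl

theorem bmem_eq (y x : BSet B) : bmem y x = ⨆ i, x.vl i ⊓ beq y (x.nm i) := by
  cases x
  rfl

theorem beq_refl (x : BSet B) : beq x x = ⊤ := by
  induction x with
  | mk ι A a ih =>
    rw [beq_mk, eq_top_iff]
    refine le_inf (le_iInf fun i => ?_) (le_iInf fun i => ?_)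
    · rw [le_himp_iff, top_inf_eq]
      refine le_trans ?_ (le_iSup _ i)
      rw [ih, inf_top_eq]
    · rw [le_himp_iff, top_inf_eq]
      refine le_trans ?_ (le_iSup _ i)
      rw [ih, inf_top_eq]

theorem beq_symm (x y : BSet B) : beq x y = beq y x := by
  induction x generalizing y with
  | mk ι A a ih =>
    cases y with
    | mk ι' A' a' =>
      rw [beq_mk, beq_mk, inf_comm]
      congr 1
      · refine iInf_congr fun j => ?_
        congr 1
        refine iSup_congr fun i => ?_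
        rw [ih]
      · refine iInf_congr fun i => ?_
        congr 1
        refine iSup_congr fun j => ?_
        rw [ih]

theorem alg_left {ι ι' : Type u} (A : ι → BSet B) (a : ι → B) (A' : ι' → BSet B) (a' : ι' → B)
    (i : ι) : beq (BSet.mk ι A a) (BSet.mk ι' A' a') ⊓ a i ≤ ⨆ j, a' j ⊓ beq (A i) (A' j) := by
  rw [beq_mk, ← le_himp_iff]
  exact inf_le_left.trans (iInf_le _ i)

theorem alg_right {ι ι' : Type u} (A : ι → BSet B) (a : ι → B) (A' : ι' → BSet B) (a' : ι' → B)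
    (j : ι') : beq (BSet.mk ι A a) (BSet.mk ι' A' a') ⊓ a' j ≤ ⨆ i, a i ⊓ beq (A i) (A' j) := by
  rw [beq_mk, ← le_himp_iff]
  exact inf_le_right.trans (iInf_le _ j)

theorem beq_trans (x y z : BSet B) : beq x y ⊓ beq y z ≤ beq x z := by
  induction x generalizing y z with
  | mk ι A a ih =>
    obtain ⟨ι', A', a'⟩ := y
    obtain ⟨ι'', A'', a''⟩ := z
    rw [beq_mk A a A'' a'']
    refine le_inf (le_iInf fun i => ?_) (le_iInf fun k => ?_)
    · rw [le_himp_iff]
      calc beq (BSet.mk ι A a) (BSet.mk ι' A' a') ⊓ beq (BSet.mk ι' A' a') (BSet.mk ι'' A'' a'')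
            ⊓ a i
          = (beq (BSet.mk ι A a) (BSet.mk ι' A' a') ⊓ a i)
              ⊓ beq (BSet.mk ι' A' a') (BSet.mk ι'' A'' a'') := by
            rw [inf_right_comm]
        _ ≤ (⨆ j, a' j ⊓ beq (A i) (A' j)) ⊓ beq (BSet.mk ι' A' a') (BSet.mk ι'' A'' a'') :=
            inf_le_inf_right _ (alg_left A a A' a' i)
        _ = ⨆ j, (a' j ⊓ beq (A i) (A' j)) ⊓ beq (BSet.mk ι' A' a') (BSet.mk ι'' A'' a'') := by
            rw [iSup_inf_eq]
        _ ≤ ⨆ k, a'' k ⊓ beq (A i) (A'' k) := by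
            refine iSup_le fun j => ?_
            calc (a' j ⊓ beq (A i) (A' j)) ⊓ beq (BSet.mk ι' A' a') (BSet.mk ι'' A'' a'')
                = (beq (BSet.mk ι' A' a') (BSet.mk ι'' A'' a'') ⊓ a' j) ⊓ beq (A i) (A' j) := by
                  rw [inf_comm, ← inf_assoc]
              _ ≤ (⨆ k, a'' k ⊓ beq (A' j) (A'' k)) ⊓ beq (A i) (A' j) :=
                  inf_le_inf_right _ (alg_left A' a' A'' a'' j)
              _ = ⨆ k, (a'' k ⊓ beq (A' j) (A'' k)) ⊓ beq (A i) (A' j) := by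
                  rw [iSup_inf_eq]
              _ ≤ ⨆ k, a'' k ⊓ beq (A i) (A'' k) := by
                  refine iSup_mono fun k => ?_
                  refine le_inf (inf_le_left.trans inf_le_left) ?_
                  refine le_trans ?_ (ih i (A' j) (A'' k))
                  exact le_inf inf_le_right (inf_le_left.trans inf_le_right)
    · rw [le_himp_iff]
      calc beq (BSet.mk ι A a) (BSet.mk ι' A' a') ⊓ beq (BSet.mk ι' A' a') (BSet.mk ι'' A'' a'')
            ⊓ a'' k
          = beq (BSet.mk ι A a) (BSet.mk ι' A' a')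
              ⊓ (beq (BSet.mk ι' A' a') (BSet.mk ι'' A'' a'') ⊓ a'' k) := by
            rw [inf_assoc]
        _ ≤ beq (BSet.mk ι A a) (BSet.mk ι' A' a') ⊓ (⨆ j, a' j ⊓ beq (A' j) (A'' k)) :=
            inf_le_inf_left _ (alg_right A' a' A'' a'' k)
        _ = ⨆ j, beq (BSet.mk ι A a) (BSet.mk ι' A' a') ⊓ (a' j ⊓ beq (A' j) (A'' k)) := by
            rw [inf_iSup_eq]
        _ ≤ ⨆ i, a i ⊓ beq (A i) (A'' k) := by
            refine iSup_le fun j => ?_
            calc beq (BSet.mk ι A a) (BSet.mk ι' A' a') ⊓ (a' j ⊓ beq (A' j) (A'' k))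
                = (beq (BSet.mk ι A a) (BSet.mk ι' A' a') ⊓ a' j) ⊓ beq (A' j) (A'' k) := by
                  rw [inf_assoc]
              _ ≤ (⨆ i, a i ⊓ beq (A i) (A' j)) ⊓ beq (A' j) (A'' k) :=
                  inf_le_inf_right _ (alg_right A a A' a' j)
              _ = ⨆ i, (a i ⊓ beq (A i) (A' j)) ⊓ beq (A' j) (A'' k) := by
                  rw [iSup_inf_eq]
              _ ≤ ⨆ i, a i ⊓ beq (A i) (A'' k) := by
                  refine iSup_mono fun i => ?_
                  refine le_inf (inf_le_left.trans inf_le_left) ?_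
                  refine le_trans ?_ (ih i (A' j) (A'' k))
                  exact le_inf (inf_le_left.trans inf_le_right) inf_le_right

theorem alg_vl_left (x y : BSet B) (i : x.Idx) :
    beq x y ⊓ x.vl i ≤ ⨆ j, y.vl j ⊓ beq (x.nm i) (y.nm j) := by
  obtain ⟨ι, A, a⟩ := x
  obtain ⟨ι', A', a'⟩ := y
  exact alg_left A a A' a' i

theorem bmem_congr_left (x y z : BSet B) : beq x y ⊓ bmem x z ≤ bmem y z := by
  rw [bmem_eq, bmem_eq, inf_iSup_eq]
  refine iSup_mono fun i => ?_
  refine le_inf (inf_le_right.trans inf_le_left) ?_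
  refine le_trans ?_ (beq_trans y x (z.nm i))
  rw [beq_symm y x]
  exact le_inf inf_le_left (inf_le_right.trans inf_le_right)

theorem bmem_congr_right (x y z : BSet B) : beq x y ⊓ bmem z x ≤ bmem z y := by
  rw [bmem_eq, bmem_eq, inf_iSup_eq]
  refine iSup_le fun i => ?_
  calc beq x y ⊓ (x.vl i ⊓ beq z (x.nm i))
      = (beq x y ⊓ x.vl i) ⊓ beq z (x.nm i) := by rw [inf_assoc]
    _ ≤ (⨆ j, y.vl j ⊓ beq (x.nm i) (y.nm j)) ⊓ beq z (x.nm i) :=
        inf_le_inf_right _ (alg_vl_left x y i)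
    _ = ⨆ j, (y.vl j ⊓ beq (x.nm i) (y.nm j)) ⊓ beq z (x.nm i) := by rw [iSup_inf_eq]
    _ ≤ ⨆ j, y.vl j ⊓ beq z (y.nm j) := by
        refine iSup_mono fun j => ?_
        refine le_inf (inf_le_left.trans inf_le_left) ?_
        refine le_trans ?_ (beq_trans z (x.nm i) (y.nm j))
        exact le_inf inf_le_right (inf_le_left.trans inf_le_right)

theorem vl_le_bmem (x : BSet B) (i : x.Idx) : x.vl i ≤ bmem (x.nm i) x := by
  rw [bmem_eq]
  refine le_trans ?_ (le_iSup _ i)
  rw [beq_refl, inf_top_eq]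

theorem beq_eq (x y : BSet B) : beq x y =
    (⨅ i, x.vl i ⇨ bmem (x.nm i) y) ⊓ ⨅ j, y.vl j ⇨ bmem (y.nm j) x := by
  obtain ⟨ι, A, a⟩ := x
  obtain ⟨ι', A', a'⟩ := y
  rw [beq_mk]
  congr 1
  refine iInf_congr fun j => ?_
  change a' j ⇨ _ = a' j ⇨ bmem (A' j) (BSet.mk ι A a)
  congr 1
  rw [bmem_mk]
  refine iSup_congr fun i => ?_
  rw [beq_symm (A i) (A' j)]

/-- bounded existential quantifier -/
theorem bex (x : BSet B) {f : BSet B → B} (hf : Ext f) :
    (⨆ z, bmem z x ⊓ f z) = ⨆ i, x.vl i ⊓ f (x.nm i) := by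
  apply le_antisymm
  · refine iSup_le fun z => ?_
    rw [bmem_eq, iSup_inf_eq]
    refine iSup_mono fun i => ?_
    refine le_inf (inf_le_left.trans inf_le_left) ?_
    refine le_trans ?_ (hf z (x.nm i))
    exact le_inf (inf_le_left.trans inf_le_right) inf_le_right
  · refine iSup_le fun i => ?_
    refine le_trans ?_ (le_iSup _ (x.nm i))
    exact inf_le_inf_right _ (vl_le_bmem x i)

/-- bounded universal quantifier -/
theorem ball (x : BSet B) {f : BSet B → B} (hf : Ext f) :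
    (⨅ z, bmem z x ⇨ f z) = ⨅ i, x.vl i ⇨ f (x.nm i) := by
  apply le_antisymm
  · refine le_iInf fun i => ?_
    refine (iInf_le _ (x.nm i)).trans ?_
    exact himp_le_himp_right (vl_le_bmem x i)
  · refine le_iInf fun z => ?_
    rw [le_himp_iff, bmem_eq, inf_iSup_eq]
    refine iSup_le fun i => ?_
    have h1 : (⨅ i, x.vl i ⇨ f (x.nm i)) ⊓ x.vl i ≤ f (x.nm i) := by
      rw [← le_himp_iff]
      exact iInf_le _ i
    calc (⨅ i, x.vl i ⇨ f (x.nm i)) ⊓ (x.vl i ⊓ beq z (x.nm i))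
        = ((⨅ i, x.vl i ⇨ f (x.nm i)) ⊓ x.vl i) ⊓ beq z (x.nm i) := by rw [inf_assoc]
      _ ≤ f (x.nm i) ⊓ beq z (x.nm i) := inf_le_inf_right _ h1
      _ = beq (x.nm i) z ⊓ f (x.nm i) := by rw [inf_comm, beq_symm z]
      _ ≤ f z := hf _ _

theorem ext_mem_left (z : BSet B) : Ext (fun x => bmem x z) := fun x y => bmem_congr_left x y z

theorem ext_mem_right (z : BSet B) : Ext (fun x => bmem z x) := fun x y => bmem_congr_right x y z

theorem beq_ext (x y : BSet B) :
    beq x y = (⨅ z, bmem z x ⇨ bmem z y) ⊓ ⨅ z, bmem z y ⇨ bmem z x := by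
  rw [ball x (ext_mem_left y), ball y (ext_mem_left x)]
  exact beq_eq x y

theorem ext_eq_left (z : BSet B) : Ext (fun x => beq x z) := by
  intro x y
  rw [beq_symm x y]
  exact beq_trans y x z

theorem ext_eq_right (z : BSet B) : Ext (fun x => beq z x) := by
  intro x y
  rw [inf_comm]
  exact beq_trans z x y

theorem ext_const (b : B) : Ext (fun _ => b) := fun _ _ => inf_le_right

theorem ext_inf {f g : BSet B → B} (hf : Ext f) (hg : Ext g) : Ext (fun x => f x ⊓ g x) := by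
  intro x y
  refine le_inf ?_ ?_
  · exact le_trans (inf_le_inf_left _ inf_le_left) (hf x y)
  · exact le_trans (inf_le_inf_left _ inf_le_right) (hg x y)

theorem ext_sup {f g : BSet B → B} (hf : Ext f) (hg : Ext g) : Ext (fun x => f x ⊔ g x) := by
  intro x y
  rw [inf_sup_left]
  exact sup_le_sup (hf x y) (hg x y)

theorem ext_himp {f g : BSet B → B} (hf : Ext f) (hg : Ext g) : Ext (fun x => f x ⇨ g x) := by
  intro x y
  rw [le_himp_iff]
  have h1 : beq x y ⊓ f y ≤ f x := by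
    rw [beq_symm x y]
    exact hf y x
  have h2 : (f x ⇨ g x) ⊓ f x ≤ g x := himp_inf_le
  calc beq x y ⊓ (f x ⇨ g x) ⊓ f y
      ≤ beq x y ⊓ ((f x ⇨ g x) ⊓ f x) := by
        refine le_inf (inf_le_left.trans inf_le_left) (le_inf (inf_le_left.trans inf_le_right) ?_)
        refine le_trans ?_ h1
        exact le_inf (inf_le_left.trans inf_le_left) inf_le_right
    _ ≤ beq x y ⊓ g x := inf_le_inf_left _ h2
    _ ≤ g y := hg x y

theorem ext_compl {f : BSet B → B} (hf : Ext f) : Ext (fun x => (f x)ᶜ) := by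
  have h := ext_himp hf (ext_const (⊥ : B))
  intro x y
  have h1 : beq x y ⊓ (f x ⇨ ⊥) ≤ f y ⇨ ⊥ := h x y
  rw [himp_bot, himp_bot] at h1
  exact h1

theorem ext_iInf {ι : Sort*} {f : ι → BSet B → B} (hf : ∀ i, Ext (f i)) :
    Ext (fun x => ⨅ i, f i x) := by
  intro x y
  refine le_iInf fun i => ?_
  exact le_trans (inf_le_inf_left _ (iInf_le _ i)) (hf i x y)

theorem ext_iSup {ι : Sort*} {f : ι → BSet B → B} (hf : ∀ i, Ext (f i)) :
    Ext (fun x => ⨆ i, f i x) := by
  intro x y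
  change beq x y ⊓ (⨆ i, f i x) ≤ ⨆ i, f i y
  rw [inf_iSup_eq]
  exact iSup_mono fun i => hf i x y

end BV
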