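import Pool.Agent.H26.BV.Quo

/-!
# AXA: names for pairs, unions, separation, power sets, collection
-/

set_option autoImplicit false

universe u

namespace BV

variable {B : Type u} [CompleteBooleanAlgebra B]

/-- name of the unordered pair -/
def upr (x y : BSet B) : BSet B :=
  BSet.mk (ULift.{u} Bool) (fun i => bif i.down then x else y) (fun _ => ⊤)

theorem bmem_upr (x y z : BSet B) : bmem z (upr x y) = beq z x ⊔ beq z y := by
  apply le_antisymm
  · rw [upr, bmem_mk]
    refine iSup_le fun i => ?_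
    obtain ⟨b⟩ := i
    cases b
    · exact le_trans inf_le_right le_sup_right
    · exact le_trans inf_le_right le_sup_left
  · rw [upr, bmem_mk]
    refine sup_le ?_ ?_
    · refine le_trans ?_ (le_iSup _ (ULift.up true))
      exact le_inf le_top le_rfl
    · refine le_trans ?_ (le_iSup _ (ULift.up false))
      exact le_inf le_top le_rfl

theorem ax_union (x : BSet B) : ∃ s, ∀ z, bmem z s = ⨆ y, bmem y x ⊓ bmem z y := by
  refine ⟨BSet.mk (Σ i : x.Idx, (x.nm i).Idx) (fun p => (x.nm p.1).nm p.2)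
    (fun p => x.vl p.1 ⊓ (x.nm p.1).vl p.2), fun z => ?_⟩
  rw [bmem_mk, bex x (ext_mem_right z), iSup_sigma]
  refine iSup_congr fun i => ?_
  rw [bmem_eq z (x.nm i), inf_iSup_eq]
  refine iSup_congr fun j => ?_
  exact inf_assoc _ _ _

/-- the name of the subset of `a` given by the extensional predicate `f` -/
theorem axa_sep_bmem (a : BSet B) {f : BSet B → B} (hf : Ext f) (z : BSet B) :
    bmem z (BSet.mk a.Idx a.nm (fun i => a.vl i ⊓ f (a.nm i))) = bmem z a ⊓ f z := by
  rw [bmem_mk, bmem_eq z a, iSup_inf_eq]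
  refine iSup_congr fun i => ?_
  apply le_antisymm
  · refine le_inf (le_inf (inf_le_of_left_le inf_le_left) inf_le_right) ?_
    refine le_trans (le_inf ?_ (inf_le_of_left_le inf_le_right)) (hf (a.nm i) z)
    rw [beq_symm]
    exact inf_le_right
  · refine le_inf (le_inf (inf_le_of_left_le inf_le_left) ?_) (inf_le_of_left_le inf_le_right)
    exact le_trans (le_inf (inf_le_of_left_le inf_le_right) inf_le_right) (hf z (a.nm i))

/-- `mk ι A (fun i => a i ⊓ f (A i))` -/
theorem ax_sep (a : BSet B) {f : BSet B → B} (hf : Ext f) :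
    ∃ b, ∀ z, bmem z b = bmem z a ⊓ f z :=
  ⟨_, axa_sep_bmem a hf⟩

/-- for `x = mk ι A a` take `mk (ι → B) (fun h => mk ι A (fun i => a i ⊓ h i)) ⊤` -/
theorem ax_pow (x : BSet B) : ∃ p, ∀ z, bmem z p = ⨅ t, bmem t z ⇨ bmem t x := by
  refine ⟨BSet.mk (x.Idx → B) (fun h => BSet.mk x.Idx x.nm (fun i => x.vl i ⊓ h i))
    (fun _ => ⊤), fun z => ?_⟩
  rw [bmem_mk]
  apply le_antisymm
  · refine iSup_le fun h => le_iInf fun t => ?_
    rw [top_inf_eq, le_himp_iff]
    refine le_trans (bmem_congr_right _ _ t) ?_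
    rw [bmem_mk, bmem_eq t x]
    exact iSup_mono fun i => inf_le_inf_right _ inf_le_left
  · refine le_trans ?_ (le_iSup _ (fun i => bmem (x.nm i) z))
    rw [top_inf_eq, beq_ext]
    refine le_inf (le_iInf fun t => ?_) (le_iInf fun t => ?_)
    · rw [axa_sep_bmem x (ext_mem_left z) t, le_himp_iff]
      refine le_inf ?_ inf_le_right
      refine le_trans (inf_le_inf_right _ (iInf_le _ t)) ?_
      exact himp_inf_le
    · rw [axa_sep_bmem x (ext_mem_left z) t, le_himp_iff]
      exact inf_le_of_right_le inf_le_right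

/-- for `a = mk ι A _` take `mk ι v ⊤`, `v i` a name with `f (A i) (v i) = ⨆ y, f (A i) y` -/
theorem ax_coll (a : BSet B) {f : BSet B → BSet B → B} (hf : ∀ y, Ext (fun x => f x y))
    (hf' : ∀ x, Ext (f x)) :
    ∃ c, ∀ x, bmem x a ⊓ (⨆ y, f x y) ≤ ⨆ y, bmem y c ⊓ f x y := by
  choose v hv using fun i : a.Idx => exists_max (hf' (a.nm i))
  refine ⟨BSet.mk a.Idx v (fun _ => ⊤), fun x => ?_⟩
  rw [bmem_eq x a, iSup_inf_eq]
  refine iSup_le fun i => ?_
  have hm : bmem (v i) (BSet.mk a.Idx v (fun _ => ⊤)) = ⊤ := by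
    rw [eq_top_iff, bmem_mk]
    refine le_trans ?_ (le_iSup _ i)
    rw [beq_refl, inf_top_eq]
  refine le_trans ?_ (le_iSup _ (v i))
  rw [hm, top_inf_eq]
  have h1 : (beq x (a.nm i)) ⊓ (⨆ y, f x y) ≤ f (a.nm i) (v i) := by
    rw [hv i, inf_iSup_eq]
    exact iSup_mono fun y => hf y x (a.nm i)
  have h2 : (a.vl i ⊓ beq x (a.nm i)) ⊓ (⨆ y, f x y) ≤ beq (a.nm i) x ⊓ f (a.nm i) (v i) := by
    refine le_inf ?_ (le_trans (inf_le_inf_right _ inf_le_right) h1)
    rw [beq_symm]
    exact inf_le_of_left_le inf_le_right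
  exact le_trans h2 (hf (v i) (a.nm i) x)

/-- induction on membership -/
theorem ax_ind {f : BSet B → B} (hf : Ext f) :
    (⨅ x, ((⨅ y, bmem y x ⇨ f y) ⇨ f x)) ≤ ⨅ x, f x := by
  refine le_iInf fun x => ?_
  induction x with
  | mk ι A a ih =>
    have h1 : (⨅ x, ((⨅ y, bmem y x ⇨ f y) ⇨ f x)) ≤
        ⨅ y, bmem y (BSet.mk ι A a) ⇨ f y := by
      rw [ball (BSet.mk ι A a) hf]
      refine le_iInf fun i => ?_
      rw [le_himp_iff]
      exact inf_le_of_left_le (ih i)
    refine le_trans (le_inf (iInf_le _ (BSet.mk ι A a)) h1) ?_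
    exact himp_inf_le

/-- induction in the quotients, for predicates given by an extensional Boolean-valued one -/
theorem MU.induction (U : UF B) {f : BSet B → B} (hf : Ext f) {P : MU U → Prop}
    (h : ∀ x, f x ∈ U ↔ P (MU.mk U x)) (hP : ∀ m, (∀ n, MU.E U n m → P n) → P m) (m : MU U) :
    P m := by
  have hin : ∀ x, (⨅ y, bmem y x ⇨ f y) ∈ U ↔ ∀ n, MU.E U n (MU.mk U x) → P n := by
    intro x
    refine los_iInf (ext_himp (ext_mem_left x) hf) U
      (P := fun n => MU.E U n (MU.mk U x) → P n) (fun y => ?_)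
    rw [UF.himp_mem_iff, h y]
    exact Iff.rfl
  have hext : Ext (fun x => (⨅ y, bmem y x ⇨ f y) ⇨ f x) :=
    ext_himp (ext_iInf fun y => ext_himp (ext_mem_right y) (ext_const (f y))) hf
  have hout : (⨅ x, ((⨅ y, bmem y x ⇨ f y) ⇨ f x)) ∈ U := by
    refine (los_iInf hext U (P := fun m => (∀ n, MU.E U n m → P n) → P m) (fun x => ?_)).2 hP
    rw [UF.himp_mem_iff, hin x, h x]
  have hall : (⨅ x, f x) ∈ U := U.mem_of_le hout (ax_ind hf)
  exact (los_iInf hf U h).1 hall m

end BV
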