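import Pool.Agent.H26.BV.AxA

/-!
# AXC: the axiom of choice in the quotients

`x = mk U x'`, `s` a name of its union, `s = mk ι A a`.  Well-order `ι` (`WellOrderingRel`, or
transport along `ι ≃ ordinals`).  `same i j = ⨆ y, bmem y x' ⊓ bmem (A i) y ⊓ bmem (A j) y`
(`A i` and `A j` lie in a common block).
`sel z = ⨆ i, beq z (A i) ⊓ ⨅ j : {j // j < i}, (same i j)ᶜ` is extensional; `c` = the separation
`{z ∈ s : sel z}`.
* existence: for a block `y` use the least `i` (`iSup_first`) with `A i ∈ y`.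
* uniqueness: `z = A i`, `z' = A j` with `i, j` both least, in the same block, so `i = j`.
The reasoning can be done by Boolean inequalities or by `UF.le_of_forall`.
-/

set_option autoImplicit false

universe u

namespace BV

variable {B : Type u} [CompleteBooleanAlgebra B]

/-- `u` and `v` lie in a common element of `x` -/
noncomputable def axcSame (x p q : BSet B) : B := ⨆ y, bmem y x ⊓ (bmem p y ⊓ bmem q y)

/-- Boolean value of: the elements of `x` are pairwise disjoint -/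
noncomputable def axcDisj (x : BSet B) : B :=
  ⨅ y, ⨅ y', (bmem y x ⊓ (bmem y' x ⊓ ⨆ z, bmem z y ⊓ bmem z y')) ⇨ beq y y'

theorem axc_disj_mem (U : UF B) (x : BSet B)
    (h2 : ∀ y y', MU.E U y (MU.mk U x) → MU.E U y' (MU.mk U x) →
      (∃ z, MU.E U z y ∧ MU.E U z y') → y = y') : axcDisj x ∈ U := by
  have hz : ∀ y y' : BSet B, Ext (fun z => bmem z y ⊓ bmem z y') :=
    fun y y' => ext_inf (ext_mem_left y) (ext_mem_left y')
  have hG : ∀ y : BSet B, Ext (fun y' =>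
      (bmem y x ⊓ (bmem y' x ⊓ ⨆ z, bmem z y ⊓ bmem z y')) ⇨ beq y y') := by
    intro y
    refine ext_himp (ext_inf (ext_const _) (ext_inf (ext_mem_left x) ?_)) (ext_eq_right y)
    exact ext_iSup fun z => ext_inf (ext_const _) (ext_mem_right z)
  have hG' : Ext (fun y => ⨅ y',
      (bmem y x ⊓ (bmem y' x ⊓ ⨆ z, bmem z y ⊓ bmem z y')) ⇨ beq y y') := by
    refine ext_iInf fun y' => ?_
    refine ext_himp (ext_inf (ext_mem_left x) (ext_inf (ext_const _) ?_)) (ext_eq_left y')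
    exact ext_iSup fun z => ext_inf (ext_mem_right z) (ext_const _)
  have h3 : axcDisj x ∈ U ↔ ∀ m : MU U, ∀ m' : MU U, MU.E U m (MU.mk U x) →
      MU.E U m' (MU.mk U x) → (∃ z, MU.E U z m ∧ MU.E U z m') → m = m' := by
    refine los_iInf hG' U (P := fun m => ∀ m' : MU U, MU.E U m (MU.mk U x) →
      MU.E U m' (MU.mk U x) → (∃ z, MU.E U z m ∧ MU.E U z m') → m = m') fun y => ?_
    refine los_iInf (hG y) U (P := fun m' => MU.E U (MU.mk U y) (MU.mk U x) →
      MU.E U m' (MU.mk U x) → (∃ z, MU.E U z (MU.mk U y) ∧ MU.E U z m') → MU.mk U y = m')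
      fun y' => ?_
    rw [UF.himp_mem_iff, UF.inf_mem_iff, UF.inf_mem_iff, ← MU.mk_eq_iff, MU.E_mk, MU.E_mk]
    have h4 : (⨆ z, bmem z y ⊓ bmem z y') ∈ U ↔
        ∃ z, MU.E U z (MU.mk U y) ∧ MU.E U z (MU.mk U y') :=
      los_iSup (hz y y') U (P := fun m => MU.E U m (MU.mk U y) ∧ MU.E U m (MU.mk U y'))
        fun z => U.inf_mem_iff
    rw [h4]
    exact ⟨fun h a b c => h ⟨a, b, c⟩, fun h a => h a.1 a.2.1 a.2.2⟩
  exact h3.2 h2

/-- the selector: `z` is the first (in the enumeration `A`) of its block -/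
noncomputable def axcSel {ι : Type u} [LinearOrder ι] (x : BSet B) (A : ι → BSet B)
    (z : BSet B) : B :=
  ⨆ i, beq z (A i) ⊓ (⨆ j : Set.Iio i, axcSame x (A i) (A j))ᶜ

theorem axc_exists {ι : Type u} [LinearOrder ι] [WellFoundedLT ι] (x : BSet B) (A : ι → BSet B)
    (y : BSet B) (hA : ∀ z, bmem y x ⊓ bmem z y ≤ ⨆ i, beq z (A i)) :
    axcDisj x ⊓ bmem y x ⊓ (⨆ z, bmem z y) ≤ ⨆ z, axcSel x A z ⊓ bmem z y := by
  have h1 : axcDisj x ⊓ bmem y x ⊓ (⨆ z, bmem z y) ≤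
      ⨆ i, (axcDisj x ⊓ bmem y x ⊓ bmem (A i) y) := by
    rw [inf_iSup_eq]
    refine iSup_le fun z => ?_
    have h2 : axcDisj x ⊓ bmem y x ⊓ bmem z y ≤
        (⨆ i, beq z (A i)) ⊓ (axcDisj x ⊓ bmem y x ⊓ bmem z y) := by
      refine le_inf (le_trans ?_ (hA z)) le_rfl
      exact le_inf (inf_le_left.trans inf_le_right) inf_le_right
    refine h2.trans ?_
    rw [iSup_inf_eq]
    refine iSup_mono fun i => ?_
    refine le_inf (inf_le_right.trans inf_le_left) ?_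
    refine le_trans ?_ (bmem_congr_left z (A i) y)
    exact le_inf inf_le_left (inf_le_right.trans inf_le_right)
  refine h1.trans ?_
  rw [← iSup_first]
  refine iSup_le fun i => ?_
  refine le_trans ?_ (le_iSup _ (A i))
  refine le_inf ?_ (inf_le_left.trans inf_le_right)
  refine le_trans ?_ (le_iSup _ i)
  refine le_inf ?_ ?_
  · rw [beq_refl]
    exact le_top
  · refine UF.le_of_forall fun V hV => ?_
    rw [UF.inf_mem_iff, UF.compl_mem_iff] at hV
    rw [UF.compl_mem_iff]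
    intro h3
    apply hV.2
    -- move to an inequality
    have h4 : (axcDisj x ⊓ bmem y x ⊓ bmem (A i) y) ⊓
        (⨆ j : Set.Iio i, axcSame x (A i) (A j)) ≤
        ⨆ j : Set.Iio i, axcDisj x ⊓ bmem y x ⊓ bmem (A j) y := by
      rw [inf_iSup_eq]
      refine iSup_mono fun j => ?_
      unfold axcSame
      rw [inf_iSup_eq]
      refine iSup_le fun w => ?_
      refine UF.le_of_forall fun W hW => ?_
      simp only [UF.inf_mem_iff] at hW ⊢
      obtain ⟨⟨⟨hD, hyx⟩, hiy⟩, hwx, hiw, hjw⟩ := hW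
      refine ⟨⟨hD, hyx⟩, ?_⟩
      have h5 := W.mem_of_iInf (W.mem_of_iInf hD w) y
      rw [UF.himp_mem_iff] at h5
      have h6 : beq w y ∈ W := by
        apply h5
        rw [UF.inf_mem_iff, UF.inf_mem_iff]
        refine ⟨hwx, hyx, ?_⟩
        refine W.iSup_mem_of_mem (i := A i) ?_
        exact W.inf_mem hiw hiy
      exact W.mem_of_le (W.inf_mem h6 hjw) (bmem_congr_right w y (A j))
    exact V.mem_of_le (V.inf_mem hV.1 h3) h4

theorem axc_unique {ι : Type u} [LinearOrder ι] (x : BSet B) (A : ι → BSet B)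
    (y z z' : BSet B) :
    bmem y x ⊓ (bmem z y ⊓ bmem z' y) ⊓ axcSel x A z ⊓ axcSel x A z' ≤ beq z z' := by
  unfold axcSel
  rw [inf_iSup_eq]
  refine iSup_le fun i' => ?_
  rw [inf_iSup_eq, iSup_inf_eq]
  refine iSup_le fun i => ?_
  refine UF.le_of_forall fun V hV => ?_
  simp only [UF.inf_mem_iff, UF.compl_mem_iff] at hV
  obtain ⟨⟨⟨hyx, hzy, hz'y⟩, hzi, hni⟩, hz'i', hni'⟩ := hV
  have h1 : bmem (A i) y ∈ V := V.mem_of_le (V.inf_mem hzi hzy) (bmem_congr_left z (A i) y)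
  have h2 : bmem (A i') y ∈ V := V.mem_of_le (V.inf_mem hz'i' hz'y) (bmem_congr_left z' (A i') y)
  rcases lt_trichotomy i i' with h | h | h
  · exfalso
    apply hni'
    refine V.iSup_mem_of_mem (i := (⟨i, h⟩ : Set.Iio i')) ?_
    refine V.iSup_mem_of_mem (i := y) ?_
    exact V.inf_mem hyx (V.inf_mem h2 h1)
  · subst h
    rw [beq_symm z' (A i)] at hz'i'
    exact V.mem_of_le (V.inf_mem hzi hz'i') (beq_trans z (A i) z')
  · exfalso
    apply hni
    refine V.iSup_mem_of_mem (i := (⟨i', h⟩ : Set.Iio i)) ?_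
    refine V.iSup_mem_of_mem (i := y) ?_
    exact V.inf_mem hyx (V.inf_mem h1 h2)

theorem axc_sel_ext {ι : Type u} [LinearOrder ι] (x : BSet B) (A : ι → BSet B) :
    Ext (axcSel x A) :=
  ext_iSup fun i => ext_inf (ext_eq_left (A i)) (ext_const _)

theorem MU.choice (U : UF B) (x : MU U) (h1 : ∀ y, MU.E U y x → ∃ z, MU.E U z y)
    (h2 : ∀ y y', MU.E U y x → MU.E U y' x → (∃ z, MU.E U z y ∧ MU.E U z y') → y = y') :
    ∃ c, ∀ y, MU.E U y x →
      ∃ z, (MU.E U z c ∧ MU.E U z y) ∧ ∀ z', MU.E U z' c ∧ MU.E U z' y → z' = z := by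
  obtain ⟨x, rfl⟩ := MU.mk_surj U x
  have hD : axcDisj x ∈ U := axc_disj_mem U x h2
  obtain ⟨s, hs⟩ := ax_union x
  obtain ⟨hl, hw⟩ := exists_wellFoundedLT s.Idx
  obtain ⟨c, hc⟩ := ax_sep s (axc_sel_ext x s.nm)
  refine ⟨MU.mk U c, fun y hy => ?_⟩
  obtain ⟨y, rfl⟩ := MU.mk_surj U y
  have hA : ∀ z, bmem y x ⊓ bmem z y ≤ ⨆ i, beq z (s.nm i) := by
    intro z
    have h3 : bmem y x ⊓ bmem z y ≤ bmem z s := by
      rw [hs z]
      exact le_iSup (fun y => bmem y x ⊓ bmem z y) y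
    refine h3.trans ?_
    rw [bmem_eq]
    exact iSup_mono fun i => inf_le_right
  have hys : ∀ z, bmem y x ⊓ bmem z y ≤ bmem z s := by
    intro z
    rw [hs z]
    exact le_iSup (fun y => bmem y x ⊓ bmem z y) y
  have hyx : bmem y x ∈ U := hy
  have hne : (⨆ z, bmem z y) ∈ U := by
    rw [los_iSup (ext_mem_left y) U (P := fun m => MU.E U m (MU.mk U y)) fun z => Iff.rfl]
    exact h1 _ hy
  have h4 := U.mem_of_le (U.inf_mem (U.inf_mem hD hyx) hne) (axc_exists x s.nm y hA)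
  rw [los_iSup (ext_inf (axc_sel_ext x s.nm) (ext_mem_left y)) U
    (P := fun m => MU.E U m (MU.mk U c) ∧ MU.E U m (MU.mk U y))] at h4
  · obtain ⟨z, hz⟩ := h4
    refine ⟨z, hz, fun z' hz' => ?_⟩
    obtain ⟨z, rfl⟩ := MU.mk_surj U z
    obtain ⟨z', rfl⟩ := MU.mk_surj U z'
    rw [MU.E_mk, MU.E_mk, hc, UF.inf_mem_iff] at hz hz'
    rw [MU.mk_eq_iff]
    refine U.mem_of_le ?_ (axc_unique x s.nm y z' z)
    exact U.inf_mem (U.inf_mem (U.inf_mem hyx (U.inf_mem hz'.2 hz.2)) hz'.1.2) hz.1.2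
  · intro z
    rw [MU.E_mk, MU.E_mk, hc, UF.inf_mem_iff, UF.inf_mem_iff]
    constructor
    · rintro ⟨h5, h6⟩
      exact ⟨⟨U.mem_of_le (U.inf_mem hyx h6) (hys z), h5⟩, h6⟩
    · rintro ⟨⟨_, h5⟩, h6⟩
      exact ⟨h5, h6⟩

end BV
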