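import Pool.Agent.H26.BV.Meas

/-!
# BAD: the suprema of almost all `x` are bad points
Suppose almost all `x` are good, witnessed by `A x`, `k x`; `k x = k0` for almost all `x`.
For `s ∈ x` let `β s x ∈ A x` with `s < β s x`, `t s x ∈ x` with `β s x < t s x`, `k s x` with
`f s n < f (β s x) n < f (t s x) n` for `n ≥ k s x`.  By normality / completeness, for every `s`
there are `t s`, `k s` with `t s x = t s`, `k s x = k s` for almost all `x`.
Fix `k1` such that `Y = {s | k s ≤ k1 ∧ k (t s) ≤ k1}` has size `Lam κ`, and `n ≥ k0, k1`.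
As `f (t s) n < (lam κ n).ord` there is an unbounded `Y' ⊆ Y` on which `f (t s) n` is constant
(pigeonhole).  Take `s1 < s2` in `Y'` with `t (t s1) ≤ s2` and `x` good for all finitely many
conditions: `f (t s1) n < f (β (t s1) x) n < f (β s2 x) n < f (t s2) n`, contradiction.
-/

set_option autoImplicit false

universe u

open Cardinal Order

namespace BV

/-- `x` is good -/
def BadGood {κ : Cardinal.{u}} (f : SS κ → ℕ → Ordinal.{u}) (x : Set (SS κ)) (A : Set (SS κ))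
    (k : ℕ) : Prop :=
  (∀ a ∈ A, ∃ s ∈ x, a < s) ∧ (∀ s ∈ x, ∃ a ∈ A, s < a) ∧
    ∀ n, k ≤ n → StrictMonoOn (fun s => f s n) A

theorem bad_pigeon {κ : Cardinal.{u}} (hκ : ℵ₀ < κ) (K : SS κ → ℕ) (g : SS κ → ℕ → Ordinal.{u})
    (hg : ∀ s n, g s n < (lam κ n).ord) (k0 : ℕ) :
    ∃ (n : ℕ) (Y : Set (SS κ)), k0 ≤ n ∧ (∀ s ∈ Y, K s ≤ n) ∧ Lam κ ≤ #Y ∧
      ∀ s ∈ Y, ∀ t ∈ Y, g s n = g t n := by
  have hreg := Lam_isRegular hκ.le
  have hcof : (Lam κ).ord.cof = Lam κ := hreg.cof_ord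
  have hall : ℵ₀ < Lam κ := lt_of_lt_of_le hκ ((le_lam κ 0).trans
    ((lam_lt_lamw κ 0).trans (lamw_lt_Lam κ)).le)
  obtain ⟨k1, hk1⟩ := infinite_pigeonhole_card (fun s => ULift.up.{u} (K s)) (Lam κ)
    (mk_SS κ).ge hreg.aleph0_le (by
      rw [hcof, Cardinal.mk_uLift, Cardinal.mk_nat, Cardinal.lift_aleph0]
      exact hall)
  have hlt : lam κ (max k0 k1.down) < Lam κ := (lam_lt_lamw κ _).trans (lamw_lt_Lam κ)
  obtain ⟨a, Y, hY, hYc, hYa⟩ := infinite_pigeonhole_set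
    (s := (fun s => ULift.up.{u} (K s)) ⁻¹' {k1})
    (fun s => (Ordinal.ToType.mk ⟨g s (max k0 k1.down), hg s _⟩ :
      (lam κ (max k0 k1.down)).ord.ToType)) (Lam κ) hk1 hreg.aleph0_le (by
      rw [hcof, Cardinal.mk_toType, Cardinal.card_ord]
      exact hlt)
  refine ⟨max k0 k1.down, Y, le_max_left _ _, fun s hs => ?_, hYc, fun s hs t ht => ?_⟩
  · have h1 : ULift.up (K s) = k1 := hY hs
    rw [← h1]
    exact le_max_right _ _
  · have h1 := (hYa hs).trans (hYa ht).symm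
    have h2 := Ordinal.ToType.mk.injective h1
    exact congrArg Subtype.val h2

theorem bad_ae {κ : Cardinal.{u}} (hκ : ℵ₀ < κ) {V : Ultrafilter (Set (SS κ))}
    (hV : IsNormalMeasure κ (SS κ) V) (f : SS κ → ℕ → Ordinal.{u})
    (hf1 : ∀ s n, f s n < (lam κ n).ord)
    (hf2 : ∀ s t, t < s → ∃ k, ∀ n, k ≤ n → f t n < f s n) :
    ∀ᶠ x in (V : Filter (Set (SS κ))), ¬ ∃ A : Set (SS κ), (∀ a ∈ A, ∃ s ∈ x, a < s) ∧ (∀ s ∈ x, ∃ a ∈ A, s < a) ∧
      ∃ k, ∀ n, k ≤ n → StrictMonoOn (fun s => f s n) A := by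
  rw [← Ultrafilter.frequently_iff_eventually]
  by_contra hcon
  rw [Filter.not_frequently] at hcon
  simp only [not_not] at hcon
  -- witnesses
  have hA : ∀ x : Set (SS κ), ∃ (A : Set (SS κ)) (k : ℕ),
      (∃ (A : Set (SS κ)) (k : ℕ), BadGood f x A k) → BadGood f x A k := by
    intro x
    by_cases h : ∃ (A : Set (SS κ)) (k : ℕ), BadGood f x A k
    · obtain ⟨A, k, hk⟩ := h
      exact ⟨A, k, fun _ => hk⟩
    · exact ⟨∅, 0, fun h' => absurd h' h⟩
  choose A k hA using hA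
  have hgood : ∀ᶠ x in (V : Filter (Set (SS κ))), BadGood f x (A x) (k x) := by
    filter_upwards [hcon] with x hx
    obtain ⟨A', h1, h2, k', h3⟩ := hx
    exact hA x ⟨A', k', h1, h2, h3⟩
  obtain ⟨k0, hk0⟩ := meas_const_nat hκ hV k
  have hβ : ∀ (s : SS κ) (x : Set (SS κ)), ∃ (β t : SS κ) (m : ℕ),
      BadGood f x (A x) (k x) → s ∈ x → β ∈ A x ∧ s < β ∧ t ∈ x ∧ β < t ∧
        ∀ n, m ≤ n → f s n < f β n ∧ f β n < f t n := by
    intro s x
    by_cases h : BadGood f x (A x) (k x) ∧ s ∈ x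
    · obtain ⟨β, hβ, hsβ⟩ := h.1.2.1 s h.2
      obtain ⟨t, ht, hβt⟩ := h.1.1 β hβ
      obtain ⟨m1, hm1⟩ := hf2 β s hsβ
      obtain ⟨m2, hm2⟩ := hf2 t β hβt
      exact ⟨β, t, max m1 m2, fun _ _ => ⟨hβ, hsβ, ht, hβt, fun n hn =>
        ⟨hm1 n (le_trans (le_max_left _ _) hn), hm2 n (le_trans (le_max_right _ _) hn)⟩⟩⟩
    · exact ⟨s, s, 0, fun h1 h2 => absurd ⟨h1, h2⟩ h⟩
  choose β t m hβ using hβ
  have ht : ∀ s, ∃ t', ∀ᶠ x in (V : Filter (Set (SS κ))), t s x = t' := by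
    intro s
    refine meas_normal hV (t s) ?_
    filter_upwards [hgood, hV.fine s] with x hx hs
    exact (hβ s x hx hs).2.2.1
  choose T hT using ht
  choose M hM using fun s => meas_const_nat hκ hV (m s)
  obtain ⟨n, Y, hkn, hYK, hYc, hYg⟩ := bad_pigeon hκ (fun s => max (M s) (M (T s)))
    (fun s n => f (T s) n) (fun s n => hf1 (T s) n) k0
  have hYne : #Y ≠ 0 := by
    intro h
    rw [h] at hYc
    exact absurd (lt_of_lt_of_le (lamw_lt_Lam κ) hYc) (not_lt.2 zero_le)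
  obtain ⟨⟨s1, hs1⟩⟩ := Cardinal.mk_ne_zero_iff.1 hYne
  have hs2 : ∃ s2 ∈ Y, T (T s1) ≤ s2 := by
    by_contra hc
    push Not at hc
    have h1 : #Y ≤ #(Set.Iio (T (T s1))) := Cardinal.mk_le_mk_of_subset fun s hs => hc s hs
    exact absurd (lt_of_lt_of_le (lamw_lt_Lam κ) (hYc.trans (h1.trans (mk_Iio_le _))))
      (lt_irrefl _)
  obtain ⟨s2, hs2, hle⟩ := hs2
  have hfin : ∀ᶠ x in (V : Filter (Set (SS κ))), False := by
    filter_upwards [hgood, hk0, hV.fine (T s1), hV.fine s2, hT (T s1), hT s2, hM (T s1), hM s2]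
      with x hx hkx h1 h2 h3 h4 h5 h6
    have e1 := hβ (T s1) x hx h1
    have e2 := hβ s2 x hx h2
    rw [h3, h5] at e1
    rw [h4, h6] at e2
    obtain ⟨a1, a2, a3, a4, a5⟩ := e1
    obtain ⟨b1, b2, b3, b4, b5⟩ := e2
    have c1 := (a5 n ((le_max_right _ _).trans (hYK s1 hs1))).1
    have c2 := (b5 n ((le_max_left _ _).trans (hYK s2 hs2))).2
    have c3 : f (β (T s1) x) n < f (β s2 x) n := by
      refine hx.2.2 n (by rw [hkx]; exact hkn) a1 b1 ?_
      exact lt_of_lt_of_le a4 (hle.trans b2.le)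
    have c4 := hYg s1 hs1 s2 hs2
    rw [← c4] at c2
    exact absurd (c1.trans (c3.trans c2)) (lt_irrefl _)
  exact hfin.exists.elim fun _ h => h

end BV
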