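import Pool.Agent.H26.BV.AxA

/-!
# CHK: check names of ordinals
-/

set_option autoImplicit false

universe u

namespace BV

variable {B : Type u} [CompleteBooleanAlgebra B]

/-- check name of an ordinal -/
noncomputable def chk (B : Type u) [CompleteBooleanAlgebra B] (α : Ordinal.{u}) : BSet B :=
  BSet.mk α.ToType (fun i => chk B (i.toOrd : Ordinal)) (fun _ => ⊤)
termination_by α
decreasing_by exact i.toOrd.2

private theorem chk_iSup_aux (α : Ordinal.{u}) (g : Ordinal.{u} → B) :
    (⨆ i : α.ToType, g (i.toOrd : Ordinal)) = ⨆ β : Set.Iio α, g β :=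
  Equiv.iSup_comp (g := fun β : Set.Iio α => g β) (Ordinal.ToType.mk (o := α)).symm.toEquiv

private theorem chk_iInf_aux (α : Ordinal.{u}) (g : Ordinal.{u} → B) :
    (⨅ i : α.ToType, g (i.toOrd : Ordinal)) = ⨅ β : Set.Iio α, g β :=
  Equiv.iInf_comp (g := fun β : Set.Iio α => g β) (Ordinal.ToType.mk (o := α)).symm.toEquiv

theorem bmem_chk (x : BSet B) (α : Ordinal.{u}) :
    bmem x (chk B α) = ⨆ β : Set.Iio α, beq x (chk B β) := by
  rw [chk, bmem_mk]
  simp only [top_inf_eq]
  exact chk_iSup_aux α (fun β => beq x (chk B β))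

theorem chk_bex (α : Ordinal.{u}) {f : BSet B → B} (hf : Ext f) :
    (⨆ z, bmem z (chk B α) ⊓ f z) = ⨆ β : Set.Iio α, f (chk B β) := by
  rw [chk, bex _ hf]
  simp only [BSet.vl, BSet.nm, top_inf_eq]
  exact chk_iSup_aux α (fun β => f (chk B β))

theorem chk_ball (α : Ordinal.{u}) {f : BSet B → B} (hf : Ext f) :
    (⨅ z, bmem z (chk B α) ⇨ f z) = ⨅ β : Set.Iio α, f (chk B β) := by
  rw [chk, ball _ hf]
  simp only [BSet.vl, BSet.nm, top_himp]
  exact chk_iInf_aux α (fun β => f (chk B β))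

theorem bmem_chk_of_lt {α β : Ordinal.{u}} (h : β < α) : bmem (chk B β) (chk B α) = ⊤ := by
  rw [bmem_chk, eq_top_iff, ← beq_refl (chk B β)]
  exact le_iSup (fun γ : Set.Iio α => beq (chk B β) (chk B γ)) ⟨β, h⟩

theorem bmem_chk_of_le {α β : Ordinal.{u}} (h : α ≤ β) : bmem (chk B β) (chk B α) = ⊥ := by
  induction α using WellFoundedLT.induction generalizing β with
  | ind α ih =>
    rw [bmem_chk, eq_bot_iff]
    refine iSup_le fun γ => ?_
    have h1 : (γ : Ordinal.{u}) < α := γ.2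
    have h2 := bmem_congr_right (chk B β) (chk B (γ : Ordinal.{u})) (chk B (γ : Ordinal.{u}))
    rw [bmem_chk_of_lt (lt_of_lt_of_le h1 h), inf_top_eq, ih γ h1 le_rfl] at h2
    exact h2

theorem beq_chk_of_ne {α β : Ordinal.{u}} (h : α ≠ β) : beq (chk B α) (chk B β) = ⊥ := by
  rcases lt_or_gt_of_ne h with h | h
  · rw [beq_symm, eq_bot_iff]
    have h2 := bmem_congr_right (chk B β) (chk B α) (chk B α)
    rw [bmem_chk_of_lt h, inf_top_eq, bmem_chk_of_le le_rfl] at h2
    exact h2
  · rw [eq_bot_iff]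
    have h2 := bmem_congr_right (chk B α) (chk B β) (chk B β)
    rw [bmem_chk_of_lt h, inf_top_eq, bmem_chk_of_le le_rfl] at h2
    exact h2

/-- the class of a check name in a quotient -/
noncomputable def ck (U : UF B) (α : Ordinal.{u}) : MU U := MU.mk U (chk B α)

theorem E_ck (U : UF B) (α β : Ordinal.{u}) : MU.E U (ck U β) (ck U α) ↔ β < α := by
  unfold ck
  rw [MU.E_mk]
  constructor
  · intro h
    by_contra hlt
    rw [bmem_chk_of_le (not_lt.mp hlt)] at h
    exact U.bot_notMem h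
  · intro h
    rw [bmem_chk_of_lt h]
    exact U.top_mem

theorem ck_inj (U : UF B) {α β : Ordinal.{u}} (h : ck U α = ck U β) : α = β := by
  by_contra hne
  unfold ck at h
  rw [MU.mk_eq_iff, beq_chk_of_ne hne] at h
  exact U.bot_notMem h

/-- the same below a condition `b` -/
theorem ball_ck' {f : BSet B → B} {P : ∀ U : UF B, MU U → Prop}
    (h : ∀ (U : UF B) (x : BSet B), f x ∈ U ↔ P U (MU.mk U x)) (α : Ordinal.{u}) (b : B)
    (hP : ∀ (U : UF B), b ∈ U → ∀ β : Ordinal.{u}, β < α → P U (ck U β)) (U : UF B)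
    (hb : b ∈ U) (m : MU U) (hm : MU.E U m (ck U α)) : P U m := by
  obtain ⟨x, rfl⟩ := MU.mk_surj U m
  rw [← h]
  unfold ck at hm
  rw [MU.E_mk] at hm
  have hf : Ext f := ext_of_los h
  have h1 : b ≤ ⨅ β : Set.Iio α, f (chk B β) := by
    refine le_iInf fun β => ?_
    refine UF.le_of_forall fun V hV => ?_
    rw [h]
    exact hP V hV β β.2
  rw [← chk_ball α hf] at h1
  have h2 : (bmem x (chk B α) ⇨ f x) ∈ U :=
    U.mem_of_le hb (le_trans h1 (iInf_le (fun z => bmem z (chk B α) ⇨ f z) x))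
  rw [UF.himp_mem_iff] at h2
  exact h2 hm

/-- to prove a (good) statement for all elements of a check ordinal in all quotients it is enough to
prove it for the standard elements in all quotients -/
theorem ball_ck {f : BSet B → B} {P : ∀ U : UF B, MU U → Prop}
    (h : ∀ (U : UF B) (x : BSet B), f x ∈ U ↔ P U (MU.mk U x)) (α : Ordinal.{u})
    (hP : ∀ (U : UF B) (β : Ordinal.{u}), β < α → P U (ck U β)) (U : UF B) (m : MU U)
    (hm : MU.E U m (ck U α)) : P U m :=
  ball_ck' h α ⊤ (fun V _ β hβ => hP V β hβ) U U.top_mem m hm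

end BV
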