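import Pool.Agent.H26.BV.Pairs
import Pool.Agent.H26.BV.Chk

/-!
# REL: names of relations between ordinals, given by Boolean matrices; injections
-/

set_option autoImplicit false

universe u

namespace BV

variable {B : Type u} [CompleteBooleanAlgebra B]

/-- name of the relation with `⟦⟨ξ, η⟩ ∈ rel⟧ = F ξ η` -/
noncomputable def rel (α β : Ordinal.{u}) (F : Ordinal.{u} → Ordinal.{u} → B) : BSet B :=
  BSet.mk (α.ToType × β.ToType)
    (fun p => opr (chk B (p.1.toOrd : Ordinal)) (chk B (p.2.toOrd : Ordinal)))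
    (fun p => F p.1.toOrd p.2.toOrd)

theorem rel_iSup_aux (α : Ordinal.{u}) (g : Ordinal.{u} → B) :
    (⨆ i : α.ToType, g (i.toOrd : Ordinal)) = ⨆ β : Set.Iio α, g β :=
  Equiv.iSup_comp (g := fun β : Set.Iio α => g β) (Ordinal.ToType.mk (o := α)).symm.toEquiv

theorem bmem_rel (α β : Ordinal.{u}) (F : Ordinal.{u} → Ordinal.{u} → B) (x y : BSet B) :
    bmem (opr x y) (rel α β F) =
      ⨆ (ξ : Set.Iio α) (η : Set.Iio β), F ξ η ⊓ (beq x (chk B ξ) ⊓ beq y (chk B η)) := by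
  rw [rel, bmem_mk]
  simp only [beq_opr]
  rw [iSup_prod]
  have h1 : ∀ i : α.ToType, (⨆ j : β.ToType, F (i.toOrd : Ordinal) (j.toOrd : Ordinal) ⊓
      (beq x (chk B (i.toOrd : Ordinal)) ⊓ beq y (chk B (j.toOrd : Ordinal)))) =
      (fun ξ : Ordinal.{u} => ⨆ η : Set.Iio β, F ξ η ⊓ (beq x (chk B ξ) ⊓ beq y (chk B η)))
        (i.toOrd : Ordinal) := fun i =>
    rel_iSup_aux β (fun η => F (i.toOrd : Ordinal) η ⊓
      (beq x (chk B (i.toOrd : Ordinal)) ⊓ beq y (chk B η)))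
  simp only [h1]
  exact rel_iSup_aux α
    (fun ξ : Ordinal.{u} => ⨆ η : Set.Iio β, F ξ η ⊓ (beq x (chk B ξ) ⊓ beq y (chk B η)))

theorem bmem_rel_chk {α β : Ordinal.{u}} (F : Ordinal.{u} → Ordinal.{u} → B) {ξ η : Ordinal.{u}}
    (hξ : ξ < α) (hη : η < β) : bmem (opr (chk B ξ) (chk B η)) (rel α β F) = F ξ η := by
  rw [bmem_rel]
  apply le_antisymm
  · refine iSup_le fun ξ' => iSup_le fun η' => ?_
    by_cases h1 : ξ = ξ'
    · by_cases h2 : η = η'
      · rw [← h1, ← h2]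
        exact inf_le_left
      · rw [beq_chk_of_ne h2, inf_bot_eq, inf_bot_eq]
        exact bot_le
    · rw [beq_chk_of_ne h1, bot_inf_eq, inf_bot_eq]
      exact bot_le
  · refine le_trans ?_ (le_iSup _ (⟨ξ, hξ⟩ : Set.Iio α))
    refine le_trans ?_ (le_iSup _ (⟨η, hη⟩ : Set.Iio β))
    simp only [beq_refl, le_inf_iff, le_refl, le_top, and_self]

theorem rel_beq_aux (x y z : BSet B) : beq x y ⊓ beq x z ≤ beq y z := by
  rw [beq_symm x y]
  exact beq_trans y x z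

theorem rel_chk_aux {ξ ξ' : Ordinal.{u}} (h : ξ ≠ ξ') (x : BSet B) :
    beq x (chk B ξ) ⊓ beq x (chk B ξ') ≤ ⊥ := by
  rw [← beq_chk_of_ne h]
  exact rel_beq_aux _ _ _

theorem rel_functional {α β : Ordinal.{u}} {F : Ordinal.{u} → Ordinal.{u} → B}
    (h2 : ∀ ξ < α, ∀ η < β, ∀ η' < β, η ≠ η' → F ξ η ⊓ F ξ η' = ⊥) (x y y' : BSet B) :
    bmem (opr x y) (rel α β F) ⊓ bmem (opr x y') (rel α β F) ≤ beq y y' := by
  rw [bmem_rel, bmem_rel]
  simp only [iSup_inf_eq, inf_iSup_eq]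
  refine iSup_le fun ξ' => iSup_le fun η' => iSup_le fun ξ => iSup_le fun η => ?_
  by_cases h3 : (ξ : Ordinal.{u}) = ξ'
  · by_cases h4 : (η : Ordinal.{u}) = η'
    · rw [← h4]
      refine le_trans ?_ (rel_beq_aux (chk B η) y y')
      rw [beq_symm (chk B η) y, beq_symm (chk B η) y']
      exact le_inf (inf_le_left.trans (inf_le_right.trans inf_le_right))
        (inf_le_right.trans (inf_le_right.trans inf_le_right))
    · have h5 := h2 ξ ξ.2 η η.2 η' η'.2 h4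
      rw [← h3]
      refine le_trans ?_ (bot_le : (⊥ : B) ≤ _)
      rw [← h5]
      exact le_inf (inf_le_left.trans inf_le_left) (inf_le_right.trans inf_le_left)
  · refine le_trans ?_ (bot_le : (⊥ : B) ≤ _)
    refine le_trans ?_ (rel_chk_aux h3 x)
    exact le_inf (inf_le_left.trans (inf_le_right.trans inf_le_left))
      (inf_le_right.trans (inf_le_right.trans inf_le_left))

theorem rel_injective {α β : Ordinal.{u}} {F : Ordinal.{u} → Ordinal.{u} → B}
    (h3 : ∀ ξ < α, ∀ ξ' < α, ∀ η < β, ξ ≠ ξ' → F ξ η ⊓ F ξ' η = ⊥) (x x' y : BSet B) :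
    bmem (opr x y) (rel α β F) ⊓ bmem (opr x' y) (rel α β F) ≤ beq x x' := by
  rw [bmem_rel, bmem_rel]
  simp only [iSup_inf_eq, inf_iSup_eq]
  refine iSup_le fun ξ' => iSup_le fun η' => iSup_le fun ξ => iSup_le fun η => ?_
  by_cases h4 : (η : Ordinal.{u}) = η'
  · by_cases h5 : (ξ : Ordinal.{u}) = ξ'
    · rw [← h5]
      refine le_trans ?_ (rel_beq_aux (chk B ξ) x x')
      rw [beq_symm (chk B ξ) x, beq_symm (chk B ξ) x']
      exact le_inf (inf_le_left.trans (inf_le_right.trans inf_le_left))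
        (inf_le_right.trans (inf_le_right.trans inf_le_left))
    · have h6 := h3 ξ ξ.2 ξ' ξ'.2 η η.2 h5
      rw [← h4]
      refine le_trans ?_ (bot_le : (⊥ : B) ≤ _)
      rw [← h6]
      exact le_inf (inf_le_left.trans inf_le_left) (inf_le_right.trans inf_le_left)
  · refine le_trans ?_ (bot_le : (⊥ : B) ≤ _)
    refine le_trans ?_ (rel_chk_aux h4 y)
    exact le_inf (inf_le_left.trans (inf_le_right.trans inf_le_right))
      (inf_le_right.trans (inf_le_right.trans inf_le_right))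

/-- Boolean-valued injections give injections in all quotients -/
theorem injOn_rel {α β : Ordinal.{u}} {F : Ordinal.{u} → Ordinal.{u} → B}
    (h1 : ∀ ξ < α, (⨆ η : Set.Iio β, F ξ η) = ⊤)
    (h2 : ∀ ξ < α, ∀ η < β, ∀ η' < β, η ≠ η' → F ξ η ⊓ F ξ η' = ⊥)
    (h3 : ∀ ξ < α, ∀ ξ' < α, ∀ η < β, ξ ≠ ξ' → F ξ η ⊓ F ξ' η = ⊥) (U : UF B) :
    InjOn (MU.E U) (MU.mk U (rel α β F)) (fun x => MU.E U x (ck U α))
      (fun x => MU.E U x (ck U β)) := by
  have hlos : ∀ (U : UF B) (x y : BSet B),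
      (bmem y (chk B β) ⊓ bmem (opr x y) (rel α β F)) ∈ U ↔
        (MU.E U (MU.mk U y) (ck U β) ∧
          App (MU.E U) (MU.mk U (rel α β F)) (MU.mk U x) (MU.mk U y)) := by
    intro U x y
    rw [UF.inf_mem_iff, los_app]
    exact Iff.rfl
  have hExt : ∀ x : BSet B, Ext (fun y => bmem y (chk B β) ⊓ bmem (opr x y) (rel α β F)) :=
    fun x => ext_of_los (P := fun U m => MU.E U m (ck U β) ∧
      App (MU.E U) (MU.mk U (rel α β F)) (MU.mk U x) m) (fun U y => hlos U x y)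
  have hlos2 : ∀ (U : UF B) (x : BSet B),
      (⨆ y, bmem y (chk B β) ⊓ bmem (opr x y) (rel α β F)) ∈ U ↔
        ∃ m, MU.E U m (ck U β) ∧ App (MU.E U) (MU.mk U (rel α β F)) (MU.mk U x) m := by
    intro U x
    exact los_iSup (hExt x) U (P := fun m => MU.E U m (ck U β) ∧
      App (MU.E U) (MU.mk U (rel α β F)) (MU.mk U x) m) (fun y => hlos U x y)
  have hExt2 : ∀ x : BSet B, Ext (fun y => bmem (opr x y) (rel α β F)) :=
    fun x => ext_of_los (P := fun U m => App (MU.E U) (MU.mk U (rel α β F)) (MU.mk U x) m)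
      (fun U y => los_app U _ _ _)
  refine ⟨?_, ?_, ?_⟩
  · intro x hx
    refine ball_ck (P := fun U m => ∃ y, MU.E U y (ck U β) ∧
      App (MU.E U) (MU.mk U (rel α β F)) m y) hlos2 α ?_ U x hx
    intro V ξ hξ
    refine (hlos2 V (chk B ξ)).1 ?_
    rw [chk_bex β (hExt2 (chk B ξ))]
    have h4 : (⨆ η : Set.Iio β, bmem (opr (chk B ξ) (chk B (η : Ordinal.{u}))) (rel α β F)) =
        ⊤ := by
      rw [← h1 ξ hξ]
      exact iSup_congr fun η => bmem_rel_chk F hξ η.2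
    rw [h4]
    exact V.top_mem
  · intro x y y' _ hy hy'
    obtain ⟨x, rfl⟩ := MU.mk_surj U x
    obtain ⟨y, rfl⟩ := MU.mk_surj U y
    obtain ⟨y', rfl⟩ := MU.mk_surj U y'
    rw [MU.mk_eq_iff]
    rw [← los_app] at hy hy'
    exact U.mem_of_le (U.inf_mem hy hy') (rel_functional h2 x y y')
  · intro x x' y _ _ hy hy'
    obtain ⟨x, rfl⟩ := MU.mk_surj U x
    obtain ⟨x', rfl⟩ := MU.mk_surj U x'
    obtain ⟨y, rfl⟩ := MU.mk_surj U y
    rw [MU.mk_eq_iff]
    rw [← los_app] at hy hy'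
    exact U.mem_of_le (U.inf_mem hy hy') (rel_injective h3 x x' y)

/-- injections of the ground model: `|α| ≤ |β|` gives an injection in all quotients -/
theorem injOn_of_card_le {α β : Ordinal.{u}} (h : α.card ≤ β.card) (U : UF B) :
    ∃ f, InjOn (MU.E U) f (fun x => MU.E U x (ck U α)) (fun x => MU.E U x (ck U β)) := by
  classical
  have h' : Cardinal.mk α.ToType ≤ Cardinal.mk β.ToType := by
    rw [Cardinal.mk_toType, Cardinal.mk_toType]
    exact h
  obtain ⟨e⟩ := h'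
  let g : Set.Iio α → Set.Iio β := fun ξ => (e (Ordinal.ToType.mk ξ)).toOrd
  have hg : Function.Injective g := by
    intro a b hab
    have h1 : e (Ordinal.ToType.mk a) = e (Ordinal.ToType.mk b) :=
      (Ordinal.ToType.mk (o := β)).symm.injective hab
    exact (Ordinal.ToType.mk (o := α)).injective (e.injective h1)
  let F : Ordinal.{u} → Ordinal.{u} → B := fun ξ η =>
    if ∃ hξ : ξ < α, η = (g ⟨ξ, hξ⟩ : Ordinal.{u}) then ⊤ else ⊥
  refine ⟨MU.mk U (rel α β F), injOn_rel ?_ ?_ ?_ U⟩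
  · intro ξ hξ
    rw [eq_top_iff]
    refine le_trans ?_ (le_iSup (fun η : Set.Iio β => F ξ η) (g ⟨ξ, hξ⟩))
    have : F ξ (g ⟨ξ, hξ⟩ : Ordinal.{u}) = ⊤ := if_pos ⟨hξ, rfl⟩
    rw [this]
  · intro ξ hξ η _ η' _ hne
    simp only [F]
    by_cases h1 : ∃ hξ : ξ < α, η = (g ⟨ξ, hξ⟩ : Ordinal.{u})
    · have h2 : ¬ ∃ hξ : ξ < α, η' = (g ⟨ξ, hξ⟩ : Ordinal.{u}) := by
        rintro ⟨_, h2⟩
        obtain ⟨_, h1⟩ := h1
        exact hne (h1.trans h2.symm)
      rw [if_neg h2, inf_bot_eq]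
    · rw [if_neg h1, bot_inf_eq]
  · intro ξ hξ ξ' hξ' η _ hne
    simp only [F]
    by_cases h1 : ∃ hξ : ξ < α, η = (g ⟨ξ, hξ⟩ : Ordinal.{u})
    · have h2 : ¬ ∃ hξ : ξ' < α, η = (g ⟨ξ', hξ⟩ : Ordinal.{u}) := by
        rintro ⟨_, h2⟩
        obtain ⟨_, h1⟩ := h1
        have h3 : g ⟨ξ, hξ⟩ = g ⟨ξ', hξ'⟩ := Subtype.ext (h1.symm.trans h2)
        have h4 := congrArg (fun z : Set.Iio α => (z : Ordinal.{u})) (hg h3)
        exact hne h4
      rw [if_neg h2, inf_bot_eq]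
    · rw [if_neg h1, bot_inf_eq]

end BV
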