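import Pool.Agent.H26.BV.Defs

/-!
# ROP: the regular open algebra of a forcing poset; dense embeddings
-/

set_option autoImplicit false

universe u v w

namespace BV

/-- `e : P → B` is a dense embedding of the forcing poset `P` (smaller = stronger) -/
structure DenseEmb (P : Type v) [Preorder P] (B : Type u) [CompleteBooleanAlgebra B] (e : P → B) :
    Prop where
  mono : ∀ p q, p ≤ q → e p ≤ e q
  ne_bot : ∀ p, e p ≠ ⊥
  dense : ∀ b : B, b ≠ ⊥ → ∃ p, e p ≤ b
  compat : ∀ p q, e p ⊓ e q ≠ ⊥ → ∃ r, r ≤ p ∧ r ≤ q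

/-- the regular elements of a frame form a complete Boolean algebra -/
noncomputable abbrev rop_cba (α : Type u) [Order.Frame α] :
    CompleteBooleanAlgebra (Heyting.Regular α) :=
  { (inferInstance : BooleanAlgebra (Heyting.Regular α)) with
    sSup := fun s => Heyting.Regular.toRegular (sSup ((fun a : Heyting.Regular α => (a : α)) '' s))
    isLUB_sSup := by
      intro s
      constructor
      · intro a ha
        apply Heyting.Regular.coe_le_coe.1
        rw [Heyting.Regular.coe_toRegular]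
        exact le_trans (le_sSup (Set.mem_image_of_mem _ ha)) le_compl_compl
      · intro b hb
        apply (Heyting.Regular.gi.gc _ _).2
        apply sSup_le
        rintro _ ⟨a, ha, rfl⟩
        exact Heyting.Regular.coe_le_coe.2 (hb ha)
    sInf := fun s => Heyting.Regular.toRegular (sInf ((fun a : Heyting.Regular α => (a : α)) '' s))
    isGLB_sInf := by
      intro s
      constructor
      · intro a ha
        apply (Heyting.Regular.gi.gc _ _).2
        exact sInf_le ⟨a, ha, rfl⟩
      · intro b hb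
        apply Heyting.Regular.coe_le_coe.1
        rw [Heyting.Regular.coe_toRegular]
        refine le_trans ?_ le_compl_compl
        apply le_sInf
        rintro _ ⟨a, ha, rfl⟩
        exact Heyting.Regular.coe_le_coe.2 (hb ha) }

/-- every forcing poset has a dense embedding into a complete Boolean algebra: the regular elements
of `LowerSet P` (`Heyting.Regular`), or the regular sets `S : Set P` (downward closed, and `p ∈ S`
as soon as `S` is dense below `p`) -/
theorem exists_denseEmb (P : Type u) [Preorder P] :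
    ∃ (B : Type u) (_ : CompleteBooleanAlgebra B) (e : P → B), DenseEmb P B e := by
  refine ⟨Heyting.Regular (LowerSet P), rop_cba (LowerSet P),
    fun p => Heyting.Regular.toRegular (LowerSet.Iic p), ?_⟩
  let := rop_cba (LowerSet P)
  refine ⟨?_, ?_, ?_, ?_⟩
  · intro p q hpq
    apply Heyting.Regular.toRegular.monotone
    exact LowerSet.Iic_le.2 hpq
  · intro p h
    have h1 : (LowerSet.Iic p) ≤ ((⊥ : Heyting.Regular (LowerSet P)) : LowerSet P) :=
      (Heyting.Regular.gi.gc _ _).1 (le_of_eq h)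
    have h2 : p ∈ ((⊥ : Heyting.Regular (LowerSet P)) : LowerSet P) := LowerSet.Iic_le.1 h1
    rw [Heyting.Regular.coe_bot] at h2
    exact LowerSet.notMem_bot h2
  · intro b hb
    have h1 : ∃ p, p ∈ (b : LowerSet P) := by
      by_contra hcon
      push Not at hcon
      apply hb
      apply Heyting.Regular.coe_injective
      rw [Heyting.Regular.coe_bot]
      ext p
      constructor
      · intro h
        exact absurd h (hcon p)
      · intro h
        exact absurd h LowerSet.notMem_bot
    obtain ⟨p, hp⟩ := h1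
    exact ⟨p, (Heyting.Regular.gi.gc _ _).2 (LowerSet.Iic_le.2 hp)⟩
  · intro p q h
    by_contra hcon
    push Not at hcon
    apply h
    apply Heyting.Regular.coe_injective
    have h1 : LowerSet.Iic p ⊓ LowerSet.Iic q = (⊥ : LowerSet P) := by
      ext r
      constructor
      · intro hr
        exact absurd hr.2 (hcon r hr.1)
      · intro hr
        exact absurd hr LowerSet.notMem_bot
    show (LowerSet.Iic p)ᶜᶜ ⊓ (LowerSet.Iic q)ᶜᶜ = ⊥
    rw [← compl_compl_inf_distrib, h1, compl_bot, compl_top]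

namespace DenseEmb

variable {P : Type v} [Preorder P] {B : Type u} [CompleteBooleanAlgebra B] {e : P → B}

theorem exists_le_of_inf_ne_bot (he : DenseEmb P B e) {p : P} {b : B} (h : e p ⊓ b ≠ ⊥) :
    ∃ q, q ≤ p ∧ e q ≤ b := by
  obtain ⟨r, hr⟩ := he.dense _ h
  have h1 : e r ⊓ e p ≠ ⊥ := by
    rw [inf_eq_left.2 (hr.trans inf_le_left)]
    exact he.ne_bot r
  obtain ⟨q, hq1, hq2⟩ := he.compat r p h1
  exact ⟨q, hq2, (he.mono q r hq1).trans (hr.trans inf_le_right)⟩

theorem exists_le_of_le_iSup (he : DenseEmb P B e) {p : P} {ι : Sort*} {f : ι → B}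
    (h : e p ≤ ⨆ i, f i) : ∃ q, q ≤ p ∧ ∃ i, e q ≤ f i := by
  by_contra hcon
  push Not at hcon
  have h1 : ∀ i, e p ⊓ f i = ⊥ := by
    intro i
    by_contra hne
    obtain ⟨q, hq, hqi⟩ := he.exists_le_of_inf_ne_bot hne
    exact hcon q hq i hqi
  apply he.ne_bot p
  rw [← inf_eq_left.2 h, inf_iSup_eq]
  simp [h1]

theorem exists_le_or (he : DenseEmb P B e) {p : P} {a b : B} (h : e p ≤ a ⊔ b) :
    ∃ q, q ≤ p ∧ (e q ≤ a ∨ e q ≤ b) := by
  by_cases ha : e p ⊓ a = ⊥
  · by_cases hb : e p ⊓ b = ⊥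
    · exfalso
      apply he.ne_bot p
      rw [← inf_eq_left.2 h, inf_sup_left, ha, hb, bot_sup_eq]
    · obtain ⟨q, hq, hqb⟩ := he.exists_le_of_inf_ne_bot hb
      exact ⟨q, hq, Or.inr hqb⟩
  · obtain ⟨q, hq, hqa⟩ := he.exists_le_of_inf_ne_bot ha
    exact ⟨q, hq, Or.inl hqa⟩

theorem iSup_eq_top (he : DenseEmb P B e) {ι : Sort*} {f : ι → B}
    (h : ∀ p, ∃ q, q ≤ p ∧ ∃ i, e q ≤ f i) : (⨆ i, f i) = ⊤ := by
  by_contra hne
  have h1 : (⨆ i, f i)ᶜ ≠ ⊥ := by
    intro h0
    exact hne (compl_eq_bot.1 h0)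
  obtain ⟨p, hp⟩ := he.dense _ h1
  obtain ⟨q, hq, i, hi⟩ := h p
  apply he.ne_bot q
  rw [← le_bot_iff]
  calc e q ≤ (⨆ i, f i) ⊓ (⨆ i, f i)ᶜ :=
        le_inf (hi.trans (le_iSup f i)) ((he.mono q p hq).trans hp)
    _ = ⊥ := inf_compl_eq_bot

/-- antichains of `B` are at most as large as `P` -/
theorem card_antichain (he : DenseEmb P B e) {ι : Type w} (f : ι → B) (h0 : ∀ i, f i ≠ ⊥)
    (hd : ∀ i j, i ≠ j → f i ⊓ f j = ⊥) :
    Cardinal.lift.{v} (Cardinal.mk ι) ≤ Cardinal.lift.{w} (Cardinal.mk P) := by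
  choose g hg using fun i => he.dense (f i) (h0 i)
  apply Cardinal.lift_mk_le_lift_mk_of_injective (f := g)
  intro i j hij
  by_contra hne
  apply he.ne_bot (g i)
  rw [← le_bot_iff, ← hd i j hne]
  exact le_inf (hg i) (by rw [hij]; exact hg j)

end DenseEmb

end BV
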