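import Pool.Agent.H26.BV.Ord
import Pool.Agent.H26.BV.Rel
import Pool.Agent.H26.BV.Rop

/-!
# CARD: Boolean values of injections and cardinals; preservation of cardinals
-/

set_option autoImplicit false

universe u

open Cardinal

namespace BV

variable {B : Type u} [CompleteBooleanAlgebra B]

/-- Boolean value of `InjOn` for Boolean-valued classes `X`, `Y` -/
noncomputable def bInjOn (f : BSet B) (X Y : BSet B → B) : B :=
  (⨅ x, X x ⇨ ⨆ y, Y y ⊓ bmem (opr x y) f) ⊓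
  ((⨅ x, ⨅ y, ⨅ y', X x ⇨ bmem (opr x y) f ⇨ bmem (opr x y') f ⇨ beq y y') ⊓
  (⨅ x, ⨅ x', ⨅ y, X x ⇨ X x' ⇨ bmem (opr x y) f ⇨ bmem (opr x' y) f ⇨ beq x x'))

/-- Los for a bounded existential quantifier, all ultrafilters at once -/
theorem card_iSup {f : BSet B → B} {P : ∀ U : UF B, MU U → Prop}
    (h : ∀ (U : UF B) (x : BSet B), f x ∈ U ↔ P U (MU.mk U x)) (U : UF B) :
    (⨆ x, f x) ∈ U ↔ ∃ m, P U m :=
  los_iSup (ext_of_los h) U (h U)

/-- Los for a universal quantifier, all ultrafilters at once -/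
theorem card_iInf {f : BSet B → B} {P : ∀ U : UF B, MU U → Prop}
    (h : ∀ (U : UF B) (x : BSet B), f x ∈ U ↔ P U (MU.mk U x)) (U : UF B) :
    (⨅ x, f x) ∈ U ↔ ∀ m, P U m :=
  los_iInf (ext_of_los h) U (h U)

theorem los_injOn {X Y : BSet B → B} {X' Y' : ∀ U : UF B, MU U → Prop}
    (hX : ∀ (U : UF B) (x : BSet B), X x ∈ U ↔ X' U (MU.mk U x))
    (hY : ∀ (U : UF B) (x : BSet B), Y x ∈ U ↔ Y' U (MU.mk U x)) (U : UF B) (f : BSet B) :
    bInjOn f X Y ∈ U ↔ InjOn (MU.E U) (MU.mk U f) (X' U) (Y' U) := by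
  unfold bInjOn InjOn
  rw [UF.inf_mem_iff, UF.inf_mem_iff]
  refine and_congr ?_ (and_congr ?_ ?_)
  · refine card_iInf (P := fun U x => X' U x → ∃ y, Y' U y ∧ App (MU.E U) (MU.mk U f) x y)
      (fun U x => ?_) U
    rw [UF.himp_mem_iff, hX U x]
    refine imp_congr Iff.rfl ?_
    refine card_iSup (P := fun U y => Y' U y ∧ App (MU.E U) (MU.mk U f) (MU.mk U x) y)
      (fun U y => ?_) U
    rw [UF.inf_mem_iff, hY U y, los_app]
  · refine card_iInf (P := fun U x => ∀ y y', X' U x → App (MU.E U) (MU.mk U f) x y →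
      App (MU.E U) (MU.mk U f) x y' → y = y') (fun U x => ?_) U
    refine card_iInf (P := fun U y => ∀ y', X' U (MU.mk U x) →
      App (MU.E U) (MU.mk U f) (MU.mk U x) y →
      App (MU.E U) (MU.mk U f) (MU.mk U x) y' → y = y') (fun U y => ?_) U
    refine card_iInf (P := fun U y' => X' U (MU.mk U x) →
      App (MU.E U) (MU.mk U f) (MU.mk U x) (MU.mk U y) →
      App (MU.E U) (MU.mk U f) (MU.mk U x) y' → MU.mk U y = y') (fun U y' => ?_) U
    rw [UF.himp_mem_iff, UF.himp_mem_iff, UF.himp_mem_iff, hX U x, los_app, los_app,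
      MU.mk_eq_iff]
  · refine card_iInf (P := fun U x => ∀ x' y, X' U x → X' U x' → App (MU.E U) (MU.mk U f) x y →
      App (MU.E U) (MU.mk U f) x' y → x = x') (fun U x => ?_) U
    refine card_iInf (P := fun U x' => ∀ y, X' U (MU.mk U x) → X' U x' →
      App (MU.E U) (MU.mk U f) (MU.mk U x) y →
      App (MU.E U) (MU.mk U f) x' y → MU.mk U x = x') (fun U x' => ?_) U
    refine card_iInf (P := fun U y => X' U (MU.mk U x) → X' U (MU.mk U x') →
      App (MU.E U) (MU.mk U f) (MU.mk U x) y →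
      App (MU.E U) (MU.mk U f) (MU.mk U x') y → MU.mk U x = MU.mk U x') (fun U y => ?_) U
    rw [UF.himp_mem_iff, UF.himp_mem_iff, UF.himp_mem_iff, UF.himp_mem_iff, hX U x, hX U x',
      los_app, los_app, MU.mk_eq_iff]

/-- Boolean value of `InfCard` -/
noncomputable def bInfCard (κ : BSet B) : B :=
  bOrd κ ⊓ ((⨆ β, bmem β κ) ⊓ ((⨅ β, bmem β κ ⇨ ⨆ γ, bmem γ κ ⊓ bmem β γ) ⊓
    ⨅ β, bmem β κ ⇨ ⨅ f, (bInjOn f (fun x => bmem x κ) (fun x => bmem x β))ᶜ))

theorem los_infCard (U : UF B) (κ : BSet B) :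
    bInfCard κ ∈ U ↔ InfCard (MU.E U) (MU.mk U κ) := by
  unfold bInfCard InfCard
  rw [UF.inf_mem_iff, UF.inf_mem_iff, UF.inf_mem_iff, los_ord]
  refine and_congr Iff.rfl (and_congr ?_ (and_congr ?_ ?_))
  · exact card_iSup (P := fun U β => MU.E U β (MU.mk U κ)) (fun U β => Iff.rfl) U
  · refine card_iInf (P := fun U β => MU.E U β (MU.mk U κ) →
      ∃ γ, MU.E U γ (MU.mk U κ) ∧ MU.E U β γ) (fun U β => ?_) U
    rw [UF.himp_mem_iff]
    refine imp_congr Iff.rfl ?_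
    refine card_iSup (P := fun U γ => MU.E U γ (MU.mk U κ) ∧ MU.E U (MU.mk U β) γ)
      (fun U γ => ?_) U
    rw [UF.inf_mem_iff]
    exact Iff.rfl
  · refine card_iInf (P := fun U β => MU.E U β (MU.mk U κ) →
      ∀ f, ¬ InjOn (MU.E U) f (fun x => MU.E U x (MU.mk U κ)) (fun x => MU.E U x β))
      (fun U β => ?_) U
    rw [UF.himp_mem_iff]
    refine imp_congr Iff.rfl ?_
    refine card_iInf (P := fun U f =>
      ¬ InjOn (MU.E U) f (fun x => MU.E U x (MU.mk U κ)) (fun x => MU.E U x (MU.mk U β)))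
      (fun U f => ?_) U
    rw [UF.compl_mem_iff]
    refine not_congr ?_
    exact los_injOn (X' := fun U x => MU.E U x (MU.mk U κ))
      (Y' := fun U x => MU.E U x (MU.mk U β)) (fun U x => Iff.rfl) (fun U x => Iff.rfl) U f

/-- Boolean value of `LimCard` -/
noncomputable def bLimCard (κ : BSet B) : B :=
  bInfCard κ ⊓ ((⨆ μ, bmem μ κ ⊓ bInfCard μ) ⊓
    ⨅ μ, bmem μ κ ⇨ bInfCard μ ⇨ ⨆ μ', bmem μ' κ ⊓ (bInfCard μ' ⊓ bmem μ μ'))

theorem los_limCard (U : UF B) (κ : BSet B) :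
    bLimCard κ ∈ U ↔ LimCard (MU.E U) (MU.mk U κ) := by
  unfold bLimCard LimCard
  rw [UF.inf_mem_iff, UF.inf_mem_iff, los_infCard]
  refine and_congr Iff.rfl (and_congr ?_ ?_)
  · refine card_iSup (P := fun U μ => MU.E U μ (MU.mk U κ) ∧ InfCard (MU.E U) μ)
      (fun U μ => ?_) U
    rw [UF.inf_mem_iff, los_infCard]
    exact Iff.rfl
  · refine card_iInf (P := fun U μ => MU.E U μ (MU.mk U κ) → InfCard (MU.E U) μ →
      ∃ μ', MU.E U μ' (MU.mk U κ) ∧ InfCard (MU.E U) μ' ∧ MU.E U μ μ') (fun U μ => ?_) U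
    rw [UF.himp_mem_iff, UF.himp_mem_iff, los_infCard]
    refine imp_congr Iff.rfl (imp_congr Iff.rfl ?_)
    refine card_iSup (P := fun U μ' => MU.E U μ' (MU.mk U κ) ∧ InfCard (MU.E U) μ' ∧
      MU.E U (MU.mk U μ) μ') (fun U μ' => ?_) U
    rw [UF.inf_mem_iff, UF.inf_mem_iff, los_infCard]
    exact Iff.rfl

/-- extensionality of `y ↦ ⟦⟨x, y⟩ ∈ f⟧` -/
theorem card_ext_app (f x : BSet B) : Ext (fun y => bmem (opr x y) f) :=
  ext_of_los (P := fun U y => App (MU.E U) (MU.mk U f) (MU.mk U x) y)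
    (fun U y => los_app U f x y)

/-- the possible elements of a class which is forced (by `b`) to inject into `β`: for each of them
choose `p` and `η < β` with `e p ≤ X ξ ⊓ b ⊓ ⟦f ξ = η⟧`; the map `ξ ↦ (p, η)` is injective. -/
theorem card_possible {P : Type u} [Preorder P] {e : P → B} (he : DenseEmb P B e) (f : BSet B)
    (X : BSet B → B) (β : Ordinal.{u}) (b : B)
    (hb : b ≤ bInjOn f X (fun y => bmem y (chk B β))) :
    #{ξ : Ordinal.{u} | X (chk B ξ) ⊓ b ≠ ⊥} ≤ Cardinal.lift.{u + 1} (#P * β.card) := by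
  have hb1 : ∀ x, b ⊓ X x ≤ ⨆ y, bmem y (chk B β) ⊓ bmem (opr x y) f := by
    intro x
    rw [← le_himp_iff]
    exact (hb.trans inf_le_left).trans (iInf_le _ x)
  have hb2 : ∀ x x' y, b ⊓ X x ⊓ X x' ⊓ bmem (opr x y) f ⊓ bmem (opr x' y) f ≤ beq x x' := by
    intro x x' y
    rw [← le_himp_iff, ← le_himp_iff, ← le_himp_iff, ← le_himp_iff]
    exact ((hb.trans inf_le_right).trans inf_le_right).trans
      ((iInf_le _ x).trans ((iInf_le _ x').trans (iInf_le _ y)))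
  have key : ∀ ξ : {ξ : Ordinal.{u} | X (chk B ξ) ⊓ b ≠ ⊥}, ∃ c : P × β.ToType,
      e c.1 ≤ b ⊓ X (chk B ξ) ∧ e c.1 ≤ bmem (opr (chk B ξ) (chk B (c.2.toOrd : Ordinal))) f := by
    intro ξ
    obtain ⟨p, hp⟩ := he.dense (X (chk B ξ) ⊓ b) ξ.2
    have hp' : e p ≤ b ⊓ X (chk B ξ) := by rwa [inf_comm]
    have h1 : e p ≤ ⨆ η : Set.Iio β, bmem (opr (chk B ξ) (chk B η)) f := by
      rw [← chk_bex β (card_ext_app f (chk B ξ))]
      exact hp'.trans (hb1 _)
    obtain ⟨q, hqp, η, hq⟩ := he.exists_le_of_le_iSup h1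
    refine ⟨(q, Ordinal.ToType.mk η), (he.mono q p hqp).trans hp', ?_⟩
    simpa using hq
  choose c hc1 hc2 using key
  have hinj : Function.Injective c := by
    intro ξ ξ' h
    by_contra hne
    have hne' : (ξ : Ordinal.{u}) ≠ ξ' := fun h' => hne (Subtype.ext h')
    have h1 := hb2 (chk B ξ) (chk B ξ') (chk B ((c ξ).2.toOrd : Ordinal))
    rw [beq_chk_of_ne hne'] at h1
    apply he.ne_bot (c ξ).1
    rw [eq_bot_iff]
    refine le_trans ?_ h1
    refine le_inf (le_inf (le_inf (hc1 ξ) ?_) (hc2 ξ)) ?_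
    · rw [h]
      exact (hc1 ξ').trans inf_le_right
    · rw [h]
      exact hc2 ξ'
  have h2 := Cardinal.lift_mk_le_lift_mk_of_injective hinj
  have h3 : #(P × β.ToType) = #P * β.card := by
    rw [Cardinal.mk_prod, Cardinal.lift_id, Cardinal.lift_id, Cardinal.mk_toType]
  rw [h3] at h2
  have h4 : Cardinal.lift.{u, u + 1} #{ξ : Ordinal.{u} | X (chk B ξ) ⊓ b ≠ ⊥} =
      #{ξ : Ordinal.{u} | X (chk B ξ) ⊓ b ≠ ⊥} := Cardinal.lift_id'.{u, u + 1} _
  rw [h4] at h2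
  exact h2

/-- preservation of cardinals above the size of the forcing -/
theorem no_inj {P : Type u} [Preorder P] {e : P → B} (he : DenseEmb P B e) {α β : Ordinal.{u}}
    (h : #P * β.card < α.card) (U : UF B) (f : MU U) :
    ¬ InjOn (MU.E U) f (fun x => MU.E U x (ck U α)) (fun x => MU.E U x (ck U β)) := by
  intro hf
  obtain ⟨f, rfl⟩ := MU.mk_surj U f
  have h1 := (los_injOn (X := fun x => bmem x (chk B α)) (Y := fun x => bmem x (chk B β))
    (X' := fun U x => MU.E U x (ck U α))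
    (Y' := fun U x => MU.E U x (ck U β)) (fun U x => Iff.rfl) (fun U x => Iff.rfl) U f).2 hf
  have h2 := card_possible he f (fun x => bmem x (chk B α)) β _ le_rfl
  have h3 : Set.Iio α ⊆ {ξ : Ordinal.{u} | bmem (chk B ξ) (chk B α) ⊓
      bInjOn f (fun x => bmem x (chk B α)) (fun x => bmem x (chk B β)) ≠ ⊥} := by
    intro ξ hξ
    have h4 : bmem (chk B ξ) (chk B α) = ⊤ := bmem_chk_of_lt hξ
    rw [Set.mem_ofPred_eq, h4, top_inf_eq]
    exact U.ne_bot_of_mem h1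
  have h5 := (Cardinal.mk_le_mk_of_subset h3).trans h2
  rw [Cardinal.mk_Iio_ordinal, Cardinal.lift_le] at h5
  exact absurd h5 (not_le.2 h)

end BV
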