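import Pool.Agent.H26.BV.Lam

/-!
# CLO: closure functions and closed points; sequences
-/

set_option autoImplicit false

universe u

open Cardinal Order

namespace BV

/-- `t` is closed under `G` -/
def GClosed {S : Type u} [LT S] (G : S → S) (t : S) : Prop := ∀ s, s < t → G s < t

theorem clo_aleph0_le_lamw {κ : Cardinal.{u}} (hκ : ℵ₀ ≤ κ) : ℵ₀ ≤ lamw κ :=
  hκ.trans ((le_lam κ 0).trans (lam_lt_lamw κ 0).le)

theorem clo_mk_Iic_le {κ : Cardinal.{u}} (hκ : ℵ₀ ≤ κ) (s : SS κ) :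
    #(Set.Iic s) ≤ lamw κ := by
  have h : Set.Iic s = insert s (Set.Iio s) := by
    ext x
    simp [le_iff_eq_or_lt]
  rw [h]
  refine (mk_insert_le).trans ?_
  exact add_le_of_le (clo_aleph0_le_lamw hκ) (mk_Iio_le s)
    ((one_le_aleph0).trans (clo_aleph0_le_lamw hκ))

/-- `G s` a strict upper bound of `⋃ i, ⋃ r t ≤ s, T i r t` -/
theorem exists_clo {κ : Cardinal.{u}} (hκ : ℵ₀ ≤ κ) {I : Type u} (hI : #I ≤ lamw κ)
    (T : I → SS κ → SS κ → Set (SS κ)) (hT : ∀ i r s, #(T i r s) ≤ lamw κ) :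
    ∃ G : SS κ → SS κ, ∀ t, GClosed G t → ∀ i r s, r < t → s < t → ∀ δ ∈ T i r s, δ < t := by
  classical
  have key : ∀ s : SS κ, ∃ g : SS κ, ∀ i r t, r ≤ s → t ≤ s → ∀ δ ∈ T i r t, δ < g := by
    intro s
    have hω := clo_aleph0_le_lamw hκ
    have hU : #(⋃ p : I × Set.Iic s × Set.Iic s, T p.1 p.2.1 p.2.2 : Set (SS κ)) ≤ lamw κ := by
      refine (mk_iUnion_le _).trans ?_
      refine mul_le_of_le hω ?_ ?_
      · rw [mk_prod, mk_prod]
        simp only [lift_id]
        exact mul_le_of_le hω hI (mul_le_of_le hω (clo_mk_Iic_le hκ s) (clo_mk_Iic_le hκ s))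
      · exact ciSup_le' fun p => hT _ _ _
    obtain ⟨g, hg⟩ := exists_gt_of_card_le hκ _ hU
    refine ⟨g, fun i r t hr ht δ hδ => hg δ ?_⟩
    exact Set.mem_iUnion.2 ⟨⟨i, ⟨r, hr⟩, ⟨t, ht⟩⟩, hδ⟩
  choose G hG using key
  refine ⟨G, fun t ht i r s hr hs δ hδ => ?_⟩
  exact (hG (max r s) i r s (le_max_left _ _) (le_max_right _ _) δ hδ).trans
    (ht _ (max_lt hr hs))

/-- iterate `ω` times -/
theorem exists_closed_gt {κ : Cardinal.{u}} (hκ : ℵ₀ ≤ κ) (G : SS κ → SS κ) :
    ∃ G' : SS κ → SS κ, ∀ s, s < G' s ∧ GClosed G (G' s) ∧ lamw κ ≤ #(Set.Iio (G' s)) := by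
  classical
  have hω := clo_aleph0_le_lamw hκ
  have key : ∀ t : SS κ, ∃ t' : SS κ, t < t' ∧ ∀ r, r ≤ t → G r < t' := by
    intro t
    have hU : #(insert t (G '' Set.Iic t) : Set (SS κ)) ≤ lamw κ := by
      refine (mk_insert_le).trans ?_
      exact add_le_of_le hω (mk_image_le.trans (clo_mk_Iic_le hκ t)) (one_le_aleph0.trans hω)
    obtain ⟨g, hg⟩ := exists_gt_of_card_le hκ _ hU
    exact ⟨g, hg t (Set.mem_insert _ _), fun r hr =>
      hg _ (Set.mem_insert_of_mem _ (Set.mem_image_of_mem _ hr))⟩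
  choose N hN1 hN2 using key
  obtain ⟨l, hl⟩ := exists_large (κ := κ) hκ
  have main : ∀ s : SS κ, ∃ u : SS κ, s < u ∧ GClosed G u ∧ lamw κ ≤ #(Set.Iio u) := by
    intro s
    let t : ℕ → SS κ := fun n => N^[n] (max s l)
    have ht : ∀ n, t (n + 1) = N (t n) := fun n => Function.iterate_succ_apply' N n _
    have hU : #(Set.range (fun n : ULift.{u} ℕ => t n.down) : Set (SS κ)) ≤ lamw κ := by
      refine mk_range_le.trans ?_
      simpa using hω
    obtain ⟨g, hg⟩ := exists_gt_of_card_le hκ _ hU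
    have hne : {v : SS κ | ∀ n, t n < v}.Nonempty := ⟨g, fun n => hg _ ⟨⟨n⟩, rfl⟩⟩
    let u := wellFounded_lt.min {v : SS κ | ∀ n, t n < v} hne
    have hu : ∀ n, t n < u := wellFounded_lt.min_mem _ hne
    have hs : max s l < u := hu 0
    refine ⟨u, (le_max_left _ _).trans_lt hs, ?_, ?_⟩
    · intro r hr
      have : ¬ ∀ n, t n < r := fun h =>
        wellFounded_lt.not_lt_min {v : SS κ | ∀ n, t n < v} h hr
      push Not at this
      obtain ⟨n, hn⟩ := this
      refine (hN2 (t n) r hn).trans ?_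
      rw [← ht]
      exact hu _
    · refine hl.trans (mk_le_mk_of_subset ?_)
      exact Set.Iio_subset_Iio ((le_max_right _ _).trans hs.le)
  choose G' hG' using main
  exact ⟨G', hG'⟩

theorem clo_bound {S : Type u} [LinearOrder S] {ν : Cardinal.{u}}
    (hν : ℵ₀ ≤ ν) (x : Set S) (h1 : ν < #x) (h2 : ∀ s ∈ x, #(x ∩ Set.Iio s : Set S) ≤ ν)
    {J : Type u} (hJ : #J ≤ ν) (b : J → S) (hb : ∀ j, b j ∈ x) :
    ∃ t ∈ x, ∀ j, b j < t := by
  classical
  by_contra hcon
  push Not at hcon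
  have hsub : x ⊆ ⋃ j, (insert (b j) (x ∩ Set.Iio (b j))) := by
    intro t ht
    obtain ⟨j, hj⟩ := hcon t ht
    refine Set.mem_iUnion.2 ⟨j, ?_⟩
    rcases hj.eq_or_lt with h | h
    · exact Or.inl h
    · exact Or.inr ⟨ht, h⟩
  have : #x ≤ ν := by
    refine (mk_le_mk_of_subset hsub).trans ((mk_iUnion_le _).trans ?_)
    refine mul_le_of_le hν hJ (ciSup_le' fun j => mk_insert_le.trans ?_)
    exact add_le_of_le hν (h2 _ (hb j)) (one_le_aleph0.trans hν)
  exact absurd this (not_le.2 h1)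

theorem clo_card {S : Type u} [LinearOrder S] [WellFoundedLT S] {ν : Cardinal.{u}}
    (x : Set S) (h2 : ∀ s ∈ x, #(x ∩ Set.Iio s : Set S) ≤ ν) : #x ≤ succ ν := by
  by_contra hcon
  rw [not_le] at hcon
  have h3 : (succ ν).ord < Ordinal.type (α := x) (· < ·) := by
    rw [lt_iff_not_ge]
    intro h
    have := Ordinal.card_le_card h
    rw [Ordinal.card_type, card_ord] at this
    exact absurd hcon (not_lt.2 this)
  obtain ⟨s, hs⟩ := Ordinal.typein_surj (α := x) (· < ·) h3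
  have h4 : #{y : x | y < s} = succ ν := by
    have := congrArg Ordinal.card hs
    rw [card_ord] at this
    rw [← this]
    rfl
  have h5 : #{y : x | y < s} ≤ ν := by
    refine le_trans ?_ (h2 s.1 s.2)
    refine mk_le_of_injective (f := fun y => ⟨y.1.1, y.1.2, y.2⟩) ?_
    intro a b hab
    apply Subtype.ext
    apply Subtype.ext
    exact congrArg (fun z => z.1) hab
  rw [h4] at h5
  exact absurd h5 (not_le.2 (lt_succ ν))

/-- recursion on `i`: the set of previous values has size at most `ν`, so it is bounded in `x` -/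
theorem exists_seq {S : Type u} [LinearOrder S] [WellFoundedLT S] {ν : Cardinal.{u}}
    (hν : ℵ₀ ≤ ν) (x : Set S) (h1 : ν < #x) (h2 : ∀ s ∈ x, #(x ∩ Set.Iio s : Set S) ≤ ν)
    (h3 : ∀ s ∈ x, ∃ t ∈ x, s < t) (G' : S → S) (hG : ∀ s ∈ x, G' s ∈ x)
    (hlt : ∀ s, s < G' s) :
    ∃ s : (succ ν).ord.ToType → S, StrictMono s ∧ (∀ i, ∃ t ∈ x, s i = G' t) ∧
      ∀ t ∈ x, ∃ i, t < s i := by
  classical
  have _ := h3
  have hne : Nonempty x := by
    rw [← mk_ne_zero_iff]
    exact (lt_of_le_of_lt (zero_le) h1).ne'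
  have hc : #x ≤ #(succ ν).ord.ToType := by
    rw [mk_ord_toType]
    exact clo_card x h2
  obtain ⟨f⟩ := hc
  let e : (succ ν).ord.ToType → x := Function.invFun f
  have he : Function.Surjective e := Function.invFun_surjective f.injective
  have step : ∀ (i : (succ ν).ord.ToType) (rec : ∀ j, j < i → x),
      ∃ t : x, (e i).1 < t.1 ∧ ∀ j (hj : j < i), G' (rec j hj).1 < t.1 := by
    intro i rec
    have hJ : #(Option (Set.Iio i)) ≤ ν := by
      rw [mk_option]
      have hi : #(Set.Iio i) < succ ν := mk_Iio_toType_ord_lt i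
      exact add_le_of_le hν (lt_succ_iff.1 hi) (one_le_aleph0.trans hν)
    obtain ⟨t, ht, htb⟩ := clo_bound hν x h1 h2 hJ
      (fun o => o.elim (e i).1 (fun j => G' (rec j.1 j.2).1)) (by
        intro j
        cases j with
        | none => exact (e i).2
        | some j => exact hG _ (rec j.1 j.2).2)
    exact ⟨⟨t, ht⟩, htb none, fun j hj => htb (some ⟨j, hj⟩)⟩
  let F : ∀ i : (succ ν).ord.ToType, (∀ j, j < i → x) → x := fun i rec => (step i rec).choose
  have hF : ∀ i rec, (e i).1 < (F i rec).1 ∧ ∀ j (hj : j < i), G' (rec j hj).1 < (F i rec).1 :=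
    fun i rec => (step i rec).choose_spec
  let v : (succ ν).ord.ToType → x := wellFounded_lt.fix F
  have hv : ∀ i, v i = F i (fun j _ => v j) := fun i => wellFounded_lt.fix_eq F i
  have hv1 : ∀ i, (e i).1 < (v i).1 := by
    intro i
    rw [hv i]
    exact (hF i _).1
  have hv2 : ∀ i j, j < i → G' (v j).1 < (v i).1 := by
    intro i j hj
    rw [hv i]
    exact (hF i (fun j _ => v j)).2 j hj
  refine ⟨fun i => G' (v i).1, ?_, fun i => ⟨(v i).1, (v i).2, rfl⟩, ?_⟩
  · intro j i hj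
    exact (hv2 i j hj).trans (hlt _)
  · intro t ht
    obtain ⟨i, hi⟩ := he ⟨t, ht⟩
    refine ⟨i, ?_⟩
    have := hv1 i
    rw [hi] at this
    exact this.trans (hlt _)

end BV
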