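import Pool.Agent.H26.BV.Rel
import Pool.Agent.H26.BV.Rop

/-!
# COLL: collapsing forcings, generic injections
-/

set_option autoImplicit false

universe u

open Cardinal

namespace BV

/-- partial functions from `I` to `K` of size less than `c`, ordered by reverse inclusion -/
def Coll (c : Cardinal.{u}) (I K : Type u) : Type u :=
  {t : Set (I × K) // (∀ i k k', (i, k) ∈ t → (i, k') ∈ t → k = k') ∧ #t < c}

namespace Coll

variable {c : Cardinal.{u}} {I K : Type u}

instance : PartialOrder (Coll c I K) where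
  le s t := t.1 ⊆ s.1
  le_refl _ := subset_rfl
  le_trans _ _ _ h h' := h'.trans h
  le_antisymm _ _ h h' := Subtype.ext (Set.Subset.antisymm h' h)

/-- density: every value is attained -/
theorem exists_ext (hc : ℵ₀ ≤ c) (hI : c ≤ #I) (t : Coll c I K) (k : K) :
    ∃ s, s ≤ t ∧ ∃ i, (i, k) ∈ s.1 := by
  have h1 : #(Prod.fst '' t.1 : Set I) < #I :=
    lt_of_le_of_lt mk_image_le (lt_of_lt_of_le t.2.2 hI)
  obtain ⟨i, hi⟩ : ∃ i : I, i ∉ (Prod.fst '' t.1 : Set I) := by
    by_contra h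
    push Not at h
    have h2 : (Prod.fst '' t.1 : Set I) = Set.univ := Set.eq_univ_of_forall h
    rw [h2, mk_univ] at h1
    exact lt_irrefl _ h1
  have hi' : ∀ k', (i, k') ∉ t.1 := fun k' hk' => hi ⟨(i, k'), hk', rfl⟩
  refine ⟨⟨insert (i, k) t.1, ?_, ?_⟩, Set.subset_insert _ _, i, Set.mem_insert _ _⟩
  · intro j a b ha hb
    rcases ha with ha | ha <;> rcases hb with hb | hb
    · exact (Prod.mk.inj ha).2.trans (Prod.mk.inj hb).2.symm
    · rw [(Prod.mk.inj ha).1] at hb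
      exact absurd hb (hi' _)
    · rw [(Prod.mk.inj hb).1] at ha
      exact absurd ha (hi' _)
    · exact t.2.1 j a b ha hb
  · exact lt_of_le_of_lt mk_insert_le
      (add_lt_of_lt hc t.2.2 (lt_of_lt_of_le one_lt_aleph0 hc))

/-- chains of length less than `c` have lower bounds -/
theorem exists_lower_bound (hc : c.IsRegular) {J : Type u} (hJ : #J < c) (s : J → Coll c I K)
    (hs : ∀ j j', s j ≤ s j' ∨ s j' ≤ s j) : ∃ t, ∀ j, t ≤ s j := by
  refine ⟨⟨⋃ j, (s j).1, ?_, ?_⟩, fun j => Set.subset_iUnion (fun j => (s j).1) j⟩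
  · intro i k k' hk hk'
    obtain ⟨j, hj⟩ := Set.mem_iUnion.1 hk
    obtain ⟨j', hj'⟩ := Set.mem_iUnion.1 hk'
    rcases hs j j' with h | h
    · exact (s j).2.1 i k k' hj (h hj')
    · exact (s j').2.1 i k k' (h hj) hj'
  · exact (card_iUnion_lt_iff_forall_of_isRegular hc hJ).2 fun j => (s j).2.2

theorem coll_prod {κ : Cardinal.{u}} (hκ : ℵ₀ ≤ κ) (hI : #I ≤ κ) (hK : #K ≤ κ) :
    #(I × K) ≤ κ := by
  rw [mk_prod, lift_id, lift_id]
  exact (mul_le_mul' hI hK).trans (mul_eq_self hκ).le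

/-- finite partial functions: `Set.Finite` subsets -/
theorem mk_le_of_finite (hI : #I ≤ #K) (hK : ℵ₀ ≤ #K) : #(Coll ℵ₀ I K) ≤ #K := by
  have h1 : #(Coll ℵ₀ I K) ≤ #(Finset (I × K)) := by
    classical
    refine mk_le_of_injective (f := fun t => (Cardinal.lt_aleph0_iff_set_finite.1 t.2.2).toFinset) ?_
    intro t t' h
    have h2 := Set.Finite.toFinset_inj.1 h
    exact Subtype.ext h2
  refine h1.trans ?_
  rcases finite_or_infinite (I × K) with h | h
  · exact (Cardinal.lt_aleph0_of_finite _).le.trans hK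
  · rw [mk_finset_of_infinite]
    exact coll_prod hK hI le_rfl

/-- `κ ^ ν = κ` for `κ` inaccessible, `ν < κ`: `mk_bounded_subset` -/
theorem mk_le_of_inaccessible {κ ν : Cardinal.{u}} (hκ : κ.IsInaccessible) (hν : ν < κ)
    (hν0 : ℵ₀ ≤ ν) (hI : #I ≤ κ) (hK : #K ≤ κ) : #(Coll (Order.succ ν) I K) ≤ κ := by
  have h0 : ℵ₀ ≤ κ := hν0.trans hν.le
  have h1 : #(I × K) ≤ #κ.out := by
    rw [mk_out]
    exact coll_prod h0 hI hK
  obtain ⟨g⟩ := h1
  have h2 : #{s : Set κ.out // #s < (#κ.out).ord.cof} = #κ.out :=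
    mk_subset_mk_lt_cof (by rw [mk_out]; exact hκ.isStrongLimit.isStrongPrelimit)
  rw [mk_out] at h2
  rw [← h2]
  refine mk_le_of_injective (f := fun t => ⟨g '' t.1, ?_⟩) ?_
  · have h3 : #(g '' t.1 : Set κ.out) ≤ ν := mk_image_le.trans (Order.lt_succ_iff.1 t.2.2)
    rw [hκ.isRegular.cof_ord]
    exact h3.trans_lt hν
  · intro t t' h
    have h3 : g '' t.1 = g '' t'.1 := congrArg Subtype.val h
    exact Subtype.ext (Set.image_injective.2 g.injective h3)

end Coll

section Gen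

variable {B : Type u} [CompleteBooleanAlgebra B] {P : Type u} [Preorder P] {e : P → B}

/-- the Boolean value of the pair `(i, k)` being in the generic function -/
noncomputable def collG {α β : Ordinal.{u}} (e : P → B) (G : P → Set (α.ToType × β.ToType))
    (i k : Ordinal.{u}) : B :=
  ⨆ p : {p : P // ∃ x ∈ G p, (x.1.toOrd : Ordinal) = i ∧ (x.2.toOrd : Ordinal) = k}, e p

theorem collG_disj (he : DenseEmb P B e) {α β : Ordinal.{u}} (G : P → Set (α.ToType × β.ToType))
    (hG : ∀ p q, p ≤ q → G q ⊆ G p)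
    (hfun : ∀ p i k k', (i, k) ∈ G p → (i, k') ∈ G p → k = k') {i k k' : Ordinal.{u}}
    (hne : k ≠ k') : collG e G i k ⊓ collG e G i k' = ⊥ := by
  unfold collG
  rw [iSup_inf_iSup, eq_bot_iff]
  refine iSup_le fun pq => ?_
  obtain ⟨⟨p, x, hx, hx1, hx2⟩, ⟨q, y, hy, hy1, hy2⟩⟩ := pq
  by_contra hb
  have hb' : e p ⊓ e q ≠ ⊥ := fun h => hb h.le
  obtain ⟨r, hrp, hrq⟩ := he.compat p q hb'
  have h1 := hG r p hrp hx
  have h2 := hG r q hrq hy
  have h3 : x.1 = y.1 := by
    have : (x.1.toOrd : Ordinal) = y.1.toOrd := hx1.trans hy1.symm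
    exact (Ordinal.ToType.mk (o := α)).symm.injective (Subtype.ext this)
  have h4 : x.2 = y.2 := hfun r x.1 x.2 y.2 h1 (by rw [h3]; exact h2)
  exact hne (by rw [← hx2, ← hy2, h4])

theorem collG_top (he : DenseEmb P B e) {α β : Ordinal.{u}} (G : P → Set (α.ToType × β.ToType))
    (hdense : ∀ p (k : β.ToType), ∃ q, q ≤ p ∧ ∃ i, (i, k) ∈ G q) {k : Ordinal.{u}}
    (hk : k < β) : (⨆ i : Set.Iio α, collG e G i k) = ⊤ := by
  refine he.iSup_eq_top fun p => ?_
  obtain ⟨q, hq, i, hi⟩ := hdense p (Ordinal.ToType.mk ⟨k, hk⟩)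
  refine ⟨q, hq, i.toOrd, ?_⟩
  unfold collG
  exact le_iSup (fun p : {p : P // ∃ x ∈ G p, (x.1.toOrd : Ordinal) = (i.toOrd : Ordinal) ∧
    (x.2.toOrd : Ordinal) = k} => e p) ⟨q, _, hi, rfl, by simp⟩

end Gen

/-- generic injection from `β` to `α`: `P` adds a surjection from (a subset of) `α` onto `β`.
Use `injOn_rel` with `F k i = g i k ⊓ (⨆ j < i, g j k)ᶜ`, `g i k = ⨆ p with (i, k) ∈ G p, e p`. -/
theorem generic_inj {B : Type u} [CompleteBooleanAlgebra B] {P : Type u} [Preorder P] {e : P → B}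
    (he : DenseEmb P B e) {α β : Ordinal.{u}} (G : P → Set (α.ToType × β.ToType))
    (hG : ∀ p q, p ≤ q → G q ⊆ G p)
    (hfun : ∀ p i k k', (i, k) ∈ G p → (i, k') ∈ G p → k = k')
    (hdense : ∀ p (k : β.ToType), ∃ q, q ≤ p ∧ ∃ i, (i, k) ∈ G q) (U : UF B) :
    ∃ f, InjOn (MU.E U) f (fun x => MU.E U x (ck U β)) (fun x => MU.E U x (ck U α)) := by
  refine ⟨_, injOn_rel (F := fun k i => collG e G i k ⊓ (⨆ j : Set.Iio i, collG e G j k)ᶜ)
    ?_ ?_ ?_ U⟩
  · intro k hk
    have h1 := iSup_first (ι := Set.Iio α) (fun i => collG e G i k)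
    rw [collG_top he G hdense hk] at h1
    rw [← h1]
    refine iSup_congr fun i => ?_
    congr 2
    refine le_antisymm (iSup_le fun j => ?_) (iSup_le fun j => ?_)
    · exact le_iSup (fun j : Set.Iio i => collG e G (j : Set.Iio α) k)
        ⟨⟨j, lt_trans (show (j : Ordinal.{u}) < i from j.2) i.2⟩, j.2⟩
    · exact le_iSup (fun j : Set.Iio (i : Ordinal.{u}) => collG e G j k) ⟨(j : Set.Iio α), j.2⟩
  · intro k _ i _ i' _ hne
    have key : ∀ i i' : Ordinal.{u}, i < i' →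
        (collG e G i k ⊓ (⨆ j : Set.Iio i, collG e G j k)ᶜ) ⊓
          (collG e G i' k ⊓ (⨆ j : Set.Iio i', collG e G j k)ᶜ) = ⊥ := by
      intro i i' h
      rw [eq_bot_iff]
      have h1 : collG e G i k ≤ ⨆ j : Set.Iio i', collG e G j k :=
        le_iSup (fun j : Set.Iio i' => collG e G j k) ⟨i, h⟩
      refine (inf_le_inf (inf_le_left.trans h1) inf_le_right).trans ?_
      rw [inf_compl_self]
    rcases lt_or_gt_of_ne hne with h | h
    · exact key i i' h
    · rw [inf_comm]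
      exact key i' i h
  · intro k _ k' _ i _ hne
    rw [eq_bot_iff]
    refine (inf_le_inf inf_le_left inf_le_left).trans ?_
    rw [collG_disj he G hG hfun hne]

end BV
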