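import Pool.Agent.H26.BV.Lam
import Pool.Agent.H26.BV.Rop

/-!
# COREA: Boolean-valued breadth-two semilattices on `SS κ`
-/

set_option autoImplicit false

universe u

open Cardinal Order

namespace BV

variable {B : Type u} [CompleteBooleanAlgebra B] {κ : Cardinal.{u}}

/-- Boolean value of `δ` is the join of `α` and `β` -/
def bJ (F : SS κ → SS κ → B) (α β δ : SS κ) : B :=
  F α δ ⊓ (F β δ ⊓ ⨅ ε, ((F α ε ⊓ F β ε) ⇨ F δ ε))

/-- the possible elements below `α`, under the condition `x` -/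
def poss (F : SS κ → SS κ → B) (x : B) (α : SS κ) : Set (SS κ) := {β | F β α ⊓ x ≠ ⊥}

/-- `F α β = ⟦α ≤ β⟧` is, below `b`, a join-semilattice order of breadth at most two with small
principal ideals -/
structure BDitor {P : Type u} [Preorder P] (e : P → B) (b : B) (F : SS κ → SS κ → B) : Prop where
  ne_bot : b ≠ ⊥
  refl : ∀ α, b ≤ F α α
  trans : ∀ α β γ, b ⊓ (F α β ⊓ F β γ) ≤ F α γ
  antisymm : ∀ α β, α ≠ β → b ⊓ (F α β ⊓ F β α) = ⊥
  sup : ∀ α β, b ≤ ⨆ δ, bJ F α β δ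
  breadth : ∀ α β γ s1 s2 s3, b ⊓ (bJ F α β s1 ⊓ (bJ F β γ s2 ⊓ bJ F α γ s3)) ≤
    F γ s1 ⊔ (F α s2 ⊔ F β s3)
  small : ∀ p, e p ≤ b → ∀ α, ∃ q, q ≤ p ∧ ∃ n, #(poss F (e q) α) ≤ lam κ n

/-- `t` is closed: possible joins and possible elements below stay below `t` -/
structure ClF (F : SS κ → SS κ → B) (b : B) (t : SS κ) : Prop where
  join : ∀ ξ η δ, ξ < t → η < t → bJ F ξ η δ ⊓ b ≠ ⊥ → δ < t
  below : ∀ ξ η, ξ < t → F η ξ ⊓ b ≠ ⊥ → η < t

variable {P : Type u} [Preorder P] {e : P → B} {b : B} {F : SS κ → SS κ → B}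

theorem coreA_bJ_lub {B : Type u} [CompleteBooleanAlgebra B] (F : SS κ → SS κ → B)
    (α β δ ε : SS κ) : bJ F α β δ ⊓ (F α ε ⊓ F β ε) ≤ F δ ε := by
  have h : bJ F α β δ ≤ (F α ε ⊓ F β ε) ⇨ F δ ε :=
    inf_le_right.trans (inf_le_right.trans (iInf_le _ ε))
  exact (inf_le_inf_right _ h).trans himp_inf_le

theorem coreA_bJ_left {B : Type u} [CompleteBooleanAlgebra B] (F : SS κ → SS κ → B)
    (α β δ : SS κ) : bJ F α β δ ≤ F α δ := inf_le_left

theorem coreA_bJ_right {B : Type u} [CompleteBooleanAlgebra B] (F : SS κ → SS κ → B)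
    (α β δ : SS κ) : bJ F α β δ ≤ F β δ := inf_le_right.trans inf_le_left

theorem poss_mono (F : SS κ → SS κ → B) {x y : B} (h : x ≤ y) (α : SS κ) :
    poss F x α ⊆ poss F y α := by
  intro β hβ h0
  apply hβ
  rw [← le_bot_iff, ← h0]
  exact inf_le_inf_left _ h

theorem poss_subset_of_le (hD : BDitor e b F) {x : B} (hx : x ≤ b) {α β : SS κ}
    (h : x ≤ F α β) : poss F x α ⊆ poss F x β := by
  intro γ hγ h0
  apply hγ
  rw [← le_bot_iff, ← h0]
  refine le_inf ?_ inf_le_right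
  refine le_trans ?_ (hD.trans γ α β)
  exact le_inf (inf_le_right.trans hx) (le_inf inf_le_left (inf_le_right.trans h))

/-- distinct possible joins have disjoint Boolean values (`antisymm`), `card_antichain` -/
theorem card_joins_le (he : DenseEmb P B e) (hD : BDitor e b F) (α β : SS κ) :
    #{δ : SS κ | bJ F α β δ ⊓ b ≠ ⊥} ≤ #P := by
  have h := he.card_antichain
    (fun δ : {δ : SS κ | bJ F α β δ ⊓ b ≠ ⊥} => bJ F α β δ.1 ⊓ b) (fun δ => δ.2) (by
      intro δ δ' hne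
      have hne' : δ.1 ≠ δ'.1 := fun h => hne (Subtype.ext h)
      rw [← le_bot_iff]
      refine le_trans ?_ (hD.antisymm δ.1 δ'.1 hne').le
      refine le_inf (inf_le_left.trans inf_le_right) (le_inf ?_ ?_)
      · refine le_trans ?_ (coreA_bJ_lub F α β δ.1 δ'.1)
        refine le_inf (inf_le_left.trans inf_le_left) (le_inf ?_ ?_)
        · exact inf_le_right.trans (inf_le_left.trans (coreA_bJ_left F α β _))
        · exact inf_le_right.trans (inf_le_left.trans (coreA_bJ_right F α β _))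
      · refine le_trans ?_ (coreA_bJ_lub F α β δ'.1 δ.1)
        refine le_inf (inf_le_right.trans inf_le_left) (le_inf ?_ ?_)
        · exact inf_le_left.trans (inf_le_left.trans (coreA_bJ_left F α β _))
        · exact inf_le_left.trans (inf_le_left.trans (coreA_bJ_right F α β _)))
  simpa using h

/-- `poss F b α` is the union over all `q` with `#(poss F (e q) α) < lamw κ` of `poss F (e q) α` -/
theorem card_poss_le (he : DenseEmb P B e) (hκ : ℵ₀ ≤ κ) (hP : #P ≤ κ) (hD : BDitor e b F)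
    (α : SS κ) : #(poss F b α) ≤ lamw κ := by
  have hsub : poss F b α ⊆
      ⋃ q : {q : P // #(poss F (e q) α) ≤ lamw κ}, poss F (e q.1) α := by
    intro β hβ
    obtain ⟨p, hp⟩ := he.dense _ hβ
    obtain ⟨q, hq, n, hn⟩ := hD.small p (hp.trans inf_le_right) α
    rw [Set.mem_iUnion]
    refine ⟨⟨q, hn.trans (lam_lt_lamw κ n).le⟩, ?_⟩
    intro h0
    apply he.ne_bot q
    rw [← le_bot_iff, ← h0]
    exact le_inf ((he.mono q p hq).trans (hp.trans inf_le_left)) le_rfl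
  have hw : ℵ₀ ≤ lamw κ := hκ.trans (lam_le_lamw κ)
  refine (mk_le_mk_of_subset hsub).trans ?_
  refine (mk_iUnion_le _).trans ?_
  refine (mul_le_mul' (mk_subtype_le _) (ciSup_le' (fun q => q.2))).trans ?_
  refine (mul_le_mul' (hP.trans (lam_le_lamw κ)) le_rfl).trans ?_
  exact (mul_eq_self hw).le

/-- for closed `t` the joins `t ∨ ξ`, `ξ < t`, are pairwise comparable: apply `sup` to `ξ, η`, then
`breadth` to `t, ξ, η`; the case `t ≤ ξ ∨ η` is excluded by closedness. -/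
theorem comparable (he : DenseEmb P B e) (hD : BDitor e b F) {t ξ η c c' : SS κ} {p : P}
    (ht : ClF F b t) (hξ : ξ < t) (hη : η < t) (hp : e p ≤ b) (h1 : e p ≤ bJ F t ξ c)
    (h2 : e p ≤ bJ F t η c') : ∃ q, q ≤ p ∧ (e q ≤ F c c' ∨ e q ≤ F c' c) := by
  obtain ⟨q1, hq1, δ, hδ⟩ := he.exists_le_of_le_iSup (hp.trans (hD.sup ξ η))
  have hq1p : e q1 ≤ e p := he.mono _ _ hq1
  have hbr : e q1 ≤ F η c ⊔ (F t δ ⊔ F ξ c') := by
    refine le_trans ?_ (hD.breadth t ξ η c δ c')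
    exact le_inf (hq1p.trans hp) (le_inf (hq1p.trans h1) (le_inf hδ (hq1p.trans h2)))
  obtain ⟨q2, hq2, h3⟩ := he.exists_le_or hbr
  have hq2q1 : e q2 ≤ e q1 := he.mono _ _ hq2
  rcases h3 with h3 | h3
  · refine ⟨q2, hq2.trans hq1, Or.inr ?_⟩
    refine le_trans ?_ (coreA_bJ_lub F t η c' c)
    refine le_inf (hq2q1.trans (hq1p.trans h2)) (le_inf ?_ h3)
    exact hq2q1.trans (hq1p.trans (h1.trans (coreA_bJ_left F _ _ _)))
  obtain ⟨q3, hq3, h4⟩ := he.exists_le_or h3
  have hq3q2 : e q3 ≤ e q2 := he.mono _ _ hq3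
  have hq3p : e q3 ≤ e p := hq3q2.trans (hq2q1.trans hq1p)
  rcases h4 with h4 | h4
  · exfalso
    have hδt : δ < t := by
      refine ht.join ξ η δ hξ hη ?_
      intro h0
      apply he.ne_bot q1
      rw [← le_bot_iff, ← h0]
      exact le_inf hδ (hq1p.trans hp)
    have htt : t < t := by
      refine ht.below δ t hδt ?_
      intro h0
      apply he.ne_bot q3
      rw [← le_bot_iff, ← h0]
      exact le_inf h4 (hq3p.trans hp)
    exact lt_irrefl _ htt
  · refine ⟨q3, hq3.trans (hq2.trans hq1), Or.inl ?_⟩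
    refine le_trans ?_ (coreA_bJ_lub F t ξ c c')
    refine le_inf (hq3p.trans h1) (le_inf ?_ h4)
    exact hq3p.trans (h2.trans (coreA_bJ_left F _ _ _))

end BV
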