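import Mathlib

/-!
# FREE: a set mapping lemma
Take `Y ⊆ X` of size `succ c`; `⋃ y ∈ Y, F y` has size at most `succ c`, so some `x ∈ X` lies
outside; if `y ∈ F x` for all `y ∈ Y` then `succ c ≤ c`.
-/

set_option autoImplicit false

universe u

open Cardinal Order

namespace BV

theorem free_pair {S : Type u} {c : Cardinal.{u}} (hc : ℵ₀ ≤ c) (X : Set S)
    (hX : succ (succ c) ≤ #X) (F : S → Set S) (hF : ∀ x ∈ X, #(F x) ≤ c) :
    ∃ x ∈ X, ∃ y ∈ X, x ≠ y ∧ x ∉ F y ∧ y ∉ F x := by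
  have hs : ℵ₀ ≤ succ c := hc.trans (le_succ c)
  obtain ⟨Y, hYX, hY⟩ := Cardinal.le_mk_iff_exists_subset.1 ((le_succ (succ c)).trans hX)
  set U : Set S := Y ∪ ⋃ y : Y, F y with hU
  have hUc : #U ≤ succ c := by
    refine (Cardinal.mk_union_le _ _).trans ?_
    have h1 : #(⋃ y : Y, F y : Set S) ≤ succ c := by
      refine (Cardinal.mk_iUnion_le _).trans ?_
      have h2 : (⨆ y : Y, #(F y)) ≤ succ c :=
        ciSup_le' (fun y => (hF y (hYX y.2)).trans (le_succ c))
      calc #Y * (⨆ y : Y, #(F y)) ≤ succ c * succ c := mul_le_mul' hY.le h2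
        _ = succ c := Cardinal.mul_eq_self hs
    calc #Y + #(⋃ y : Y, F y : Set S) ≤ succ c + succ c := add_le_add hY.le h1
      _ = succ c := Cardinal.add_eq_self hs
  have hx : ∃ x ∈ X, x ∉ U := by
    by_contra h
    push Not at h
    have : #X ≤ #U := Cardinal.mk_le_mk_of_subset h
    have h3 := (hX.trans this).trans hUc
    exact absurd h3 (not_le.2 (lt_succ (succ c)))
  obtain ⟨x, hxX, hxU⟩ := hx
  by_contra h
  push Not at h
  have hsub : Y ⊆ F x := by
    intro y hy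
    refine h x hxX y (hYX hy) ?_ ?_
    · rintro rfl
      exact hxU (Or.inl hy)
    · intro hxy
      exact hxU (Or.inr (Set.mem_iUnion.2 ⟨⟨y, hy⟩, hxy⟩))
  have h4 := (Cardinal.mk_le_mk_of_subset hsub).trans (hF x hxX)
  rw [hY] at h4
  exact absurd h4 (not_le.2 (lt_succ c))

end BV
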