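import Pool.Agent.H26.BV.CoreA
import Pool.Agent.H26.BV.Free

/-!
# COREB: existence of large joins; one step of the construction; comparison
-/

set_option autoImplicit false

universe u

open Cardinal Order

namespace BV

variable {B : Type u} [CompleteBooleanAlgebra B] {κ : Cardinal.{u}} {P : Type u} [Preorder P]
  {e : P → B} {b : B} {F : SS κ → SS κ → B}

theorem coreB_join_left {x : B} {α β δ : SS κ} (h : x ≤ bJ F α β δ) : x ≤ F α δ :=
  h.trans inf_le_left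

theorem coreB_join_right {x : B} {α β δ : SS κ} (h : x ≤ bJ F α β δ) : x ≤ F β δ :=
  h.trans (inf_le_right.trans inf_le_left)

theorem coreB_join_min {x : B} {α β δ ε : SS κ} (h : x ≤ bJ F α β δ) (h1 : x ≤ F α ε)
    (h2 : x ≤ F β ε) : x ≤ F δ ε := by
  have h3 : x ≤ (F α ε ⊓ F β ε) ⇨ F δ ε :=
    h.trans (inf_le_right.trans (inf_le_right.trans (iInf_le _ ε)))
  exact (le_inf (le_inf h1 h2) le_rfl).trans ((inf_le_inf_left _ h3).trans
    (by rw [inf_himp]; exact inf_le_right))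

theorem coreB_join_symm {x : B} {α β δ : SS κ} (h : x ≤ bJ F α β δ) : x ≤ bJ F β α δ := by
  refine le_inf (coreB_join_right h) (le_inf (coreB_join_left h) (le_iInf fun ε => ?_))
  rw [inf_comm (F β ε)]
  exact h.trans (inf_le_right.trans (inf_le_right.trans (iInf_le _ ε)))

theorem coreB_trans (hD : BDitor e b F) {x : B} (hx : x ≤ b) {α β γ : SS κ} (h1 : x ≤ F α β)
    (h2 : x ≤ F β γ) : x ≤ F α γ :=
  (le_inf hx (le_inf h1 h2)).trans (hD.trans α β γ)

theorem coreB_mem (he : DenseEmb P B e) {p q : P} (hq : q ≤ p) {α β : SS κ} (h : e q ≤ F β α) :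
    β ∈ poss F (e p) α := by
  intro h0
  apply he.ne_bot q
  rw [← le_bot_iff, ← h0]
  exact le_inf h (he.mono q p hq)

/-- Suppose not.  For every `ξ < t` there are `p ξ ≤ p` and `c ξ` with `e (p ξ) ≤ bJ F t ξ (c ξ)` and
`#(poss F (e (p ξ)) (c ξ)) ≤ lam κ n`.  As `#P ≤ κ < lam κ (n+2) ≤ #(Iio t)` there are a condition
`p'` and a set `X` of `lam κ (n+2)` many `ξ` with `p ξ = p'`.  For `ξ ≠ η` in `X`, by `comparable`,
`ξ ∈ poss F (e p') (c η)` or `η ∈ poss F (e p') (c ξ)`: contradiction to `free_pair`. -/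
theorem exists_big (hκ : κ.IsRegular) (hP : #P ≤ κ) (he : DenseEmb P B e) (hD : BDitor e b F)
    {t : SS κ} {p : P} (ht : ClF F b t) (hs : lamw κ ≤ #(Set.Iio t)) (hp : e p ≤ b) (n : ℕ) :
    ∃ q, q ≤ p ∧ ∃ ξ c, ξ < t ∧ e q ≤ bJ F t ξ c ∧
      ∀ r, r ≤ q → lam κ n < #(poss F (e r) c) := by
  by_contra hcon
  push Not at hcon
  have key : ∀ ξ : Set.Iio t, ∃ r, r ≤ p ∧ ∃ c, e r ≤ bJ F t ξ c ∧
      #(poss F (e r) c) ≤ lam κ n := by
    rintro ⟨ξ, hξ⟩
    obtain ⟨q, hq, c, hc⟩ := he.exists_le_of_le_iSup (hp.trans (hD.sup t ξ))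
    obtain ⟨r, hr, hr2⟩ := hcon q hq ξ c hξ hc
    exact ⟨r, hr.trans hq, c, (he.mono r q hr).trans hc, hr2⟩
  choose r hrp c hc hcard using key
  have hinf : ℵ₀ ≤ lam κ n := hκ.aleph0_le.trans (le_lam κ n)
  have hreg := lam_isRegular hκ (n + 2)
  obtain ⟨p', hp'⟩ := Cardinal.infinite_pigeonhole_card r (lam κ (n + 2))
    ((lam_lt_lamw κ (n + 2)).le.trans hs) hreg.aleph0_le
    (by rw [hreg.cof_ord]
        exact hP.trans_lt ((le_lam κ (n + 1)).trans_lt (lam_lt_succ κ (n + 1))))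
  obtain ⟨x, hx, y, hy, hxy, h1, h2⟩ := free_pair hinf (r ⁻¹' {p'}) (by exact hp')
    (fun x => {y | (y : SS κ) ∈ poss F (e p') (c x)}) (by
      intro x hx
      have hx' : r x = p' := hx
      have h3 := hcard x
      rw [hx'] at h3
      refine le_trans ?_ h3
      exact Cardinal.mk_le_of_injective (f := fun y :
        {y : Set.Iio t | (y : SS κ) ∈ poss F (e p') (c x)} =>
          (⟨((y : Set.Iio t) : SS κ), y.2⟩ : poss F (e p') (c x)))
        (fun y z hyz => Subtype.ext (Subtype.ext (Subtype.mk.inj hyz))))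
  have hx' : r x = p' := hx
  have hy' : r y = p' := hy
  have hpb : e p' ≤ b := by
    rw [← hx']
    exact (he.mono _ _ (hrp x)).trans hp
  have h3 := hc x
  have h4 := hc y
  rw [hx'] at h3
  rw [hy'] at h4
  obtain ⟨q, hq, h5 | h5⟩ := comparable he hD ht x.2 y.2 hpb h3 h4
  · exact h1 (coreB_mem he hq (coreB_trans hD ((he.mono _ _ hq).trans hpb)
      ((he.mono _ _ hq).trans (coreB_join_right h3)) h5))
  · exact h2 (coreB_mem he hq (coreB_trans hD ((he.mono _ _ hq).trans hpb)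
      ((he.mono _ _ hq).trans (coreB_join_right h4)) h5))

/-- the data at the point `t`, below the point `γ` -/
def Node (e : P → B) (F : SS κ → SS κ → B) (γ t : SS κ) (p : P) (n m : ℕ) (c c' ξ : SS κ) :
    Prop :=
  e p ≤ bJ F γ t c ∧ #(poss F (e p) c) ≤ lam κ n ∧ ξ < t ∧ e p ≤ bJ F t ξ c' ∧
    (∀ r, r ≤ p → lam κ n < #(poss F (e r) c')) ∧ #(poss F (e p) c') ≤ lam κ m

/-- `sup`, `small`, `exists_big`, `small` -/
theorem exists_node (hκ : κ.IsRegular) (hP : #P ≤ κ) (he : DenseEmb P B e) (hD : BDitor e b F)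
    (γ : SS κ) {t : SS κ} {p : P} (ht : ClF F b t) (hs : lamw κ ≤ #(Set.Iio t))
    (hp : e p ≤ b) : ∃ q, q ≤ p ∧ ∃ n m c c' ξ, Node e F γ t q n m c c' ξ := by
  obtain ⟨q1, hq1, c, hc⟩ := he.exists_le_of_le_iSup (hp.trans (hD.sup γ t))
  obtain ⟨q2, hq2, n, hn⟩ := hD.small q1 ((he.mono _ _ hq1).trans hp) c
  obtain ⟨q3, hq3, ξ, c', hξ, hc', hbig⟩ := exists_big hκ hP he hD ht hs
    ((he.mono _ _ (hq2.trans hq1)).trans hp) n
  obtain ⟨q4, hq4, m, hm⟩ := hD.small q3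
    ((he.mono _ _ (hq3.trans (hq2.trans hq1))).trans hp) c'
  refine ⟨q4, hq4.trans (hq3.trans (hq2.trans hq1)), n, m, c, c', ξ,
    (he.mono _ _ (hq4.trans (hq3.trans hq2))).trans hc, ?_, hξ, (he.mono _ _ hq4).trans hc',
    fun r hr => hbig r (hr.trans hq4), hm⟩
  exact (Cardinal.mk_le_mk_of_subset (poss_mono F (he.mono _ _ (hq4.trans hq3)) c)).trans hn

/-- Let `a` be the join of `t1` and `t2` (decided by a stronger condition).  By `comparable` for `γ`
`a ≤ c2` or `a ≤ c1`, so `poss F (e q) a` has size at most `lam κ n`.  By `comparable` for `t2`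
`a ≤ c'` or `c' ≤ a`; the latter contradicts the largeness of `c'`; so `t1 ≤ a ≤ c'`. -/
theorem compare_nodes (he : DenseEmb P B e) (hD : BDitor e b F) {γ t1 t2 : SS κ} {p1 p2 : P}
    {n m1 m2 : ℕ} {c1 c1' ξ1 c2 c2' ξ2 : SS κ} (hγ : ClF F b γ) (ht2 : ClF F b t2)
    (h12 : t1 < t2) (h2 : t2 < γ) (hp : e p1 ≤ b) (hle : p2 ≤ p1)
    (hn1 : Node e F γ t1 p1 n m1 c1 c1' ξ1) (hn2 : Node e F γ t2 p2 n m2 c2 c2' ξ2) :
    t1 ∈ poss F (e p2) c2' := by
  obtain ⟨h11, h12', h13, h14, h15, h16⟩ := hn1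
  obtain ⟨h21, h22, h23, h24, h25, h26⟩ := hn2
  have hp2 : e p2 ≤ b := (he.mono _ _ hle).trans hp
  obtain ⟨q, hq, a, ha⟩ := he.exists_le_of_le_iSup (hp2.trans (hD.sup t1 t2))
  have hqb : e q ≤ b := (he.mono _ _ hq).trans hp2
  have hq1 : q ≤ p1 := hq.trans hle
  obtain ⟨q', hq', hcase⟩ := comparable he hD hγ (h12.trans h2) h2 hqb
    ((he.mono _ _ hq1).trans h11) ((he.mono _ _ hq).trans h21)
  have hq'b : e q' ≤ b := (he.mono _ _ hq').trans hqb
  have hq'2 : q' ≤ p2 := hq'.trans hq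
  have hq'1 : q' ≤ p1 := hq'.trans hq1
  have ht1 : e q' ≤ F t1 c1 := (he.mono _ _ hq'1).trans (coreB_join_right h11)
  have ht2' : e q' ≤ F t2 c2 := (he.mono _ _ hq'2).trans (coreB_join_right h21)
  have ha' : e q' ≤ bJ F t1 t2 a := (he.mono _ _ hq').trans ha
  have hsmall : #(poss F (e q') a) ≤ lam κ n := by
    rcases hcase with h | h
    · have h3 : e q' ≤ F a c2 := coreB_join_min ha' (coreB_trans hD hq'b ht1 h) ht2'
      exact (Cardinal.mk_le_mk_of_subset ((poss_subset_of_le hD hq'b h3).trans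
        (poss_mono F (he.mono _ _ hq'2) c2))).trans h22
    · have h3 : e q' ≤ F a c1 := coreB_join_min ha' ht1 (coreB_trans hD hq'b ht2' h)
      exact (Cardinal.mk_le_mk_of_subset ((poss_subset_of_le hD hq'b h3).trans
        (poss_mono F (he.mono _ _ hq'1) c1))).trans h12'
  obtain ⟨q'', hq'', hcase2⟩ := comparable he hD ht2 h12 h23 hq'b (coreB_join_symm ha')
    ((he.mono _ _ hq'2).trans h24)
  have hq''b : e q'' ≤ b := (he.mono _ _ hq'').trans hq'b
  rcases hcase2 with h | h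
  · exact coreB_mem he (hq''.trans hq'2) (coreB_trans hD hq''b
      ((he.mono _ _ hq'').trans (coreB_join_left ha')) h)
  · exfalso
    have h3 := h25 q'' (hq''.trans hq'2)
    have h4 : #(poss F (e q'') c2') ≤ lam κ n :=
      (Cardinal.mk_le_mk_of_subset ((poss_subset_of_le hD hq''b h).trans
        (poss_mono F (he.mono _ _ hq'') a))).trans hsmall
    exact absurd h3 (not_lt.2 h4)

/-- `t ≤ t ∨ ξ` -/
theorem self_mem_poss (he : DenseEmb P B e) {γ t : SS κ} {p : P} {n m : ℕ} {c c' ξ : SS κ}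
    (hn : Node e F γ t p n m c c' ξ) : t ∈ poss F (e p) c' := by
  exact coreB_mem he le_rfl (coreB_join_left hn.2.2.2.1)

end BV
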