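import Pool.Agent.H26.BV.Lam

/-!
# TOWER: descending sequences of conditions; pigeonhole; interleaving
-/

set_option autoImplicit false

universe u v w

open Cardinal Order

namespace BV

/-- well-founded recursion on `W`: `r i` is found by `hstep` below a lower bound of the `r j`,
`j < i` (and below `r0`) -/
theorem exists_tower {W : Type u} [LinearOrder W] [WellFoundedLT W] {Q : Type v} [Preorder Q]
    {R : Type w} [Preorder R]
    (hR : ∀ (i : W) (r : W → R), (∀ j k, j ≤ k → k < i → r k ≤ r j) → ∃ r', ∀ j, j < i → r' ≤ r j)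
    (q0 : Q) (r0 : R) (Step : W → Q → R → Prop)
    (hstep : ∀ i r, r ≤ r0 → ∃ q, q ≤ q0 ∧ ∃ r', r' ≤ r ∧ Step i q r') :
    ∃ (q : W → Q) (r : W → R), (∀ i, q i ≤ q0) ∧ (∀ i, r i ≤ r0) ∧ (∀ i, Step i (q i) (r i)) ∧
      ∀ i j, i ≤ j → r j ≤ r i := by
  classical
  let wf : WellFounded (fun a b : W => a < b) := wellFounded_lt
  let G : ∀ i : W, (∀ j : W, j < i → Q × R) → Q × R := fun i prev =>
    if h : ∃ p : Q × R, p.1 ≤ q0 ∧ p.2 ≤ r0 ∧ Step i p.1 p.2 ∧ ∀ (j : W) (hj : j < i), p.2 ≤ (prev j hj).2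
    then h.choose else (q0, r0)
  let F : W → Q × R := wf.fix G
  have hF : ∀ i, F i = G i (fun j _ => F j) := fun i => wf.fix_eq G i
  have hG : ∀ i, (∃ p : Q × R, p.1 ≤ q0 ∧ p.2 ≤ r0 ∧ Step i p.1 p.2 ∧ ∀ (j : W), j < i → p.2 ≤ (F j).2) →
      ((F i).1 ≤ q0 ∧ (F i).2 ≤ r0 ∧ Step i (F i).1 (F i).2 ∧ ∀ (j : W), j < i → (F i).2 ≤ (F j).2) := by
    intro i h
    rw [hF i]
    have h' : ∃ p : Q × R, p.1 ≤ q0 ∧ p.2 ≤ r0 ∧ Step i p.1 p.2 ∧
        ∀ (j : W) (hj : j < i), p.2 ≤ ((fun (j : W) (_ : j < i) => F j) j hj).2 := h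
    have h1 : G i (fun j _ => F j) = h'.choose := dif_pos h'
    rw [h1]
    exact h'.choose_spec
  have key : ∀ i, (F i).1 ≤ q0 ∧ (F i).2 ≤ r0 ∧ Step i (F i).1 (F i).2 ∧
      ∀ (j : W), j < i → (F i).2 ≤ (F j).2 := by
    intro i
    induction i using wf.induction with
    | _ i ih =>
      apply hG
      have h1 : ∀ j k, j ≤ k → k < i → (F k).2 ≤ (F j).2 := by
        intro j k hjk hk
        rcases hjk.lt_or_eq with h | h
        · exact (ih k hk).2.2.2 j h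
        · rw [h]
      obtain ⟨r', hr'⟩ := hR i (fun j => (F j).2) h1
      have h2 : ∃ r'' : R, r'' ≤ r0 ∧ ∀ j, j < i → r'' ≤ (F j).2 := by
        by_cases he : ∃ j, j < i
        · obtain ⟨j, hj⟩ := he
          exact ⟨r', (hr' j hj).trans (ih j hj).2.1, hr'⟩
        · exact ⟨r0, le_refl _, fun j hj => absurd ⟨j, hj⟩ he⟩
      obtain ⟨r'', hr0, hr''⟩ := h2
      obtain ⟨q, hq, s, hs, hst⟩ := hstep i r'' hr0
      exact ⟨(q, s), hq, hs.trans hr0, hst, fun j hj => hs.trans (hr'' j hj)⟩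
  refine ⟨fun i => (F i).1, fun i => (F i).2, fun i => (key i).1, fun i => (key i).2.1,
    fun i => (key i).2.2.1, fun i j hij => ?_⟩
  rcases hij.lt_or_eq with h | h
  · exact (key j).2.2.2 i h
  · rw [h]

/-- pigeonhole: a map from an unbounded subset of a well-order of regular type `ν⁺` into a type of
size at most `ν` has an unbounded fibre -/
theorem exists_unbounded_fiber {ν : Cardinal.{u}} (hν : ℵ₀ ≤ ν) {X : Type v}
    (hX : Cardinal.lift.{u} #X ≤ Cardinal.lift.{v} ν) (T : Set (succ ν).ord.ToType)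
    (hT : ∀ i, ∃ j ∈ T, i < j) (φ : (succ ν).ord.ToType → X) :
    ∃ x, ∀ i, ∃ j ∈ T, i < j ∧ φ j = x := by
  by_contra hcon
  push Not at hcon
  choose I hI using hcon
  have hcof : Order.cof (succ ν).ord.ToType = succ ν := by
    rw [Ordinal.cof_toType, (Cardinal.isRegular_succ hν).cof_ord]
  by_cases hS : IsCofinal (Set.range I)
  · have h1 := Order.cof_le hS
    rw [hcof] at h1
    have h2 : Cardinal.lift.{v} #(Set.range I) ≤ Cardinal.lift.{v} ν :=
      (Cardinal.mk_range_le_lift (f := I)).trans hX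
    rw [Cardinal.lift_le] at h2
    exact absurd (h1.trans h2) (not_le.2 (Order.lt_succ ν))
  · rw [IsCofinal] at hS
    push Not at hS
    obtain ⟨a, ha⟩ := hS
    obtain ⟨j, hj, haj⟩ := hT a
    have h3 := ha (I (φ j)) ⟨φ j, rfl⟩
    exact hI (φ j) j hj (h3.trans haj) rfl

/-- Let `next i` be the least element of `T` above `i`, `φ i` the `k` of `h2` for `i < next i`,
`T' = {i ∈ T | φ i = k}` unbounded (pigeonhole); `A = {next i | i ∈ T'}`: for `next i < next j`,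
`i, j ∈ T'`, we have `i < j`, so `next i ≤ j` and `g (next i) n < h j n < g (next j) n`. -/
theorem interleave {ν : Cardinal.{u}} (hν : ℵ₀ ≤ ν) (T : Set (succ ν).ord.ToType)
    (hT : ∀ i, ∃ j ∈ T, i < j) (g h : (succ ν).ord.ToType → ℕ → Ordinal.{u}) (m : ℕ)
    (h1 : ∀ i ∈ T, ∀ j ∈ T, i ≤ j → ∀ n, m < n → g i n < h j n)
    (h2 : ∀ i ∈ T, ∀ j ∈ T, i < j → ∃ k, ∀ n, k ≤ n → h i n < g j n) :
    ∃ A : Set (succ ν).ord.ToType, A ⊆ T ∧ (∀ i, ∃ j ∈ A, i < j) ∧
      ∃ k, ∀ n, k ≤ n → StrictMonoOn (fun i => g i n) A := by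
  classical
  have hnext : ∀ i : (succ ν).ord.ToType, ∃ j, j ∈ T ∧ i < j ∧ ∀ k ∈ T, i < k → j ≤ k := by
    intro i
    obtain ⟨j, ⟨hj1, hj2⟩, hj3⟩ := WellFounded.has_min (wellFounded_lt (α := (succ ν).ord.ToType))
      {j | j ∈ T ∧ i < j} (by
        obtain ⟨j, hj, hij⟩ := hT i
        exact ⟨j, hj, hij⟩)
    exact ⟨j, hj1, hj2, fun k hk hik => not_lt.1 (hj3 k ⟨hk, hik⟩)⟩
  choose next hn1 hn2 hn3 using hnext
  have hk : ∀ i : (succ ν).ord.ToType, ∃ k : ℕ, i ∈ T → ∀ n, k ≤ n → h i n < g (next i) n := by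
    intro i
    by_cases hi : i ∈ T
    · obtain ⟨k, hk⟩ := h2 i hi (next i) (hn1 i) (hn2 i)
      exact ⟨k, fun _ => hk⟩
    · exact ⟨0, fun h' => absurd h' hi⟩
  choose φ hφ using hk
  obtain ⟨k, hk⟩ := exists_unbounded_fiber hν (X := ℕ) (by
    rw [Cardinal.mk_nat, Cardinal.lift_aleph0, Cardinal.lift_uzero]
    exact hν) T hT φ
  refine ⟨{a | ∃ i ∈ T, φ i = k ∧ next i = a}, ?_, ?_, max k (m + 1), ?_⟩
  · rintro a ⟨i, _, _, rfl⟩
    exact hn1 i
  · intro i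
    obtain ⟨j, hj, hij, hjk⟩ := hk i
    exact ⟨next j, ⟨j, hj, hjk, rfl⟩, hij.trans (hn2 j)⟩
  · rintro n hn a ⟨i, hi, hik, rfl⟩ b ⟨j, hj, hjk, rfl⟩ hab
    have hij : i < j := by
      by_contra hcon
      have h3 : j ≤ i := not_lt.1 hcon
      have h4 : next j ≤ next i := hn3 j (next i) (hn1 i) (lt_of_le_of_lt h3 (hn2 i))
      exact absurd hab (not_lt.2 h4)
    have h5 : next i ≤ j := hn3 i j hj hij
    have h6 : g (next i) n < h j n := h1 (next i) (hn1 i) j hj h5 n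
      (lt_of_lt_of_le (Nat.lt_succ_self m) ((le_max_right _ _).trans hn))
    have h7 : h j n < g (next j) n := hφ j hj n (by
      rw [hjk]
      exact (le_max_left _ _).trans hn)
    exact h6.trans h7

end BV
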