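import Pool.Agent.H26.BV.CoreB
import Pool.Agent.H26.BV.Tower

/-!
# COREC: a Boolean-valued semilattice makes the point `γ` good
Choose `p0 = (q0, r0)` with `e p0 ≤ b`.  `exists_tower` with `W = (succ ν).ord.ToType` and
`Step i q r := ∃ n m c c' ξ, Node e F γ (s i) (q, r) n m c c' ξ` (`exists_node`).
Pigeonhole on `(q i, n i, m i) : Q × ℕ × ℕ` gives an unbounded `T`.  For `i < j` in `T`:
`(q, r j) ≤ (q, r i)`, `compare_nodes` gives `s i ∈ poss F (e (q, r j)) (c' j)` (`self_mem_poss` for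
`i = j`), so `f (s i) n < h (q, r j) (c' j) (s j) n` for `n > m` (`lam κ m < lam κ n`).
For `i < j` in `T`: `c' i < s j` (it is a possible join of `s i` and `ξ i`, `s j` is closed), so
`h (q, r i) (c' i) (s i) n < f (s j) n` for large `n`.  Now `interleave`, and `A = s '' A'`.
-/

set_option autoImplicit false

universe u

open Cardinal Order

namespace BV

theorem core {B : Type u} [CompleteBooleanAlgebra B] {κ ν : Cardinal.{u}} (hκ : κ.IsRegular)
    (hν : ℵ₀ ≤ ν) {Q R : Type u} [Preorder Q] [Preorder R] (hQ : #Q ≤ ν)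
    (hP : #(Q × R) ≤ κ)
    (hR : ∀ (i : (succ ν).ord.ToType) (r : (succ ν).ord.ToType → R),
      (∀ j k, j ≤ k → k < i → r k ≤ r j) → ∃ r', ∀ j, j < i → r' ≤ r j)
    {e : Q × R → B} (he : DenseEmb (Q × R) B e) {b : B} {F : SS κ → SS κ → B}
    (hD : BDitor e b F) (γ : SS κ) (s : (succ ν).ord.ToType → SS κ) (hs : StrictMono s)
    (hsγ : ∀ i, s i < γ) (hcof : ∀ t, t < γ → ∃ i, t < s i) (hγ : ClF F b γ)
    (hcl : ∀ i, ClF F b (s i)) (hsize : ∀ i, lamw κ ≤ #(Set.Iio (s i)))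
    (f : SS κ → ℕ → Ordinal.{u}) (h : Q × R → SS κ → SS κ → ℕ → Ordinal.{u})
    (hh1 : ∀ p c t n, #(poss F (e p) c) < lam κ n → ∀ a ∈ poss F (e p) c, a ≤ t →
      f a n < h p c t n)
    (hh2 : ∀ a p c t, c < a → t < a → ∃ k, ∀ n, k ≤ n → h p c t n < f a n) :
    ∃ A : Set (SS κ), (∀ a ∈ A, a < γ) ∧ (∀ t, t < γ → ∃ a ∈ A, t < a) ∧
      ∃ k, ∀ n, k ≤ n → StrictMonoOn (fun s => f s n) A := by
  have : NoMaxOrder (succ ν).ord.ToType := Cardinal.noMaxOrder (hν.trans (le_succ ν))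
  obtain ⟨⟨q0, r0⟩, hp0⟩ := he.dense b hD.ne_bot
  obtain ⟨q, r, hq0, hr0, hstep, hmono⟩ := exists_tower hR q0 r0
    (fun i q r => ∃ n m c c' ξ, Node e F γ (s i) (q, r) n m c c' ξ) (by
      intro i r hr
      obtain ⟨⟨q', r'⟩, hle, n, m, c, c', ξ, hn⟩ := exists_node hκ hP he hD γ (hcl i) (hsize i)
        (p := (q0, r)) ((he.mono (q0, r) (q0, r0) ⟨le_rfl, hr⟩).trans hp0)
      exact ⟨q', hle.1, r', hle.2, n, m, c, c', ξ, hn⟩)
  choose n m c c' ξ hnode using hstep
  have hpb : ∀ i, e (q i, r i) ≤ b := fun i =>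
    (he.mono (q i, r i) (q0, r0) ⟨hq0 i, hr0 i⟩).trans hp0
  have hX : Cardinal.lift.{u} #(Q × ℕ × ℕ) ≤ Cardinal.lift.{u} ν := by
    rw [Cardinal.lift_le, Cardinal.mk_prod, Cardinal.mk_prod]
    simp only [Cardinal.lift_id, Cardinal.mk_nat, Cardinal.aleph0_mul_aleph0]
    rw [Cardinal.lift_aleph0, Cardinal.lift_uzero]
    exact Cardinal.mul_le_of_le hν hQ hν
  obtain ⟨x, hx⟩ := exists_unbounded_fiber hν hX Set.univ
    (fun i => (exists_gt i).imp fun j hj => ⟨Set.mem_univ j, hj⟩)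
    (fun i => (q i, n i, m i))
  have hT : ∀ i, ∃ j ∈ {i | (q i, n i, m i) = x}, i < j := by
    intro i
    obtain ⟨j, _, hij, hj⟩ := hx i
    exact ⟨j, hj, hij⟩
  obtain ⟨A, hAT, hAcof, k, hk⟩ := interleave hν {i | (q i, n i, m i) = x} hT
    (fun i n => f (s i) n) (fun j n => h (q j, r j) (c' j) (s j) n) x.2.2 (by
      intro i hi j hj hij n' hn'
      have hmj : m j = x.2.2 := by rw [← (hj : (q j, n j, m j) = x)]
      refine hh1 (q j, r j) (c' j) (s j) n' ?_ (s i) ?_ (hs.monotone hij)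
      · obtain ⟨_, _, _, _, _, h6⟩ := hnode j
        refine lt_of_le_of_lt h6 (lam_mono κ ?_)
        rw [hmj]
        exact hn'
      · rcases hij.lt_or_eq with hlt | heq
        · have hqq : q j = q i := by
            have h7 := (hi : (q i, n i, m i) = x).trans (hj : (q j, n j, m j) = x).symm
            exact (congrArg Prod.fst h7).symm
          have hnn : n j = n i := by
            have h7 := (hi : (q i, n i, m i) = x).trans (hj : (q j, n j, m j) = x).symm
            exact (congrArg (fun z : Q × ℕ × ℕ => z.2.1) h7).symm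
          have hn2 := hnode j
          rw [hnn] at hn2
          refine compare_nodes he hD hγ (hcl j) (hs hlt) (hsγ j) (hpb i) ?_ (hnode i) hn2
          exact ⟨le_of_eq hqq, hmono i j hij⟩
        · subst heq
          exact self_mem_poss he (hnode i))
    (by
      intro i hi j hj hij
      refine hh2 (s j) (q i, r i) (c' i) (s i) ?_ (hs hij)
      obtain ⟨_, _, h3, h4, _, _⟩ := hnode i
      refine (hcl j).join (s i) (ξ i) (c' i) (hs hij) (h3.trans (hs hij)) ?_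
      intro h8
      apply he.ne_bot (q i, r i)
      rw [eq_bot_iff, ← h8]
      exact le_inf h4 (hpb i))
  refine ⟨s '' A, ?_, ?_, k, ?_⟩
  · rintro _ ⟨i, _, rfl⟩
    exact hsγ i
  · intro t ht
    obtain ⟨i, hi⟩ := hcof t ht
    obtain ⟨j, hj, hij⟩ := hAcof i
    exact ⟨s j, ⟨j, hj, rfl⟩, hi.trans (hs hij)⟩
  · intro n' hn'
    rintro _ ⟨i, hi, rfl⟩ _ ⟨j, hj, rfl⟩ hij
    exact hk n' hn' hi hj (hs.lt_iff_lt.1 hij)

end BV
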