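import Mathlib

/-!
# Boolean-valued models of set theory: basic definitions

`B` is a complete Boolean algebra in `Type u`; `BSet B` is the Boolean-valued universe built over
`Type u`; `UF B` are the ultrafilters of `B`; `MU U` is the quotient of `BSet B` by `U`, a two-valued
structure with membership relation `MU.E U`.
-/

set_option autoImplicit false

universe u v

namespace BV

/-- Boolean-valued names -/
inductive BSet (B : Type u) : Type (u + 1)
  | mk (ι : Type u) (A : ι → BSet B) (a : ι → B) : BSet B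

namespace BSet

variable {B : Type u}

/-- index type of a name -/
def Idx : BSet B → Type u
  | mk ι _ _ => ι

/-- the names occurring in a name -/
def nm : (x : BSet B) → x.Idx → BSet B
  | mk _ A _ => A

/-- the Boolean values occurring in a name -/
def vl : (x : BSet B) → x.Idx → B
  | mk _ _ a => a

end BSet

section BoolVal

variable {B : Type u} [CompleteBooleanAlgebra B]

/-- Boolean value of `x = y` -/
noncomputable def beq : BSet B → BSet B → B
  | BSet.mk _ A a, BSet.mk _ A' a' =>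
    (⨅ i, a i ⇨ ⨆ j, a' j ⊓ beq (A i) (A' j)) ⊓ ⨅ j, a' j ⇨ ⨆ i, a i ⊓ beq (A i) (A' j)

/-- Boolean value of `x ∈ y` -/
noncomputable def bmem (x : BSet B) : BSet B → B
  | BSet.mk _ A a => ⨆ i, a i ⊓ beq x (A i)

/-- extensional Boolean-valued predicates -/
def Ext (f : BSet B → B) : Prop := ∀ x y, beq x y ⊓ f x ≤ f y

end BoolVal

/-- ultrafilters of a Boolean algebra -/
structure UF (B : Type u) [BooleanAlgebra B] where
  carrier : Set B
  top_mem' : ⊤ ∈ carrier
  mem_of_le' : ∀ a b, a ∈ carrier → a ≤ b → b ∈ carrier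
  inf_mem' : ∀ a b, a ∈ carrier → b ∈ carrier → a ⊓ b ∈ carrier
  bot_notMem' : ⊥ ∉ carrier
  em' : ∀ a, a ∈ carrier ∨ aᶜ ∈ carrier

instance {B : Type u} [BooleanAlgebra B] : Membership B (UF B) := ⟨fun U b => b ∈ U.carrier⟩

/-! ## The language of set theory and ZFC -/

/-- formulas of the language of set theory; the variables are numbered by natural numbers -/
inductive Fml
  | mem (i j : ℕ)
  | eq (i j : ℕ)
  | bot
  | imp (φ ψ : Fml)
  | all (i : ℕ) (φ : Fml)

section Structures

variable {M : Type v}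

/-- satisfaction of a formula in the structure `(M, E)` under the assignment `w` -/
def Sat (E : M → M → Prop) : Fml → (ℕ → M) → Prop
  | .mem i j, w => E (w i) (w j)
  | .eq i j, w => w i = w j
  | .bot, _ => False
  | .imp φ ψ, w => Sat E φ w → Sat E ψ w
  | .all i φ, w => ∀ x, Sat E φ (Function.update w i x)

/-- `(M, E)` is a model of ZFC (the schemas are stated for all formulas with parameters) -/
structure IsZFC (E : M → M → Prop) : Prop where
  ext : ∀ x y, (∀ z, E z x ↔ E z y) → x = y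
  foundation : ∀ x, (∃ y, E y x) → ∃ y, E y x ∧ ∀ z, E z y → ¬ E z x
  pairing : ∀ x y, ∃ p, ∀ z, E z p ↔ z = x ∨ z = y
  union : ∀ x, ∃ s, ∀ z, E z s ↔ ∃ y, E y x ∧ E z y
  power : ∀ x, ∃ p, ∀ z, E z p ↔ ∀ t, E t z → E t x
  infinity : ∃ w, (∃ e, E e w ∧ ∀ z, ¬ E z e) ∧
    ∀ x, E x w → ∃ y, E y w ∧ ∀ z, E z y ↔ E z x ∨ z = x
  separation : ∀ (φ : Fml) (w : ℕ → M) (a : M), ∃ b, ∀ x,
    E x b ↔ E x a ∧ Sat E φ (Function.update w 0 x)
  replacement : ∀ (φ : Fml) (w : ℕ → M) (a : M),
    (∀ x, E x a → ∀ y y', Sat E φ (Function.update (Function.update w 0 x) 1 y) →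
      Sat E φ (Function.update (Function.update w 0 x) 1 y') → y = y') →
    ∃ b, ∀ y, E y b ↔ ∃ x, E x a ∧ Sat E φ (Function.update (Function.update w 0 x) 1 y)
  choice : ∀ x, (∀ y, E y x → ∃ z, E z y) →
    (∀ y y', E y x → E y' x → (∃ z, E z y ∧ E z y') → y = y') →
    ∃ c, ∀ y, E y x → ∃ z, (E z c ∧ E z y) ∧ ∀ z', E z' c ∧ E z' y → z' = z

/-! ## Set theoretic notions in a structure `(M, E)` -/

/-- `p = {x, y}` -/
def IsPair (E : M → M → Prop) (p x y : M) : Prop := ∀ z, E z p ↔ z = x ∨ z = y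

/-- `p = ⟨x, y⟩` (Kuratowski) -/
def IsOPair (E : M → M → Prop) (p x y : M) : Prop :=
  ∃ a b, IsPair E a x x ∧ IsPair E b x y ∧ IsPair E p a b

/-- `⟨x, y⟩ ∈ f` -/
def App (E : M → M → Prop) (f x y : M) : Prop := ∃ p, IsOPair E p x y ∧ E p f

/-- `x` is a transitive set -/
def IsTrans (E : M → M → Prop) (x : M) : Prop := ∀ y, E y x → ∀ z, E z y → E z x

/-- `x` is an ordinal: a transitive set of transitive sets -/
def IsOrd (E : M → M → Prop) (x : M) : Prop := IsTrans E x ∧ ∀ y, E y x → IsTrans E y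

/-- the restriction of the relation `f` to the class `X` is an injective function from `X` to
the class `Y` -/
def InjOn (E : M → M → Prop) (f : M) (X Y : M → Prop) : Prop :=
  (∀ x, X x → ∃ y, Y y ∧ App E f x y) ∧
  (∀ x y y', X x → App E f x y → App E f x y' → y = y') ∧
  (∀ x x' y, X x → X x' → App E f x y → App E f x' y → x = x')

/-- `κ` is an infinite cardinal: a nonzero limit ordinal which does not inject into any of its
elements -/
def InfCard (E : M → M → Prop) (κ : M) : Prop :=
  IsOrd E κ ∧ (∃ β, E β κ) ∧ (∀ β, E β κ → ∃ γ, E γ κ ∧ E β γ) ∧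
  ∀ β, E β κ → ∀ f, ¬ InjOn E f (fun x => E x κ) (fun x => E x β)

/-- `κ` is an uncountable limit cardinal: an infinite cardinal, there is an infinite cardinal
below `κ`, and there is no largest infinite cardinal below `κ` -/
def LimCard (E : M → M → Prop) (κ : M) : Prop :=
  InfCard E κ ∧ (∃ μ, E μ κ ∧ InfCard E μ) ∧
  ∀ μ, E μ κ → InfCard E μ → ∃ μ', E μ' κ ∧ InfCard E μ' ∧ E μ μ'

/-- `κ = ℵ_ω`: the least uncountable limit cardinal -/
def IsAlephOmega (E : M → M → Prop) (κ : M) : Prop :=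
  LimCard E κ ∧ ∀ κ', E κ' κ → ¬ LimCard E κ'

/-- `κ'` is the cardinal successor of `κ` -/
def IsSuccCard (E : M → M → Prop) (κ κ' : M) : Prop :=
  InfCard E κ' ∧ E κ κ' ∧ ∀ μ, E μ κ' → InfCard E μ → E μ κ ∨ μ = κ

end Structures

end BV
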