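import Pool.Agent.H26.BV.Lam

/-!
# DOM: the sequence of functions
Recursion on `s : SS κ` (well-founded).  Given `f t` for `t < s` put
`h i c t n = sup {f a n + 1 | a ∈ D i c, a ≤ t}` if `#(D i c) < lam κ n`, else `0`; it is less than
`(lam κ n).ord` by regularity; `f s` dominates all `h i c t` with `c, t < s`, `i : I`
(at most `lamw κ` many) and all `f t`, `t < s` (`exists_dominating`).
-/

set_option autoImplicit false

universe u

open Cardinal Order

namespace BV

/-- the suprema used in the recursion -/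
noncomputable def dom_h {κ : Cardinal.{u}} {I : Type u} (D : I → SS κ → Set (SS κ))
    (φ : SS κ → ℕ → Ordinal.{u}) (i : I) (c t : SS κ) (n : ℕ) : Ordinal.{u} := by
  classical
  exact if #(D i c) < lam κ n then ⨆ a : {a // a ∈ D i c ∧ a ≤ t}, (φ a.1 n + 1) else 0

theorem dom_h_lt {κ : Cardinal.{u}} (hκ : κ.IsRegular) {I : Type u} (D : I → SS κ → Set (SS κ))
    (φ : SS κ → ℕ → Ordinal.{u}) (hφ : ∀ a n, φ a n < (lam κ n).ord) (i : I) (c t : SS κ)
    (n : ℕ) : dom_h D φ i c t n < (lam κ n).ord := by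
  have hreg := lam_isRegular hκ n
  have hlim : IsSuccLimit (lam κ n).ord := isSuccLimit_ord hreg.aleph0_le
  unfold dom_h
  split_ifs with hcard
  · apply Ordinal.iSup_lt_of_lt_cof
    · rw [hreg.cof_ord]
      refine lt_of_le_of_lt ?_ hcard
      apply Cardinal.mk_le_of_injective
        (f := fun a : {a // a ∈ D i c ∧ a ≤ t} => (⟨a.1, a.2.1⟩ : D i c))
      intro a b hab
      apply Subtype.ext
      exact congrArg (fun z : D i c => z.1) hab
    · intro a
      exact hlim.add_one_lt (hφ a.1 n)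
  · exact lt_of_le_of_lt zero_le (hφ t n)

theorem dom_h_congr {κ : Cardinal.{u}} {I : Type u} (D : I → SS κ → Set (SS κ))
    (φ ψ : SS κ → ℕ → Ordinal.{u}) (i : I) (c t : SS κ) (h : ∀ a, a ≤ t → φ a = ψ a) (n : ℕ) :
    dom_h D φ i c t n = dom_h D ψ i c t n := by
  have h1 : (⨆ a : {a // a ∈ D i c ∧ a ≤ t}, (φ a.1 n + 1))
      = ⨆ a : {a // a ∈ D i c ∧ a ≤ t}, (ψ a.1 n + 1) := by
    congr 1
    funext a
    rw [h a.1 a.2.2]
  unfold dom_h
  rw [h1]

/-- one step of the recursion -/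
theorem dom_step {κ : Cardinal.{u}} (hκ : κ.IsRegular) {I : Type u} (hI : #I ≤ lamw κ)
    (D : I → SS κ → Set (SS κ)) (φ : SS κ → ℕ → Ordinal.{u})
    (hφ : ∀ a n, φ a n < (lam κ n).ord) (s : SS κ) :
    ∃ g : ℕ → Ordinal.{u}, (∀ n, g n < (lam κ n).ord) ∧
      (∀ i c t, c < s → t < s → ∃ k, ∀ n, k ≤ n → dom_h D φ i c t n < g n) ∧
      (∀ t, t < s → ∃ k, ∀ n, k ≤ n → φ t n < g n) := by
  have hω : ℵ₀ ≤ lamw κ := hκ.aleph0_le.trans ((le_lam κ 0).trans (lam_lt_lamw κ 0).le)
  have hJ : #((I × (Set.Iio s) × (Set.Iio s)) ⊕ (Set.Iio s)) ≤ lamw κ := by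
    rw [Cardinal.mk_sum, Cardinal.lift_id, Cardinal.lift_id, Cardinal.mk_prod, Cardinal.lift_id,
      Cardinal.lift_id, Cardinal.mk_prod, Cardinal.lift_id]
    exact Cardinal.add_le_of_le hω
      (Cardinal.mul_le_of_le hω hI (Cardinal.mul_le_of_le hω (mk_Iio_le s) (mk_Iio_le s)))
      (mk_Iio_le s)
  obtain ⟨g, hg1, hg2⟩ := exists_dominating hκ hJ
    (Sum.elim (fun p n => dom_h D φ p.1 p.2.1.1 p.2.2.1 n) (fun t n => φ t.1 n)) (by
      rintro (p | t) n
      · exact dom_h_lt hκ D φ hφ _ _ _ n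
      · exact hφ _ n)
  refine ⟨g, hg1, ?_, ?_⟩
  · intro i c t hc ht
    exact hg2 (Sum.inl (i, ⟨c, hc⟩, ⟨t, ht⟩))
  · intro t ht
    exact hg2 (Sum.inr ⟨t, ht⟩)

/-- extension by zero of a function defined below `s` -/
noncomputable def dom_ext {κ : Cardinal.{u}} (s : SS κ)
    (prev : (t : SS κ) → t < s → (ℕ → Ordinal.{u})) : SS κ → ℕ → Ordinal.{u} := by
  classical
  exact fun a => if h : a < s then prev a h else fun _ => 0

open Classical in
/-- the recursion -/
noncomputable def dom_rec {κ : Cardinal.{u}} (hκ : κ.IsRegular) {I : Type u} (hI : #I ≤ lamw κ)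
    (D : I → SS κ → Set (SS κ)) (s : SS κ)
    (prev : (t : SS κ) → t < s → (ℕ → Ordinal.{u})) : ℕ → Ordinal.{u} :=
  if H : (∀ a n, dom_ext s prev a n < (lam κ n).ord) then
    Classical.choose (dom_step hκ hI D (dom_ext s prev) H s) else fun _ => 0

theorem dom {κ : Cardinal.{u}} (hκ : κ.IsRegular) {I : Type u} (hI : #I ≤ lamw κ)
    (D : I → SS κ → Set (SS κ)) :
    ∃ (f : SS κ → ℕ → Ordinal.{u}) (h : I → SS κ → SS κ → ℕ → Ordinal.{u}),
      (∀ s n, f s n < (lam κ n).ord) ∧
      (∀ i c t n, #(D i c) < lam κ n → ∀ a ∈ D i c, a ≤ t → f a n < h i c t n) ∧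
      (∀ s i c t, c < s → t < s → ∃ k, ∀ n, k ≤ n → h i c t n < f s n) ∧
      (∀ s t, t < s → ∃ k, ∀ n, k ≤ n → f t n < f s n) := by
  classical
  have hwf : WellFounded ((· < ·) : SS κ → SS κ → Prop) := wellFounded_lt
  set f : SS κ → ℕ → Ordinal.{u} := hwf.fix (fun s prev => dom_rec hκ hI D s prev) with hf
  have hfix : ∀ s, f s = dom_rec hκ hI D s (fun t _ => f t) := fun s => hwf.fix_eq _ s
  have hpos : ∀ n, (0 : Ordinal.{u}) < (lam κ n).ord := by
    intro n
    have hreg := lam_isRegular hκ n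
    have hlim : IsSuccLimit (lam κ n).ord := isSuccLimit_ord hreg.aleph0_le
    exact hlim.bot_lt
  have hext : ∀ s a, a < s → dom_ext s (fun t _ => f t) a = f a := by
    intro s a ha
    unfold dom_ext
    rw [dif_pos ha]
  have hext0 : ∀ s a, ¬ a < s → dom_ext s (fun t _ => f t) a = fun _ => 0 := by
    intro s a ha
    unfold dom_ext
    rw [dif_neg ha]
  have hmain : ∀ s, ∀ n, f s n < (lam κ n).ord := by
    intro s
    induction s using hwf.induction with
    | _ s ih =>
      have H : ∀ a n, dom_ext s (fun t _ => f t) a n < (lam κ n).ord := by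
        intro a n
        by_cases ha : a < s
        · rw [hext s a ha]
          exact ih a ha n
        · rw [hext0 s a ha]
          exact hpos n
      intro n
      rw [hfix s]
      unfold dom_rec
      rw [dif_pos H]
      exact (Classical.choose_spec (dom_step hκ hI D _ H s)).1 n
  have hspec : ∀ s, (∀ i c t, c < s → t < s → ∃ k, ∀ n, k ≤ n →
      dom_h D (dom_ext s (fun t _ => f t)) i c t n < f s n) ∧
      (∀ t, t < s → ∃ k, ∀ n, k ≤ n → dom_ext s (fun t _ => f t) t n < f s n) := by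
    intro s
    have H : ∀ a n, dom_ext s (fun t _ => f t) a n < (lam κ n).ord := by
      intro a n
      by_cases ha : a < s
      · rw [hext s a ha]
        exact hmain a n
      · rw [hext0 s a ha]
        exact hpos n
    have h2 : f s = Classical.choose (dom_step hκ hI D _ H s) := by
      rw [hfix s]
      unfold dom_rec
      rw [dif_pos H]
    rw [h2]
    exact (Classical.choose_spec (dom_step hκ hI D _ H s)).2
  refine ⟨f, dom_h D f, hmain, ?_, ?_, ?_⟩
  · intro i c t n hcard a ha hat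
    unfold dom_h
    rw [if_pos hcard]
    refine lt_of_lt_of_le (lt_add_one (f a n)) ?_
    exact Ordinal.le_iSup (fun a : {a // a ∈ D i c ∧ a ≤ t} => f a.1 n + 1) ⟨a, ha, hat⟩
  · intro s i c t hc ht
    obtain ⟨k, hk⟩ := (hspec s).1 i c t hc ht
    refine ⟨k, fun n hn => ?_⟩
    rw [← dom_h_congr D (dom_ext s (fun t _ => f t)) f i c t
      (fun a ha => hext s a (lt_of_le_of_lt ha ht)) n]
    exact hk n hn
  · intro s t ht
    obtain ⟨k, hk⟩ := (hspec s).2 t ht
    refine ⟨k, fun n hn => ?_⟩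
    have := hk n hn
    rw [hext s t ht] at this
    exact this

end BV
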