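import Pool.Agent.H26.BV.LosD
import Pool.Agent.H26.BV.CoreA

/-!
# EXTR: from a name of a semilattice to a Boolean-valued semilattice on `SS κ`
-/

set_option autoImplicit false

universe u

open Cardinal Order

namespace BV

variable {B : Type u} [CompleteBooleanAlgebra B] {κ : Cardinal.{u}}

/-- check name of an element of `SS κ` -/
noncomputable def cks (B : Type u) [CompleteBooleanAlgebra B] {κ : Cardinal.{u}} (α : SS κ) :
    BSet B := chk B (α.toOrd : Ordinal)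

theorem extr_mem (U : UF B) (α : SS κ) : MU.E U (MU.mk U (cks B α)) (ck U (Lam κ).ord) :=
  (E_ck U _ _).2 α.toOrd.2

theorem extr_inj (U : UF B) {α β : SS κ} (h : MU.mk U (cks B α) = MU.mk U (cks B β)) :
    α = β := by
  have h1 : (α.toOrd : Ordinal.{u}) = β.toOrd := ck_inj U h
  have h2 : α.toOrd = β.toOrd := Subtype.ext h1
  exact (Ordinal.ToType.mk (o := (Lam κ).ord)).symm.injective h2

theorem extr_iInf_aux (α : Ordinal.{u}) (g : Ordinal.{u} → B) :
    (⨅ i : α.ToType, g (i.toOrd : Ordinal)) = ⨅ β : Set.Iio α, g β :=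
  Equiv.iInf_comp (g := fun β : Set.Iio α => g β) (Ordinal.ToType.mk (o := α)).symm.toEquiv

theorem extr_ext_dle_right (g R x : BSet B) : Ext (fun y => bDle g R x y) :=
  ext_of_los (P := fun U y => Dle (MU.E U) (MU.mk U g) (MU.mk U R) (MU.mk U x) y)
    (fun U y => los_dle U g R x y)

theorem extr_ext_dle_left (g R y : BSet B) : Ext (fun x => bDle g R x y) :=
  ext_of_los (P := fun U x => Dle (MU.E U) (MU.mk U g) (MU.mk U R) x (MU.mk U y))
    (fun U x => los_dle U g R x y)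

/-- the Boolean value of the join, computed with all names -/
theorem extr_bJ (g R : BSet B) (α β δ : SS κ) :
    bJ (fun α β : SS κ => bDle g R (cks B α) (cks B β)) α β δ =
      bDJ (chk B (Lam κ).ord) g R (cks B α) (cks B β) (cks B δ) := by
  have h1 : (⨅ t, bmem t (chk B (Lam κ).ord) ⇨ (bDle g R (cks B α) t ⇨
      bDle g R (cks B β) t ⇨ bDle g R (cks B δ) t)) =
      ⨅ ε : SS κ, ((bDle g R (cks B α) (cks B ε) ⊓ bDle g R (cks B β) (cks B ε)) ⇨
        bDle g R (cks B δ) (cks B ε)) := by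
    rw [chk_ball (Lam κ).ord (f := fun t => bDle g R (cks B α) t ⇨
      bDle g R (cks B β) t ⇨ bDle g R (cks B δ) t) (ext_himp (extr_ext_dle_right g R _)
        (ext_himp (extr_ext_dle_right g R _) (extr_ext_dle_right g R _))),
      ← extr_iInf_aux (Lam κ).ord (fun t => bDle g R (cks B α) (chk B t) ⇨
      bDle g R (cks B β) (chk B t) ⇨ bDle g R (cks B δ) (chk B t))]
    refine iInf_congr fun ε => ?_
    rw [himp_himp]
    rfl
  have h2 : bmem (cks B δ) (chk B (Lam κ).ord) = ⊤ := bmem_chk_of_lt δ.toOrd.2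
  unfold bDJ bJ
  rw [h1, h2, top_inf_eq]

theorem los_bJ (U : UF B) (g R : BSet B) (α β δ : SS κ) :
    bJ (fun α β : SS κ => bDle g R (cks B α) (cks B β)) α β δ ∈ U ↔
      DJ (MU.E U) (ck U (Lam κ).ord) (MU.mk U g) (MU.mk U R) (MU.mk U (cks B α))
        (MU.mk U (cks B β)) (MU.mk U (cks B δ)) := by
  rw [extr_bJ, los_dj]
  exact Iff.rfl

/-- counting of possible elements: if `X ξ ⊓ b ≤ ⨆ η, H ξ η` and `H ξ η`, `H ξ' η` are disjoint
below `b` for `ξ ≠ ξ'` then there are at most `#P * #W` many `ξ` with `X ξ ⊓ b ≠ ⊥` -/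
theorem card_possible' {P : Type u} [Preorder P] {e : P → B} (he : DenseEmb P B e) {S W : Type u}
    (X : S → B) (H : S → W → B) (b : B) (h1 : ∀ ξ, X ξ ⊓ b ≤ ⨆ η, H ξ η)
    (h2 : ∀ ξ ξ' η, ξ ≠ ξ' → b ⊓ (H ξ η ⊓ H ξ' η) = ⊥) :
    #{ξ : S | X ξ ⊓ b ≠ ⊥} ≤ #P * #W := by
  have key : ∀ ξ : {ξ : S | X ξ ⊓ b ≠ ⊥}, ∃ c : P × W, e c.1 ≤ b ∧ e c.1 ≤ H ξ c.2 := by
    intro ξ
    obtain ⟨p, hp⟩ := he.dense (X ξ ⊓ b) ξ.2
    obtain ⟨q, hqp, η, hq⟩ := he.exists_le_of_le_iSup (hp.trans (h1 ξ))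
    exact ⟨(q, η), ((he.mono q p hqp).trans hp).trans inf_le_right, hq⟩
  choose c hc1 hc2 using key
  have hinj : Function.Injective c := by
    intro ξ ξ' h
    by_contra hne
    have hne' : (ξ : S) ≠ ξ' := fun h' => hne (Subtype.ext h')
    apply he.ne_bot (c ξ).1
    rw [eq_bot_iff, ← h2 ξ ξ' (c ξ).2 hne']
    refine le_inf (hc1 ξ) (le_inf (hc2 ξ) ?_)
    rw [h]
    exact hc2 ξ'
  have h3 := Cardinal.mk_le_of_injective hinj
  rwa [Cardinal.mk_prod, Cardinal.lift_id, Cardinal.lift_id] at h3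

/-- Boolean value of: `z` is an element of `L` below `a`, `g x = z` and `f z = y` -/
noncomputable def extr_H (L g R a f x y : BSet B) : B :=
  ⨆ z, bmem (opr x z) g ⊓ ((bmem z L ⊓ bmem (opr z a) R) ⊓ bmem (opr z y) f)

theorem extr_los_H (U : UF B) (L g R a f x y : BSet B) : extr_H L g R a f x y ∈ U ↔
    ∃ z, App (MU.E U) (MU.mk U g) (MU.mk U x) z ∧ ((MU.E U z (MU.mk U L) ∧
      App (MU.E U) (MU.mk U R) z (MU.mk U a)) ∧ App (MU.E U) (MU.mk U f) z (MU.mk U y)) := by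
  unfold extr_H
  refine card_iSup (P := fun U z => App (MU.E U) (MU.mk U g) (MU.mk U x) z ∧
    ((MU.E U z (MU.mk U L) ∧
      App (MU.E U) (MU.mk U R) z (MU.mk U a)) ∧ App (MU.E U) (MU.mk U f) z (MU.mk U y)))
    (fun U z => ?_) U
  rw [UF.inf_mem_iff, UF.inf_mem_iff, UF.inf_mem_iff, los_app, los_app, los_app]
  exact Iff.rfl

theorem extr_ext_H (L g R a f x : BSet B) : Ext (fun y => extr_H L g R a f x y) :=
  ext_of_los (P := fun U y => ∃ z, App (MU.E U) (MU.mk U g) (MU.mk U x) z ∧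
    ((MU.E U z (MU.mk U L) ∧
      App (MU.E U) (MU.mk U R) z (MU.mk U a)) ∧ App (MU.E U) (MU.mk U f) z y))
    (fun U y => extr_los_H U L g R a f x y)

/-- All clauses except `small` by `UF.le_of_forall`, `los_dsim`, `los_bJ`; `sup` with
`chk_bex`.  `small`: given `p` and `α`, `exists_le_of_le_iSup`, `chk_bex` give `q ≤ p`, `β < (lamw κ).ord`
and names `a`, `f` with `e q ≤ ⟦⟨α, a⟩ ∈ g⟧ ⊓ bInjOn f {z ∈ L | z R a} (chk β)`; apply
`card_possible'` with `b := e q`, `X ξ = F ξ α`, `W = β.ToType`,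
`H ξ η = ⨆ z, ⟦⟨ξ, z⟩ ∈ g⟧ ⊓ ⟦z ∈ L⟧ ⊓ ⟦z R a⟧ ⊓ ⟦⟨z, η⟩ ∈ f⟧`; `#P * β.card ≤ lam κ n` for some `n`. -/
theorem extract {P : Type u} [Preorder P] {e : P → B} (he : DenseEmb P B e) (hκ : ℵ₀ ≤ κ)
    (hP : #P ≤ κ) (L g R : BSet B)
    (hb : bDsim (chk B (lamw κ).ord) (chk B (Lam κ).ord) L g R ≠ ⊥) :
    BDitor e (bDsim (chk B (lamw κ).ord) (chk B (Lam κ).ord) L g R)
      (fun α β : SS κ => bDle g R (cks B α) (cks B β)) := by
  set b := bDsim (chk B (lamw κ).ord) (chk B (Lam κ).ord) L g R with hbdef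
  have hlos : ∀ U : UF B, b ∈ U → Dsim (MU.E U) (ck U (lamw κ).ord) (ck U (Lam κ).ord)
      (MU.mk U L) (MU.mk U g) (MU.mk U R) := fun U hU => (los_dsim U _ _ L g R).1 hU
  refine ⟨hb, ?_, ?_, ?_, ?_, ?_, ?_⟩
  · intro α
    refine UF.le_of_forall fun U hU => ?_
    exact (los_dle U _ _ _ _).2 ((hlos U hU).refl _ (extr_mem U α))
  · intro α β γ
    refine UF.le_of_forall fun U hU => ?_
    rw [UF.inf_mem_iff, UF.inf_mem_iff, los_dle, los_dle] at hU
    exact (los_dle U _ _ _ _).2 ((hlos U hU.1).trans _ _ _ (extr_mem U α) (extr_mem U β)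
      (extr_mem U γ) hU.2.1 hU.2.2)
  · intro α β hne
    refine UF.eq_bot_of_forall fun U hU => ?_
    rw [UF.inf_mem_iff, UF.inf_mem_iff, los_dle, los_dle] at hU
    exact hne (extr_inj U ((hlos U hU.1).antisymm _ _ (extr_mem U α) (extr_mem U β)
      hU.2.1 hU.2.2))
  · intro α β
    have h1 : b ≤ ⨆ s, bDJ (chk B (Lam κ).ord) g R (cks B α) (cks B β) s := by
      refine UF.le_of_forall fun U hU => ?_
      refine (card_iSup (P := fun U s => DJ (MU.E U) (ck U (Lam κ).ord) (MU.mk U g) (MU.mk U R)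
        (MU.mk U (cks B α)) (MU.mk U (cks B β)) s) (fun U s => los_dj U _ _ _ _ _ _) U).2 ?_
      exact (hlos U hU).sup _ _ (extr_mem U α) (extr_mem U β)
    refine h1.trans ?_
    have hext : Ext (fun s => bDJ (chk B (Lam κ).ord) g R (cks B α) (cks B β) s) :=
      ext_of_los (P := fun U s => DJ (MU.E U) (ck U (Lam κ).ord) (MU.mk U g) (MU.mk U R)
        (MU.mk U (cks B α)) (MU.mk U (cks B β)) s) (fun U s => los_dj U _ _ _ _ _ _)
    have h2 : (⨆ s, bDJ (chk B (Lam κ).ord) g R (cks B α) (cks B β) s) ≤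
        ⨆ s, bmem s (chk B (Lam κ).ord) ⊓
          bDJ (chk B (Lam κ).ord) g R (cks B α) (cks B β) s := by
      refine iSup_mono fun s => le_inf ?_ le_rfl
      unfold bDJ
      exact inf_le_left
    refine h2.trans ?_
    rw [chk_bex (Lam κ).ord hext, ← rel_iSup_aux (Lam κ).ord
      (fun s => bDJ (chk B (Lam κ).ord) g R (cks B α) (cks B β) (chk B s))]
    refine iSup_mono fun δ => ?_
    rw [extr_bJ]
    exact le_rfl
  · intro α β γ s1 s2 s3
    refine UF.le_of_forall fun U hU => ?_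
    rw [UF.inf_mem_iff, UF.inf_mem_iff, UF.inf_mem_iff, los_bJ, los_bJ, los_bJ] at hU
    rw [UF.sup_mem_iff, UF.sup_mem_iff, los_dle, los_dle, los_dle]
    exact (hlos U hU.1).breadth _ _ _ _ _ _ (extr_mem U α) (extr_mem U β) (extr_mem U γ)
      hU.2.1 hU.2.2.1 hU.2.2.2
  · intro p hp α
    have h1 : b ≤ ⨆ a, bmem (opr (cks B α) a) g ⊓
        bSmall (chk B (lamw κ).ord) (fun z => bmem z L ⊓ bmem (opr z a) R) := by
      refine UF.le_of_forall fun U hU => ?_
      refine (card_iSup (P := fun U a => App (MU.E U) (MU.mk U g) (MU.mk U (cks B α)) a ∧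
        SmallerThan (MU.E U) (ck U (lamw κ).ord) (fun z => MU.E U z (MU.mk U L) ∧
          App (MU.E U) (MU.mk U R) z a)) (fun U a => ?_) U).2
        ((hlos U hU).small _ (extr_mem U α))
      rw [UF.inf_mem_iff, los_app]
      refine and_congr Iff.rfl ?_
      refine los_small (X' := fun U z => MU.E U z (MU.mk U L) ∧
          App (MU.E U) (MU.mk U R) z (MU.mk U a)) (fun U z => ?_) U _
      rw [UF.inf_mem_iff, los_app]
      exact Iff.rfl
    obtain ⟨q1, hq1, a, ha⟩ := he.exists_le_of_le_iSup (hp.trans h1)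
    have h2 : e q1 ≤ ⨆ β : Set.Iio (lamw κ).ord, ⨆ f,
        bInjOn f (fun z => bmem z L ⊓ bmem (opr z a) R) (fun y => bmem y (chk B β)) := by
      rw [← chk_bex (lamw κ).ord (f := fun β => ⨆ f,
        bInjOn f (fun z => bmem z L ⊓ bmem (opr z a) R) (fun y => bmem y β))]
      · exact ha.trans inf_le_right
      · refine ext_iSup fun f => ?_
        refine ext_of_los (P := fun U β => InjOn (MU.E U) (MU.mk U f)
          (fun z => MU.E U z (MU.mk U L) ∧ App (MU.E U) (MU.mk U R) z (MU.mk U a))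
          (fun y => MU.E U y β)) (fun U β => ?_)
        refine los_injOn (X' := fun U z => MU.E U z (MU.mk U L) ∧
          App (MU.E U) (MU.mk U R) z (MU.mk U a)) (Y' := fun U y => MU.E U y (MU.mk U β))
          (fun U z => ?_) (fun U y => Iff.rfl) U f
        rw [UF.inf_mem_iff, los_app]
        exact Iff.rfl
    obtain ⟨q2, hq2, β, hβ⟩ := he.exists_le_of_le_iSup h2
    obtain ⟨q, hq3, f, hf⟩ := he.exists_le_of_le_iSup hβ
    have hqp : q ≤ p := (hq3.trans hq2).trans hq1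
    have hqb : e q ≤ b := (he.mono q p hqp).trans hp
    have hqa : e q ≤ bmem (opr (cks B α) a) g :=
      ((he.mono q q1 (hq3.trans hq2)).trans ha).trans inf_le_left
    have hinj : ∀ U : UF B, e q ∈ U → InjOn (MU.E U) (MU.mk U f)
        (fun z => MU.E U z (MU.mk U L) ∧ App (MU.E U) (MU.mk U R) z (MU.mk U a))
        (fun y => MU.E U y (ck U β)) := by
      intro U hU
      refine (los_injOn (X' := fun U z => MU.E U z (MU.mk U L) ∧
          App (MU.E U) (MU.mk U R) z (MU.mk U a)) (Y' := fun U y => MU.E U y (ck U β))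
          (fun U z => ?_) (fun U y => Iff.rfl) U f).1 (U.mem_of_le hU hf)
      rw [UF.inf_mem_iff, los_app]
      exact Iff.rfl
    refine ⟨q, hqp, ?_⟩
    obtain ⟨n, hn⟩ : ∃ n, (β : Ordinal.{u}).card < lam κ n :=
      exists_lt_lam (Cardinal.lt_ord.1 β.2)
    refine ⟨n, ?_⟩
    have h3 := card_possible' he (S := SS κ) (W := (β : Ordinal.{u}).ToType)
      (fun ξ => bDle g R (cks B ξ) (cks B α))
      (fun ξ η => extr_H L g R a f (cks B ξ) (chk B (η.toOrd : Ordinal.{u}))) (e q) ?_ ?_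
    · refine h3.trans ?_
      rw [Cardinal.mk_toType]
      have hinf : ℵ₀ ≤ lam κ n := hκ.trans (le_lam κ n)
      calc #P * (β : Ordinal.{u}).card ≤ lam κ n * lam κ n :=
            mul_le_mul' (hP.trans (le_lam κ n)) hn.le
        _ = lam κ n := Cardinal.mul_eq_self hinf
    · intro ξ
      rw [rel_iSup_aux (β : Ordinal.{u}) (fun η => extr_H L g R a f (cks B ξ) (chk B η)),
        ← chk_bex (β : Ordinal.{u}) (extr_ext_H L g R a f (cks B ξ))]
      refine UF.le_of_forall fun U hU => ?_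
      rw [UF.inf_mem_iff, los_dle] at hU
      obtain ⟨⟨u, v, hu, hv, huv⟩, hUq⟩ := hU
      have hD := hlos U (U.mem_of_le hUq hqb)
      have haα := (los_app U _ _ _).1 (U.mem_of_le hUq hqa)
      have hva : v = MU.mk U a := hD.inj.2.1 _ _ _ (extr_mem U α) hv haα
      obtain ⟨w, hw1, hw2⟩ := hD.inj.1 _ (extr_mem U ξ)
      have hwu : w = u := hD.inj.2.1 _ _ _ (extr_mem U ξ) hw2 hu
      subst hva
      subst hwu
      obtain ⟨y, hy1, hy2⟩ := (hinj U hUq).1 w ⟨hw1, huv⟩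
      refine (card_iSup (P := fun U y => MU.E U y (ck U β) ∧
        ∃ z, App (MU.E U) (MU.mk U g) (MU.mk U (cks B ξ)) z ∧
        ((MU.E U z (MU.mk U L) ∧
        App (MU.E U) (MU.mk U R) z (MU.mk U a)) ∧ App (MU.E U) (MU.mk U f) z y))
        (fun U y => ?_) U).2 ⟨y, hy1, w, hu, ⟨hw1, huv⟩, hy2⟩
      rw [UF.inf_mem_iff, extr_los_H]
      exact Iff.rfl
    · intro ξ ξ' η hne
      refine UF.eq_bot_of_forall fun U hU => ?_
      rw [UF.inf_mem_iff, UF.inf_mem_iff, extr_los_H, extr_los_H] at hU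
      obtain ⟨hUq, ⟨z, hz1, hz2, hz3⟩, ⟨z', hz1', hz2', hz3'⟩⟩ := hU
      have hD := hlos U (U.mem_of_le hUq hqb)
      have hzz : z = z' := (hinj U hUq).2.2 _ _ _ hz2 hz2' hz3 hz3'
      subst hzz
      exact hne (extr_inj U (hD.inj.2.2 _ _ _ (extr_mem U ξ) (extr_mem U ξ') hz1 hz1'))

end BV
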