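import Pool.Agent.H26.BV.IdA

/-!
# FORC: the forcing
-/

set_option autoImplicit false

universe u

open Cardinal Order

namespace BV

theorem forc_mk_toType (c : Cardinal.{u}) : #(c.ord.ToType) = c := by
  rw [mk_toType, card_ord]

/-- `Q = Coll ℵ₀ (Ordinal.omega0.ToType) (ν.ord.ToType)`,
`R = Coll (succ ν) ((succ ν).ord.ToType) (κ.ord.ToType)`: `exists_denseEmb`, `Coll.mk_le_of_finite`,
`Coll.mk_le_of_inaccessible`, `Coll.exists_lower_bound`, `Coll.exists_ext`, `generic_inj` -/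
theorem exists_forcing {κ ν : Cardinal.{u}} (hκ : κ.IsInaccessible) (hν : ℵ₀ ≤ ν) (hνκ : ν < κ) :
    ∃ (Q R : Type u) (_ : Preorder Q) (_ : Preorder R) (B : Type u) (_ : CompleteBooleanAlgebra B)
      (e : Q × R → B), #Q ≤ ν ∧ #(Q × R) ≤ κ ∧
      (∀ (i : (succ ν).ord.ToType) (r : (succ ν).ord.ToType → R),
        (∀ j k, j ≤ k → k < i → r k ≤ r j) → ∃ r', ∀ j, j < i → r' ≤ r j) ∧
      Nonempty (Q × R) ∧ Setup κ ν e := by
  have hω : #(Ordinal.omega0.{u}.ToType) = ℵ₀ := by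
    rw [mk_toType, Ordinal.card_omega0]
  have hQ : #(Coll ℵ₀ (Ordinal.omega0.{u}.ToType) (ν.ord.ToType)) ≤ ν := by
    have h := Coll.mk_le_of_finite (I := Ordinal.omega0.{u}.ToType) (K := ν.ord.ToType)
      (by rw [hω, forc_mk_toType]; exact hν) (by rw [forc_mk_toType]; exact hν)
    rwa [forc_mk_toType] at h
  have hR : #(Coll (succ ν) ((succ ν).ord.ToType) (κ.ord.ToType)) ≤ κ :=
    Coll.mk_le_of_inaccessible hκ hνκ hν
      (by rw [forc_mk_toType]; exact succ_le_of_lt hνκ) (by rw [forc_mk_toType])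
  have hP : #(Coll ℵ₀ (Ordinal.omega0.{u}.ToType) (ν.ord.ToType) ×
      Coll (succ ν) ((succ ν).ord.ToType) (κ.ord.ToType)) ≤ κ :=
    Coll.coll_prod (hν.trans hνκ.le) (hQ.trans hνκ.le) hR
  obtain ⟨B, iB, e, he⟩ := exists_denseEmb
    (Coll ℵ₀ (Ordinal.omega0.{u}.ToType) (ν.ord.ToType) ×
      Coll (succ ν) ((succ ν).ord.ToType) (κ.ord.ToType))
  refine ⟨Coll ℵ₀ (Ordinal.omega0.{u}.ToType) (ν.ord.ToType),
    Coll (succ ν) ((succ ν).ord.ToType) (κ.ord.ToType), inferInstance, inferInstance, B, iB, e,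
    hQ, hP, ?_, ?_, ⟨hν, hνκ, he, hP, ?_, ?_⟩⟩
  · intro i r hr
    obtain ⟨t, ht⟩ := Coll.exists_lower_bound (isRegular_succ hν) (J := Set.Iio i)
      (mk_Iio_ord_toType i) (fun j => r j) (by
        intro j j'
        rcases le_total j j' with h | h
        · exact Or.inr (hr _ _ h j'.2)
        · exact Or.inl (hr _ _ h j.2))
    exact ⟨t, fun j hj => ht ⟨j, hj⟩⟩
  · refine ⟨⟨⟨∅, ?_, ?_⟩, ⟨∅, ?_, ?_⟩⟩⟩
    · intro i k k' h
      exact absurd h (Set.notMem_empty _)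
    · rw [mk_emptyCollection]
      exact aleph0_pos
    · intro i k k' h
      exact absurd h (Set.notMem_empty _)
    · rw [mk_emptyCollection]
      exact lt_of_lt_of_le aleph0_pos (hν.trans (le_succ ν))
  · intro U
    refine generic_inj he (fun p => p.1.1) (fun p q h => h.1) (fun p => p.1.2.1) ?_ U
    intro p k
    obtain ⟨s, hs, i, hi⟩ := Coll.exists_ext le_rfl (by rw [hω]) p.1 k
    exact ⟨(s, p.2), ⟨hs, le_rfl⟩, i, hi⟩
  · intro U
    refine generic_inj he (fun p => p.2.1) (fun p q h => h.2) (fun p => p.2.2.1) ?_ U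
    intro p k
    obtain ⟨s, hs, i, hi⟩ := Coll.exists_ext (hν.trans (le_succ ν)) (by rw [forc_mk_toType]) p.2 k
    exact ⟨(p.1, s), ⟨le_rfl, hs⟩, i, hi⟩

end BV
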