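import Pool.Agent.H26.BV.IdA

/-!
# IDB: `ℵ_ω = κ^{+ω}` and `ℵ_{ω+1} = κ^{+ω+1}` in the quotients
-/

set_option autoImplicit false

universe u

open Cardinal Order

namespace BV

variable {B : Type u} [CompleteBooleanAlgebra B] {κ ν : Cardinal.{u}} {P : Type u} [Preorder P]
  {e : P → B}

theorem idb_lt_lam {κ : Cardinal.{u}} (n : ℕ) : κ < lam κ (n + 1) :=
  lt_of_le_of_lt (le_lam κ n) (lam_lt_succ κ n)

theorem idb_exists {κ : Cardinal.{u}} {β : Ordinal.{u}} (hβ : β < (lamw κ).ord) :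
    ∃ n, β < (lam κ n).ord := by
  rw [Cardinal.lt_ord] at hβ
  obtain ⟨n, hn⟩ := exists_lt_lam hβ
  exact ⟨n, Cardinal.lt_ord.2 hn⟩

/-- `ball_ck`: for `β < κ^{+ω}` take `κ^{+(n+1)} > β` -/
theorem limCard_ck (hS : Setup κ ν e) (U : UF B) : LimCard (MU.E U) (ck U (lamw κ).ord) := by
  have hκ : κ < lamw κ := lam_lt_lamw κ 0
  refine ⟨infCard_ck hS hκ U, ⟨ck U (lam κ 1).ord, ?_, infCard_ck hS (idb_lt_lam 0) U⟩, ?_⟩
  · rw [E_ck]
    exact Cardinal.ord_lt_ord.2 (lam_lt_lamw κ 1)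
  · intro μ hμ
    refine ball_ck (f := fun x => bInfCard x ⇨ ⨆ μ', bmem μ' (chk B (lamw κ).ord) ⊓
        (bInfCard μ' ⊓ bmem x μ'))
      (P := fun U m => InfCard (MU.E U) m → ∃ μ', MU.E U μ' (ck U (lamw κ).ord) ∧
        InfCard (MU.E U) μ' ∧ MU.E U m μ') (fun U x => ?_) (lamw κ).ord (fun V β hβ _ => ?_) U μ hμ
    · rw [UF.himp_mem_iff, los_infCard]
      refine imp_congr Iff.rfl ?_
      refine card_iSup (P := fun U μ' => MU.E U μ' (ck U (lamw κ).ord) ∧ InfCard (MU.E U) μ' ∧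
        MU.E U (MU.mk U x) μ') (fun U μ' => ?_) U
      rw [UF.inf_mem_iff, UF.inf_mem_iff, los_infCard]
      exact Iff.rfl
    · obtain ⟨n, hn⟩ := idb_exists hβ
      refine ⟨ck V (lam κ (n + 1)).ord, ?_, infCard_ck hS (idb_lt_lam n) V, ?_⟩
      · rw [E_ck]
        exact Cardinal.ord_lt_ord.2 (lam_lt_lamw κ (n + 1))
      · rw [E_ck]
        exact hn.trans (Cardinal.ord_lt_ord.2 (lam_lt_succ κ n))

/-- Let `β < κ^{+ω}`.  By `infCard_cases` there is a finite set `s` of ordinals below `β` such that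
for all `U` and all `γ < β`: `InfCard (ck U γ) → γ ∈ s`.  By `ball_ck` (for the predicate
`InfCard m → ∃ γ ∈ s, m = ck U γ`, Boolean value a finite supremum) every infinite cardinal below
`ck U β` in `MU U` is `ck U γ` for some `γ ∈ s`; so there is a largest one, if there is one. -/
theorem not_limCard_ck (hS : Setup κ ν e) {β : Ordinal.{u}} (hβ : β < (lamw κ).ord) (U : UF B) :
    ¬ LimCard (MU.E U) (ck U β) := by
  classical
  intro hL
  obtain ⟨N, hN⟩ := idb_exists hβ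
  let s : Finset Ordinal.{u} := ({Ordinal.omega0, (succ ν).ord} : Finset Ordinal.{u}) ∪
    (Finset.range N).image (fun n => (lam κ (n + 1)).ord)
  have hs : ∀ (V : UF B) (γ : Ordinal.{u}), γ < β → InfCard (MU.E V) (ck V γ) → γ ∈ s := by
    intro V γ hγ hI
    rcases infCard_cases hS (hγ.trans hβ) V hI with h | h | ⟨n, h⟩
    · simp [s, h]
    · simp [s, h]
    · have h1 : (lam κ (n + 1)).ord < (lam κ N).ord := by
        rw [← h]
        exact hγ.trans hN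
      have h2 : n + 1 < N := (lam_mono κ).lt_iff_lt.1 (Cardinal.ord_lt_ord.1 h1)
      refine Finset.mem_union_right _ (Finset.mem_image.2 ⟨n, Finset.mem_range.2 (by omega), h.symm⟩)
  have hall : ∀ m, MU.E U m (ck U β) → InfCard (MU.E U) m → ∃ γ ∈ s, m = ck U γ := by
    intro m hm
    refine ball_ck (f := fun x => bInfCard x ⇨ ⨆ γ ∈ s, beq x (chk B γ))
      (P := fun U m => InfCard (MU.E U) m → ∃ γ ∈ s, m = ck U γ) (fun U x => ?_) β
      (fun V γ hγ hI => ⟨γ, hs V γ hγ hI, rfl⟩) U m hm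
    rw [UF.himp_mem_iff, los_infCard]
    refine imp_congr Iff.rfl ⟨fun h => ?_, fun h => ?_⟩
    · obtain ⟨γ, hγ, hγ'⟩ := U.exists_of_biSup_mem s h
      exact ⟨γ, hγ, (MU.mk_eq_iff _ _ _).2 hγ'⟩
    · obtain ⟨γ, hγ, hγ'⟩ := h
      refine U.mem_of_le ((MU.mk_eq_iff _ _ _).1 hγ') ?_
      exact le_iSup₂ (f := fun γ (_ : γ ∈ s) => beq x (chk B γ)) γ hγ
  obtain ⟨_, ⟨μ, hμ1, hμ2⟩, hL3⟩ := hL
  let t : Finset Ordinal.{u} := s.filter (fun γ => γ < β ∧ InfCard (MU.E U) (ck U γ))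
  have ht : t.Nonempty := by
    obtain ⟨γ, hγ, rfl⟩ := hall μ hμ1 hμ2
    exact ⟨γ, Finset.mem_filter.2 ⟨hγ, (E_ck U β γ).1 hμ1, hμ2⟩⟩
  have hmax := t.max'_mem ht
  obtain ⟨_, h1, h2⟩ := Finset.mem_filter.1 hmax
  obtain ⟨μ', hμ'1, hμ'2, hμ'3⟩ := hL3 _ ((E_ck U β _).2 h1) h2
  obtain ⟨γ, hγ, rfl⟩ := hall μ' hμ'1 hμ'2
  have h3 : γ ∈ t := Finset.mem_filter.2 ⟨hγ, (E_ck U β γ).1 hμ'1, hμ'2⟩
  have h4 := t.le_max' γ h3
  exact absurd ((E_ck U _ _).1 hμ'3) (not_lt.2 h4)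

theorem alephOmega_ck (hS : Setup κ ν e) (U : UF B) :
    IsAlephOmega (MU.E U) (ck U (lamw κ).ord) := by
  refine ⟨limCard_ck hS U, fun m hm => ?_⟩
  refine ball_ck (f := fun x => (bLimCard x)ᶜ) (P := fun U m => ¬ LimCard (MU.E U) m)
    (fun U x => ?_) (lamw κ).ord (fun V β hβ => not_limCard_ck hS hβ V) U m hm
  rw [UF.compl_mem_iff, los_limCard]

/-- `MU.trichotomy` -/
theorem alephOmega_eq (hS : Setup κ ν e) (U : UF B) {k : MU U} (hk : IsAlephOmega (MU.E U) k) :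
    k = ck U (lamw κ).ord := by
  have h1 := alephOmega_ck hS U
  rcases MU.trichotomy U k (ck U (lamw κ).ord) hk.1.1.1 (isOrd_ck U _) with h | h | h
  · exact absurd hk.1 (h1.2 k h)
  · exact h
  · exact absurd h1.1 (hk.2 _ h)

/-- `MU.trichotomy`, `ball_ck`, `infCard_ck`, `infCard_cases`, `not_infCard_between` -/
theorem succCard_eq (hS : Setup κ ν e) (U : UF B) {k : MU U}
    (hk : IsSuccCard (MU.E U) (ck U (lamw κ).ord) k) : k = ck U (Lam κ).ord := by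
  have hκ : ℵ₀ ≤ κ := hS.aleph0_le.trans hS.lt.le
  obtain ⟨hk1, hk2, hk3⟩ := hk
  rcases MU.trichotomy U k (ck U (Lam κ).ord) hk1.1 (isOrd_ck U _) with h | h | h
  · exfalso
    refine ball_ck (f := fun x => bInfCard x ⇨ (bmem (chk B (lamw κ).ord) x)ᶜ)
      (P := fun U m => InfCard (MU.E U) m → ¬ MU.E U (ck U (lamw κ).ord) m) (fun U x => ?_)
      (Lam κ).ord (fun V β hβ hI hE => ?_) U k h hk1 hk2
    · rw [UF.himp_mem_iff, los_infCard, UF.compl_mem_iff]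
      exact Iff.rfl
    · rw [E_ck] at hE
      exact not_infCard_between hκ hE hβ V hI
  · exact h
  · exfalso
    have h1 : κ < Lam κ := lt_of_le_of_lt (lam_le_lamw κ) (lamw_lt_Lam κ)
    have h2 : (lamw κ).ord < (Lam κ).ord := Cardinal.ord_lt_ord.2 (lamw_lt_Lam κ)
    rcases hk3 _ h (infCard_ck hS h1 U) with h3 | h3
    · rw [E_ck] at h3
      exact absurd h3 (not_lt.2 h2.le)
    · exact absurd (ck_inj U h3) h2.ne'

end BV
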