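import Pool.Agent.H26.BV.AxC
import Pool.Agent.H26.BV.Chk

/-!
# ZFC: the quotients are models of ZFC

* `ext`: `beq_ext`, `los_iInf`; pairing: `bmem_upr`; union, power: `ax_union`, `ax_pow`, Los.
* foundation: `MU.induction` for the complement of `x`.
* infinity: `chk B ω`, `ball_ck`.
* separation: lift the assignment to names (`MU.mk_surj`), `ax_sep` with
  `f z = val φ (Function.update w 0 z)` (extensional by `ext_of_los`, `los_fml`).
* replacement: `ax_coll` and separation.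
-/

set_option autoImplicit false

universe u

namespace BV

variable {B : Type u} [CompleteBooleanAlgebra B]

/-- Los rule for a universal quantifier over a binary predicate -/
theorem zfc_all {f : BSet B → BSet B → B} {P : ∀ U : UF B, MU U → MU U → Prop}
    (h : ∀ (U : UF B) (x y : BSet B), f x y ∈ U ↔ P U (MU.mk U x) (MU.mk U y))
    (U : UF B) (x : BSet B) : (⨅ y, f x y) ∈ U ↔ ∀ n, P U (MU.mk U x) n :=
  los_iInf (ext_of_los (P := fun V n => P V (MU.mk V x) n) (fun V y => h V x y)) U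
    (P := fun n => P U (MU.mk U x) n) (fun y => h U x y)

/-- Los rule for an existential quantifier over a binary predicate -/
theorem zfc_ex {f : BSet B → BSet B → B} {P : ∀ U : UF B, MU U → MU U → Prop}
    (h : ∀ (U : UF B) (x y : BSet B), f x y ∈ U ↔ P U (MU.mk U x) (MU.mk U y))
    (U : UF B) (x : BSet B) : (⨆ y, f x y) ∈ U ↔ ∃ n, P U (MU.mk U x) n :=
  los_iSup (ext_of_los (P := fun V n => P V (MU.mk V x) n) (fun V y => h V x y)) U
    (P := fun n => P U (MU.mk U x) n) (fun y => h U x y)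

theorem zfc_ext (U : UF B) (x y : MU U) (h : ∀ z, MU.E U z x ↔ MU.E U z y) : x = y := by
  obtain ⟨x, rfl⟩ := MU.mk_surj U x
  obtain ⟨y, rfl⟩ := MU.mk_surj U y
  rw [MU.mk_eq_iff, beq_ext, UF.inf_mem_iff]
  constructor
  · refine (los_iInf (ext_himp (ext_mem_left x) (ext_mem_left y)) U
      (P := fun z => MU.E U z (MU.mk U x) → MU.E U z (MU.mk U y)) (fun z => ?_)).2
      (fun z => (h z).1)
    rw [UF.himp_mem_iff]
    exact Iff.rfl
  · refine (los_iInf (ext_himp (ext_mem_left y) (ext_mem_left x)) U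
      (P := fun z => MU.E U z (MU.mk U y) → MU.E U z (MU.mk U x)) (fun z => ?_)).2
      (fun z => (h z).2)
    rw [UF.himp_mem_iff]
    exact Iff.rfl

theorem zfc_foundation (U : UF B) (x : MU U) (hx : ∃ y, MU.E U y x) :
    ∃ y, MU.E U y x ∧ ∀ z, MU.E U z y → ¬ MU.E U z x := by
  by_contra hc
  push Not at hc
  obtain ⟨x, rfl⟩ := MU.mk_surj U x
  obtain ⟨y, hy⟩ := hx
  refine MU.induction U (f := fun z => (bmem z x)ᶜ) (ext_compl (ext_mem_left x))
    (P := fun m => ¬ MU.E U m (MU.mk U x)) (fun z => ?_) (fun m hm hmx => ?_) y hy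
  · rw [UF.compl_mem_iff]
    exact Iff.rfl
  · obtain ⟨z, hz, hzx⟩ := hc m hmx
    exact hm z hz hzx

theorem zfc_pairing (U : UF B) (x y : MU U) : ∃ p, ∀ z, MU.E U z p ↔ z = x ∨ z = y := by
  obtain ⟨x, rfl⟩ := MU.mk_surj U x
  obtain ⟨y, rfl⟩ := MU.mk_surj U y
  refine ⟨MU.mk U (upr x y), fun z => ?_⟩
  obtain ⟨z, rfl⟩ := MU.mk_surj U z
  rw [MU.E_mk, bmem_upr, UF.sup_mem_iff, MU.mk_eq_iff, MU.mk_eq_iff]

theorem zfc_union (U : UF B) (x : MU U) :
    ∃ s, ∀ z, MU.E U z s ↔ ∃ y, MU.E U y x ∧ MU.E U z y := by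
  obtain ⟨x, rfl⟩ := MU.mk_surj U x
  obtain ⟨s, hs⟩ := ax_union x
  refine ⟨MU.mk U s, fun z => ?_⟩
  obtain ⟨z, rfl⟩ := MU.mk_surj U z
  rw [MU.E_mk, hs]
  refine los_iSup (ext_inf (ext_mem_left x) (ext_mem_right z)) U
    (P := fun y => MU.E U y (MU.mk U x) ∧ MU.E U (MU.mk U z) y) (fun y => ?_)
  rw [UF.inf_mem_iff]
  exact Iff.rfl

theorem zfc_power (U : UF B) (x : MU U) :
    ∃ p, ∀ z, MU.E U z p ↔ ∀ t, MU.E U t z → MU.E U t x := by
  obtain ⟨x, rfl⟩ := MU.mk_surj U x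
  obtain ⟨s, hs⟩ := ax_pow x
  refine ⟨MU.mk U s, fun z => ?_⟩
  obtain ⟨z, rfl⟩ := MU.mk_surj U z
  rw [MU.E_mk, hs]
  refine los_iInf (ext_himp (ext_mem_left z) (ext_mem_left x)) U
    (P := fun y => MU.E U y (MU.mk U z) → MU.E U y (MU.mk U x)) (fun y => ?_)
  rw [UF.himp_mem_iff]
  exact Iff.rfl

/-- the Boolean value of `y` is the successor of `x` -/
noncomputable def zfcSucc (x y z : BSet B) : B :=
  (bmem z y ⇨ bmem z x ⊔ beq z x) ⊓ ((bmem z x ⊔ beq z x) ⇨ bmem z y)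

theorem zfcSucc_los (U : UF B) (x y z : BSet B) : zfcSucc x y z ∈ U ↔
    (MU.E U (MU.mk U z) (MU.mk U y) ↔
      MU.E U (MU.mk U z) (MU.mk U x) ∨ MU.mk U z = MU.mk U x) := by
  rw [zfcSucc, UF.inf_mem_iff, UF.himp_mem_iff, UF.himp_mem_iff, UF.sup_mem_iff, MU.E_mk, MU.E_mk,
    MU.mk_eq_iff]
  exact iff_def.symm

theorem zfcSucc_all (x : BSet B) (U : UF B) (y : BSet B) : (⨅ z, zfcSucc x y z) ∈ U ↔
    ∀ z, MU.E U z (MU.mk U y) ↔ MU.E U z (MU.mk U x) ∨ z = MU.mk U x :=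
  zfc_all (f := fun y z => zfcSucc x y z)
    (P := fun V y z => MU.E V z y ↔ MU.E V z (MU.mk V x) ∨ z = MU.mk V x)
    (fun V y z => zfcSucc_los V x y z) U y

theorem zfcSucc_ex (c : BSet B) (U : UF B) (x : BSet B) :
    (⨆ y, bmem y c ⊓ ⨅ z, zfcSucc x y z) ∈ U ↔
    ∃ y, MU.E U y (MU.mk U c) ∧ ∀ z, MU.E U z y ↔ MU.E U z (MU.mk U x) ∨ z = MU.mk U x := by
  refine zfc_ex (f := fun x y => bmem y c ⊓ ⨅ z, zfcSucc x y z)
    (P := fun V x y => MU.E V y (MU.mk V c) ∧ ∀ z, MU.E V z y ↔ MU.E V z x ∨ z = x)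
    (fun V x y => ?_) U x
  rw [UF.inf_mem_iff, zfcSucc_all]
  exact Iff.rfl

theorem zfc_bmem_succ (z : BSet B) (α : Ordinal.{u}) :
    bmem z (chk B (Order.succ α)) = bmem z (chk B α) ⊔ beq z (chk B α) := by
  rw [bmem_chk, bmem_chk]
  apply le_antisymm
  · refine iSup_le fun γ => ?_
    rcases (Order.lt_succ_iff.1 (Set.mem_Iio.1 γ.2)).lt_or_eq with h | h
    · exact le_sup_of_le_left (le_iSup (fun γ : Set.Iio α => beq z (chk B γ)) ⟨γ, h⟩)
    · rw [h]
      exact le_sup_right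
  · refine sup_le (iSup_le fun γ => ?_) ?_
    · exact le_iSup (fun γ : Set.Iio (Order.succ α) => beq z (chk B γ))
        ⟨γ, lt_trans γ.2 (Order.lt_succ α)⟩
    · exact le_iSup (fun γ : Set.Iio (Order.succ α) => beq z (chk B γ)) ⟨α, Order.lt_succ α⟩

theorem zfc_infinity (U : UF B) : ∃ w : MU U, (∃ e, MU.E U e w ∧ ∀ z, ¬ MU.E U z e) ∧
    ∀ x, MU.E U x w → ∃ y, MU.E U y w ∧ ∀ z, MU.E U z y ↔ MU.E U z x ∨ z = x := by
  refine ⟨ck U Ordinal.omega0, ⟨ck U 0, (E_ck U _ _).2 Ordinal.omega0_pos, fun z hz => ?_⟩,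
    fun x hx => ?_⟩
  · obtain ⟨z, rfl⟩ := MU.mk_surj U z
    unfold ck at hz
    rw [MU.E_mk, bmem_chk] at hz
    have h1 : (⨆ β : Set.Iio (0 : Ordinal.{u}), beq z (chk B β)) = ⊥ := by
      rw [eq_bot_iff]
      exact iSup_le fun β => absurd (Set.mem_Iio.1 β.2) (not_lt.2 zero_le)
    rw [h1] at hz
    exact U.bot_notMem hz
  · refine ball_ck (f := fun x => ⨆ y, bmem y (chk B Ordinal.omega0) ⊓ ⨅ z, zfcSucc x y z)
      (P := fun V x => ∃ y, MU.E V y (ck V Ordinal.omega0) ∧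
        ∀ z, MU.E V z y ↔ MU.E V z x ∨ z = x)
      (fun V x => zfcSucc_ex (chk B Ordinal.omega0) V x) Ordinal.omega0 (fun V β hβ => ?_) U x hx
    refine ⟨ck V (Order.succ β), (E_ck V _ _).2 (Ordinal.isSuccLimit_omega0.succ_lt hβ),
      fun z => ?_⟩
    obtain ⟨z, rfl⟩ := MU.mk_surj V z
    unfold ck
    rw [MU.E_mk, MU.E_mk, MU.mk_eq_iff, zfc_bmem_succ, UF.sup_mem_iff]

theorem zfc_lift (U : UF B) (w : ℕ → MU U) : ∃ w' : ℕ → BSet B, w = fun i => MU.mk U (w' i) := by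
  choose w' hw' using fun i => MU.mk_surj U (w i)
  exact ⟨w', funext fun i => (hw' i).symm⟩

theorem zfc_separation (U : UF B) (φ : Fml) (w : ℕ → MU U) (a : MU U) : ∃ b, ∀ x,
    MU.E U x b ↔ MU.E U x a ∧ Sat (MU.E U) φ (Function.update w 0 x) := by
  obtain ⟨w, rfl⟩ := zfc_lift U w
  obtain ⟨a, rfl⟩ := MU.mk_surj U a
  have h : ∀ (V : UF B) (x : BSet B), val φ (Function.update w 0 x) ∈ V ↔
      Sat (MU.E V) φ (Function.update (fun i => MU.mk V (w i)) 0 (MU.mk V x)) := by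
    intro V x
    rw [los_fml, quo_update]
  obtain ⟨b, hb⟩ := ax_sep a (ext_of_los (P := fun V m =>
    Sat (MU.E V) φ (Function.update (fun i => MU.mk V (w i)) 0 m)) h)
  refine ⟨MU.mk U b, fun x => ?_⟩
  obtain ⟨x, rfl⟩ := MU.mk_surj U x
  rw [MU.E_mk, hb, UF.inf_mem_iff, h, MU.E_mk]

theorem zfc_replacement (U : UF B) (φ : Fml) (w : ℕ → MU U) (a : MU U)
    (hfun : ∀ x, MU.E U x a → ∀ y y',
      Sat (MU.E U) φ (Function.update (Function.update w 0 x) 1 y) →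
      Sat (MU.E U) φ (Function.update (Function.update w 0 x) 1 y') → y = y') :
    ∃ b, ∀ y, MU.E U y b ↔
      ∃ x, MU.E U x a ∧ Sat (MU.E U) φ (Function.update (Function.update w 0 x) 1 y) := by
  obtain ⟨w, rfl⟩ := zfc_lift U w
  obtain ⟨a, rfl⟩ := MU.mk_surj U a
  have h : ∀ (V : UF B) (x y : BSet B),
      val φ (Function.update (Function.update w 0 x) 1 y) ∈ V ↔
      Sat (MU.E V) φ (Function.update (Function.update (fun i => MU.mk V (w i)) 0 (MU.mk V x)) 1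
        (MU.mk V y)) := by
    intro V x y
    rw [los_fml, quo_update, quo_update]
  have hx : ∀ y, Ext (fun x => val φ (Function.update (Function.update w 0 x) 1 y)) := fun y =>
    ext_of_los (P := fun V m => Sat (MU.E V) φ (Function.update (Function.update
      (fun i => MU.mk V (w i)) 0 m) 1 (MU.mk V y))) (fun V x => h V x y)
  have hy : ∀ x, Ext (fun y => val φ (Function.update (Function.update w 0 x) 1 y)) := fun x =>
    ext_of_los (P := fun V m => Sat (MU.E V) φ (Function.update (Function.update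
      (fun i => MU.mk V (w i)) 0 (MU.mk V x)) 1 m)) (fun V y => h V x y)
  obtain ⟨c, hc⟩ := ax_coll a (f := fun x y =>
    val φ (Function.update (Function.update w 0 x) 1 y)) hx hy
  have h2 : ∀ (V : UF B) (y : BSet B),
      (⨆ x, bmem x a ⊓ val φ (Function.update (Function.update w 0 x) 1 y)) ∈ V ↔
      ∃ x, MU.E V x (MU.mk V a) ∧ Sat (MU.E V) φ (Function.update (Function.update
        (fun i => MU.mk V (w i)) 0 x) 1 (MU.mk V y)) := by
    intro V y
    refine los_iSup (ext_inf (ext_mem_left a) (hx y)) V (P := fun x => MU.E V x (MU.mk V a) ∧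
      Sat (MU.E V) φ (Function.update (Function.update (fun i => MU.mk V (w i)) 0 x) 1
        (MU.mk V y))) (fun x => ?_)
    rw [UF.inf_mem_iff, h]
    exact Iff.rfl
  obtain ⟨b, hb⟩ := ax_sep c (ext_of_los (P := fun V m => ∃ x, MU.E V x (MU.mk V a) ∧
    Sat (MU.E V) φ (Function.update (Function.update (fun i => MU.mk V (w i)) 0 x) 1 m)) h2)
  refine ⟨MU.mk U b, fun y => ?_⟩
  obtain ⟨y, rfl⟩ := MU.mk_surj U y
  rw [MU.E_mk, hb, UF.inf_mem_iff, h2]
  refine ⟨fun hh => hh.2, fun hh => ⟨?_, hh⟩⟩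
  obtain ⟨x, hxa, hxy⟩ := hh
  obtain ⟨x, rfl⟩ := MU.mk_surj U x
  have h3 : (⨆ y, bmem y c ⊓ val φ (Function.update (Function.update w 0 x) 1 y)) ∈ U := by
    refine U.mem_of_le (U.inf_mem hxa ?_) (hc x)
    exact U.iSup_mem_of_mem (f := fun y => val φ (Function.update (Function.update w 0 x) 1 y))
      (i := y) ((h U x y).2 hxy)
  have h4 := (los_iSup (ext_inf (ext_mem_left c) (hy x)) U (P := fun y => MU.E U y (MU.mk U c) ∧
    Sat (MU.E U) φ (Function.update (Function.update (fun i => MU.mk U (w i)) 0 (MU.mk U x)) 1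
      y)) (fun y => by
        rw [UF.inf_mem_iff, h]
        exact Iff.rfl)).1 h3
  obtain ⟨y', hy'c, hxy'⟩ := h4
  have h5 := hfun (MU.mk U x) hxa (MU.mk U y) y' hxy hxy'
  rw [← h5] at hy'c
  exact hy'c

theorem isZFC (U : UF B) : IsZFC (MU.E U) where
  ext := zfc_ext U
  foundation := zfc_foundation U
  pairing := zfc_pairing U
  union := zfc_union U
  power := zfc_power U
  infinity := zfc_infinity U
  separation := zfc_separation U
  replacement := zfc_replacement U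
  choice := MU.choice U

end BV
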