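import Pool.Agent.H26.BV.VFin
import Pool.Agent.H26.BV.Extr
import Pool.Agent.H26.BV.IdB
import Pool.Agent.H26.BV.Zfc
import Pool.Agent.H26.BV.Forc

/-!
# FINAL: the consistency theorem
-/

set_option autoImplicit false

universe u

open Cardinal Order

namespace BV

/-- the negation of `NoDitor` in a quotient gives `Cand` -/
theorem cand_of_not {κ ν : Cardinal.{u}} {Q R : Type u} [Preorder Q] [Preorder R] {B : Type u}
    [CompleteBooleanAlgebra B] {e : Q × R → B} (hQ : #Q ≤ ν) (hP : #(Q × R) ≤ κ)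
    (hR : ∀ (i : (succ ν).ord.ToType) (r : (succ ν).ord.ToType → R),
        (∀ j k, j ≤ k → k < i → r k ≤ r j) → ∃ r', ∀ j, j < i → r' ≤ r j)
    (hS : Setup κ ν e) (U : UF B) (h : ¬ NoDitor (MU.E U)) : Cand κ ν := by
  have hκ : ℵ₀ ≤ κ := hS.aleph0_le.trans hS.lt.le
  unfold NoDitor at h
  push Not at h
  obtain ⟨k, k', L, R', hk, hk', hcard, hL, hall⟩ := h
  have e1 := alephOmega_eq hS U hk
  subst e1
  have e2 := succCard_eq hS U hk'
  subst e2
  obtain ⟨g, hg, hg'⟩ := hcard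
  have hD := dsim_of (isZFC U) hg hg' hL hall
  obtain ⟨L0, rfl⟩ := MU.mk_surj U L
  obtain ⟨g0, rfl⟩ := MU.mk_surj U g
  obtain ⟨R0, rfl⟩ := MU.mk_surj U R'
  have hb : bDsim (chk B (lamw κ).ord) (chk B (Lam κ).ord) L0 g0 R0 ∈ U :=
    (los_dsim U _ _ _ _ _).2 hD
  exact ⟨Q, R, inferInstance, inferInstance, B, inferInstance, e, _, _, hQ, hP, hR, hS.emb,
    extract hS.emb hκ hP L0 g0 R0 (UF.ne_bot_of_mem U hb)⟩

/-- `κ^{+ω+1}` is the successor cardinal of `ℵ_ω` in the quotients -/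
theorem succCard_ck {B : Type u} [CompleteBooleanAlgebra B] {κ ν : Cardinal.{u}} {P : Type u}
    [Preorder P] {e : P → B} (hS : Setup κ ν e) (U : UF B) :
    IsSuccCard (MU.E U) (ck U (lamw κ).ord) (ck U (Lam κ).ord) := by
  have hκ : ℵ₀ ≤ κ := hS.aleph0_le.trans hS.lt.le
  have hlt : κ < Lam κ := ((le_lam κ 0).trans_lt (lam_lt_lamw κ 0)).trans (lamw_lt_Lam κ)
  refine ⟨infCard_ck hS hlt U, (E_ck U _ _).2 (Cardinal.ord_lt_ord.2 (lamw_lt_Lam κ)), ?_⟩
  intro m hm hm'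
  refine ball_ck (f := fun x => bInfCard x ⇨ (bmem x (chk B (lamw κ).ord) ⊔
      beq x (chk B (lamw κ).ord)))
    (P := fun U m => InfCard (MU.E U) m → MU.E U m (ck U (lamw κ).ord) ∨ m = ck U (lamw κ).ord)
    (fun U x => ?_) (Lam κ).ord (fun U β hβ hc => ?_) U m hm hm'
  · rw [UF.himp_mem_iff, UF.sup_mem_iff, los_infCard, ← MU.mk_eq_iff]
    rfl
  · rcases lt_trichotomy β (lamw κ).ord with h | h | h
    · exact Or.inl ((E_ck U _ _).2 h)
    · exact Or.inr (by rw [h])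
    · exact absurd hc (not_infCard_between hκ h hβ U)

theorem exists_model {κ : Cardinal.{u}} (hκ : IsSupercompactFor κ (Lam κ)) :
    ∃ (M : Type (u + 1)) (E : M → M → Prop), IsZFC E ∧
      (∃ k k', IsAlephOmega E k ∧ IsSuccCard E k k') ∧ NoDitor E := by
  obtain ⟨ν, hν, hνκ, hc⟩ := exists_not_cand hκ
  obtain ⟨Q, R, iQ, iR, B, iB, e, hQ, hP, hR, hne, hS⟩ := exists_forcing hκ.1 hν hνκ
  obtain ⟨p⟩ := hne
  obtain ⟨U, -⟩ := UF.exists_mem (hS.emb.ne_bot p)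
  refine ⟨MU U, MU.E U, isZFC U, ⟨_, _, alephOmega_ck hS U, succCard_ck hS U⟩, ?_⟩
  by_contra h
  exact hc (cand_of_not hQ hP hR hS U h)

end BV
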