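import Pool.Agent.H26.BV.Stmt

/-!
# LAM: arithmetic of `κ^{+n}`, `κ^{+ω}`, `κ^{+ω+1}` and the well-order `SS κ` of type `κ^{+ω+1}`
-/

set_option autoImplicit false

universe u

open Cardinal Order

namespace BV

theorem lam_lt_succ (κ : Cardinal.{u}) (n : ℕ) : lam κ n < lam κ (n + 1) := lt_succ _

theorem lam_mono (κ : Cardinal.{u}) : StrictMono (lam κ) :=
  strictMono_nat_of_lt_succ (lam_lt_succ κ)

theorem lam_lt_lamw (κ : Cardinal.{u}) (n : ℕ) : lam κ n < lamw κ :=
  (lam_lt_succ κ n).trans_le (le_ciSup (bddAbove_of_small (s := Set.range (lam κ))) (n + 1))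

theorem le_lam (κ : Cardinal.{u}) (n : ℕ) : κ ≤ lam κ n := (lam_mono κ).monotone (Nat.zero_le n)

theorem lamw_lt_Lam (κ : Cardinal.{u}) : lamw κ < Lam κ := lt_succ _

theorem lam_isRegular {κ : Cardinal.{u}} (hκ : κ.IsRegular) (n : ℕ) : (lam κ n).IsRegular := by
  induction n with
  | zero => exact hκ
  | succ n ih => exact isRegular_succ ih.aleph0_le

theorem lam_le_lamw (κ : Cardinal.{u}) : κ ≤ lamw κ := (le_lam κ 0).trans (lam_lt_lamw κ 0).le

theorem Lam_isRegular {κ : Cardinal.{u}} (hκ : ℵ₀ ≤ κ) : (Lam κ).IsRegular :=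
  isRegular_succ (hκ.trans (lam_le_lamw κ))

theorem exists_lt_lam {κ c : Cardinal.{u}} (hc : c < lamw κ) : ∃ n, c < lam κ n :=
  exists_lt_of_lt_ciSup hc

theorem exists_eq_lam {κ c : Cardinal.{u}} (h1 : κ ≤ c) (h2 : c < lamw κ) :
    ∃ n, c = lam κ n := by
  classical
  have h := exists_lt_lam h2
  obtain ⟨m, hm⟩ : ∃ m, Nat.find h = m + 1 := by
    refine Nat.exists_eq_succ_of_ne_zero (fun h0 => ?_)
    have h3 := Nat.find_spec h
    rw [h0] at h3
    exact absurd h3 (not_lt.mpr h1)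
  refine ⟨m, ?_⟩
  have h3 := Nat.find_spec h
  rw [hm] at h3
  have h4 : ¬ c < lam κ m := Nat.find_min h (by omega)
  exact le_antisymm (lt_succ_iff.mp h3) (not_lt.mp h4)

/-- the well-order of type `κ^{+ω+1}` -/
abbrev SS (κ : Cardinal.{u}) : Type u := (Lam κ).ord.ToType

theorem mk_SS (κ : Cardinal.{u}) : #(SS κ) = Lam κ := mk_ord_toType _

theorem mk_Iio_le {κ : Cardinal.{u}} (s : SS κ) : #(Set.Iio s) ≤ lamw κ := by
  have h : #(Set.Iio s) < Lam κ := by
    have := mk_Iio_lt s (by simp)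
    rwa [mk_SS] at this
  exact lt_succ_iff.mp h

theorem exists_gt_of_card_le {κ : Cardinal.{u}} (hκ : ℵ₀ ≤ κ) (A : Set (SS κ))
    (hA : #A ≤ lamw κ) : ∃ s, ∀ a ∈ A, a < s := by
  by_contra hcon
  push Not at hcon
  have hcof : IsCofinal A := by
    intro s
    obtain ⟨a, ha, has⟩ := hcon s
    exact ⟨a, ha, has⟩
  have h1 := Order.cof_le hcof
  have h2 : Order.cof (SS κ) = Lam κ := by
    have := (Lam_isRegular hκ).cof_ord
    rw [← Ordinal.cof_toType] at this
    exact this
  rw [h2] at h1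
  exact absurd (h1.trans hA) (not_le.mpr (lamw_lt_Lam κ))

theorem exists_large {κ : Cardinal.{u}} (hκ : ℵ₀ ≤ κ) : ∃ s : SS κ, lamw κ ≤ #(Set.Iio s) := by
  have h1 : lamw κ ≤ #(SS κ) := by rw [mk_SS]; exact (lamw_lt_Lam κ).le
  obtain ⟨A, hA⟩ := Cardinal.le_mk_iff_exists_set.mp h1
  obtain ⟨s, hs⟩ := exists_gt_of_card_le hκ A hA.le
  refine ⟨s, ?_⟩
  rw [← hA]
  exact mk_le_mk_of_subset (fun a ha => hs a ha)

/-- a family of at most `κ^{+ω}` functions in `∏ κ^{+n}` is bounded modulo finite -/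
theorem exists_dominating {κ : Cardinal.{u}} (hκ : κ.IsRegular) {J : Type u} (hJ : #J ≤ lamw κ)
    (g : J → ℕ → Ordinal.{u}) (hg : ∀ j n, g j n < (lam κ n).ord) :
    ∃ g' : ℕ → Ordinal.{u}, (∀ n, g' n < (lam κ n).ord) ∧ ∀ j, ∃ k, ∀ n, k ≤ n → g j n < g' n := by
  -- an embedding of `J` into the well-order of type `κ^{+ω}`
  have h1 : #J ≤ #(lamw κ).ord.ToType := by rw [mk_ord_toType]; exact hJ
  obtain ⟨e⟩ := Cardinal.le_def _ _ |>.mp h1
  have hlow : ∀ j, ∃ n, #(Set.Iio (e j)) < lam κ n := by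
    intro j
    apply exists_lt_lam
    have := mk_Iio_lt (e j) (by simp)
    rwa [mk_ord_toType] at this
  choose ν hν using hlow
  -- the pieces
  let P : ℕ → Set J := fun n => {j | ν j < n}
  have hP : ∀ n, #(P n) < lam κ n := by
    intro n
    rcases Nat.eq_zero_or_pos n with rfl | hn
    · have : P 0 = ∅ := by
        ext j; simp [P]
      rw [this]
      simpa using (Cardinal.aleph0_pos.trans_le (lam_isRegular hκ 0).aleph0_le)
    · obtain ⟨m, rfl⟩ : ∃ m, n = m + 1 := ⟨n - 1, by omega⟩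
      refine lt_of_le_of_lt ?_ (lam_lt_succ κ m)
      -- `P (m+1)` injects into the points with few predecessors
      let Q : Set (lamw κ).ord.ToType := {x | #(Set.Iio x) < lam κ m}
      have hQ : #Q ≤ lam κ m := by
        have hlt : ∀ x : Q, Ordinal.typein (α := (lamw κ).ord.ToType) (· < ·) x.1
            < (lam κ m).ord := by
          intro x
          rw [Cardinal.lt_ord, Ordinal.card_typein]
          exact x.2
        have hinj : #Q ≤ #(lam κ m).ord.ToType := by
          refine Cardinal.mk_le_of_injective (f := fun x : Q =>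
            (Ordinal.ToType.mk ⟨Ordinal.typein (α := (lamw κ).ord.ToType) (· < ·) x.1, hlt x⟩ :
              (lam κ m).ord.ToType)) ?_
          intro a b hab
          have h4 := Ordinal.ToType.mk.injective hab
          have h5 := congrArg Subtype.val h4
          exact Subtype.ext (Ordinal.typein_injective _ h5)
        rwa [mk_ord_toType] at hinj
      have hPQ : #(P (m + 1)) ≤ #Q := by
        refine Cardinal.mk_le_of_injective (f := fun j : P (m + 1) => (⟨e j.1, ?_⟩ : Q)) ?_
        · have h3 : ν j.1 ≤ m := Nat.lt_succ_iff.mp j.2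
          exact (hν j.1).trans_le ((lam_mono κ).monotone h3)
        · intro a b hab
          have := congrArg Subtype.val hab
          exact Subtype.ext (e.injective this)
      exact hPQ.trans hQ
  refine ⟨fun n => ⨆ j : P n, succ (g j n), fun n => ?_, fun j => ⟨ν j + 1, fun n hn => ?_⟩⟩
  · refine Ordinal.iSup_lt_of_lt_cof ?_ (fun j => ?_)
    · rw [(lam_isRegular hκ n).cof_ord]
      exact hP n
    · exact (isSuccLimit_ord (lam_isRegular hκ n).aleph0_le).succ_lt (hg j n)
  · have hj : j ∈ P n := hn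
    refine (lt_succ (g j n)).trans_le ?_
    exact Ordinal.le_iSup (fun j : P n => succ (g j n)) ⟨j, hj⟩

end BV
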