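import Pool.Agent.H26.BV.Card
import Pool.Agent.H26.BV.Coll
import Pool.Agent.H26.BV.Lam

/-!
# IDA: which check ordinals are infinite cardinals in the quotients
-/

set_option autoImplicit false

universe u

open Cardinal Order

namespace BV

variable {B : Type u} [CompleteBooleanAlgebra B]

/-- the forcing `P` has size at most `κ`, makes `ν` countable and collapses `κ` to `ν⁺` -/
structure Setup (κ ν : Cardinal.{u}) {P : Type u} [Preorder P] (e : P → B) : Prop where
  aleph0_le : ℵ₀ ≤ ν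
  lt : ν < κ
  emb : DenseEmb P B e
  card_le : #P ≤ κ
  inj1 : ∀ U : UF B, ∃ f, InjOn (MU.E U) f (fun x => MU.E U x (ck U ν.ord))
    (fun x => MU.E U x (ck U Ordinal.omega0))
  inj2 : ∀ U : UF B, ∃ f, InjOn (MU.E U) f (fun x => MU.E U x (ck U κ.ord))
    (fun x => MU.E U x (ck U (succ ν).ord))

variable {κ ν : Cardinal.{u}} {P : Type u} [Preorder P] {e : P → B}

/-- restriction of injections to smaller check ordinals -/
theorem ida_restrict (U : UF B) {α β : Ordinal.{u}} (h : α ≤ β) {f : MU U} {Y : MU U → Prop}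
    (hf : InjOn (MU.E U) f (fun x => MU.E U x (ck U β)) Y) :
    InjOn (MU.E U) f (fun x => MU.E U x (ck U α)) Y := by
  have hsub : ∀ x, MU.E U x (ck U α) → MU.E U x (ck U β) := by
    intro x hx
    exact ball_ck (f := fun z => bmem z (chk B β)) (P := fun U z => MU.E U z (ck U β))
      (fun U x => Iff.rfl) α (fun V γ hγ => (E_ck V β γ).2 (hγ.trans_le h)) U x hx
  refine ⟨fun x hx => hf.1 x (hsub x hx), fun x y y' hx => hf.2.1 x y y' (hsub x hx),
    fun x x' y hx hx' => hf.2.2 x x' y (hsub x hx) (hsub x' hx')⟩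

/-- cardinals above `κ` are preserved: `isOrd_ck`, `ball_ck`, `no_inj` -/
theorem infCard_ck (hS : Setup κ ν e) {c : Cardinal.{u}} (hc : κ < c) (U : UF B) :
    InfCard (MU.E U) (ck U c.ord) := by
  have hc0 : ℵ₀ ≤ c := hS.aleph0_le.trans (hS.lt.le.trans hc.le)
  have hlim : IsSuccLimit c.ord := isSuccLimit_ord hc0
  refine ⟨isOrd_ck U _, ⟨ck U 0, (E_ck U _ _).2 ?_⟩, ?_, ?_⟩
  · exact hlim.bot_lt
  · intro m hm
    refine ball_ck (f := fun x => ⨆ γ, bmem γ (chk B c.ord) ⊓ bmem x γ)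
      (P := fun U m => ∃ γ, MU.E U γ (ck U c.ord) ∧ MU.E U m γ) (fun U x => ?_) c.ord ?_ U m hm
    · refine card_iSup (P := fun U γ => MU.E U γ (ck U c.ord) ∧ MU.E U (MU.mk U x) γ)
        (fun U γ => ?_) U
      rw [UF.inf_mem_iff]
      exact Iff.rfl
    · intro V β hβ
      exact ⟨ck V (succ β), (E_ck V _ _).2 (hlim.succ_lt hβ), (E_ck V _ _).2 (lt_succ β)⟩
  · intro m hm
    refine ball_ck (f := fun x => ⨅ f, (bInjOn f (fun z => bmem z (chk B c.ord))
        (fun z => bmem z x))ᶜ)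
      (P := fun U m => ∀ f, ¬ InjOn (MU.E U) f (fun z => MU.E U z (ck U c.ord))
        (fun z => MU.E U z m)) (fun U x => ?_) c.ord ?_ U m hm
    · refine card_iInf (P := fun U f => ¬ InjOn (MU.E U) f (fun z => MU.E U z (ck U c.ord))
        (fun z => MU.E U z (MU.mk U x))) (fun U f => ?_) U
      rw [UF.compl_mem_iff]
      refine not_congr ?_
      exact los_injOn (X' := fun U z => MU.E U z (ck U c.ord))
        (Y' := fun U z => MU.E U z (MU.mk U x)) (fun U z => Iff.rfl) (fun U z => Iff.rfl) U f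
    · intro V β hβ f
      refine no_inj hS.emb ?_ V f
      rw [card_ord]
      exact mul_lt_of_lt hc0 (hS.card_le.trans_lt hc) (lt_ord.1 hβ)

/-- a check ordinal which is an infinite cardinal is not a successor -/
theorem ida_not_succ {U : UF B} {δ : Ordinal.{u}}
    (h : InfCard (MU.E U) (ck U (succ δ))) : False := by
  obtain ⟨γ, hγ, hδγ⟩ := h.2.2.1 (ck U δ) ((E_ck U _ _).2 (lt_succ δ))
  refine ball_ck (f := fun x => (bmem (chk B δ) x)ᶜ) (P := fun U m => ¬ MU.E U (ck U δ) m)
    (fun U x => ?_) (succ δ) ?_ U γ hγ hδγ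
  · rw [UF.compl_mem_iff]
    exact Iff.rfl
  · intro V β hβ
    rw [E_ck]
    exact not_lt.2 (lt_succ_iff.1 hβ)

theorem ida_ne_zero {U : UF B} {β : Ordinal.{u}} (h : InfCard (MU.E U) (ck U β)) : β ≠ 0 := by
  rintro rfl
  obtain ⟨m, hm⟩ := h.2.1
  refine ball_ck (f := fun _ => ⊥) (P := fun U m => False) (fun U x => ?_) (0 : Ordinal.{u}) ?_ U m hm
  · exact iff_of_false U.bot_notMem (fun h => h)
  · intro V β hβ
    exact absurd hβ not_lt_zero

/-- a check ordinal which is an infinite cardinal in a quotient is an infinite initial ordinal -/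
theorem ida_initial {U : UF B} {β : Ordinal.{u}} (h : InfCard (MU.E U) (ck U β)) :
    ℵ₀ ≤ β.card ∧ β.card.ord = β := by
  have h1 : β.card.ord = β := by
    by_contra hne
    have hlt : β.card.ord < β := lt_of_le_of_ne (Cardinal.ord_card_le β) hne
    obtain ⟨f, hf⟩ := injOn_of_card_le (α := β) (β := β.card.ord) (by rw [card_ord]) U
    exact h.2.2.2 _ ((E_ck U _ _).2 hlt) f hf
  refine ⟨?_, h1⟩
  by_contra hfin
  rw [not_le, lt_aleph0] at hfin
  obtain ⟨n, hn⟩ := hfin
  rw [hn, ord_natCast] at h1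
  subst h1
  cases n with
  | zero => exact ida_ne_zero h (by simp)
  | succ n =>
    have h2 : ((n + 1 : ℕ) : Ordinal.{u}) = succ (n : Ordinal.{u}) := by
      rw [Order.succ_eq_add_one]
      push_cast
      rfl
    rw [h2] at h
    exact ida_not_succ h

/-- the only possible infinite cardinals below `κ^{+ω}` are `ω`, `ν⁺`, `κ^{+(n+1)}`.
Finite `β`: not a limit ordinal.  `β` infinite and not initial: `injOn_of_card_le` from `β` to
`β.card.ord < β`.  `β = c.ord`, `ω < c.ord ≤ ν.ord`: restrict `inj1`.  `succ ν < c ≤ κ`: restrict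
`inj2`.  `κ < c`: `exists_eq_lam`. -/
theorem infCard_cases (hS : Setup κ ν e) {β : Ordinal.{u}} (hβ : β < (lamw κ).ord) (U : UF B)
    (h : InfCard (MU.E U) (ck U β)) :
    β = Ordinal.omega0 ∨ β = (succ ν).ord ∨ ∃ n, β = (lam κ (n + 1)).ord := by
  obtain ⟨h1, h2⟩ := ida_initial h
  generalize hc : β.card = c at h1 h2
  subst h2
  rcases h1.eq_or_lt with h3 | h3
  · left
    rw [← h3, ord_aleph0]
  · rcases le_or_gt c ν with h4 | h4
    · exfalso
      obtain ⟨f, hf⟩ := hS.inj1 U
      refine h.2.2.2 (ck U Ordinal.omega0) ((E_ck U _ _).2 ?_) f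
        (ida_restrict U (ord_le_ord.2 h4) hf)
      rw [← ord_aleph0]
      exact ord_lt_ord.2 h3
    · right
      rcases (succ_le_of_lt h4).eq_or_lt with h5 | h5
      · left
        rw [h5]
      · right
        rcases le_or_gt c κ with h6 | h6
        · exfalso
          obtain ⟨f, hf⟩ := hS.inj2 U
          exact h.2.2.2 (ck U (succ ν).ord) ((E_ck U _ _).2 (ord_lt_ord.2 h5)) f
            (ida_restrict U (ord_le_ord.2 h6) hf)
        · obtain ⟨n, hn⟩ := exists_eq_lam h6.le (ord_lt_ord.1 hβ)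
          cases n with
          | zero => exact absurd hn (ne_of_gt h6)
          | succ n => exact ⟨n, by rw [hn]⟩

theorem not_infCard_between (hκ : ℵ₀ ≤ κ) {β : Ordinal.{u}} (h1 : (lamw κ).ord < β)
    (h2 : β < (Lam κ).ord) (U : UF B) : ¬ InfCard (MU.E U) (ck U β) := by
  intro h
  have h3 : β.card ≤ lamw κ := lt_succ_iff.1 (lt_ord.1 h2)
  obtain ⟨f, hf⟩ := injOn_of_card_le (α := β) (β := (lamw κ).ord) (by rwa [card_ord]) U
  exact h.2.2.2 _ ((E_ck U _ _).2 h1) f hf

end BV
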