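import Pool.Agent.H26.BV.Sim
import Pool.Agent.H26.BV.Card

/-!
# LOSD: Boolean values of the notions of `Sim.lean`
Use `card_iInf`, `card_iSup` of `Card.lean` (the rules of Los for all `U` at once).
-/

set_option autoImplicit false

universe u

namespace BV

variable {B : Type u} [CompleteBooleanAlgebra B]

noncomputable def bDle (g R x y : BSet B) : B :=
  ⨆ u, ⨆ v, bmem (opr x u) g ⊓ (bmem (opr y v) g ⊓ bmem (opr u v) R)

theorem los_dle (U : UF B) (g R x y : BSet B) :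
    bDle g R x y ∈ U ↔ Dle (MU.E U) (MU.mk U g) (MU.mk U R) (MU.mk U x) (MU.mk U y) := by
  unfold bDle Dle
  refine card_iSup (P := fun U u => ∃ v, App (MU.E U) (MU.mk U g) (MU.mk U x) u ∧
    App (MU.E U) (MU.mk U g) (MU.mk U y) v ∧ App (MU.E U) (MU.mk U R) u v) (fun U u => ?_) U
  refine card_iSup (P := fun U v => App (MU.E U) (MU.mk U g) (MU.mk U x) (MU.mk U u) ∧
    App (MU.E U) (MU.mk U g) (MU.mk U y) v ∧ App (MU.E U) (MU.mk U R) (MU.mk U u) v)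
    (fun U v => ?_) U
  rw [UF.inf_mem_iff, UF.inf_mem_iff, los_app, los_app, los_app]

noncomputable def bDJ (κ' g R x y s : BSet B) : B :=
  bmem s κ' ⊓ (bDle g R x s ⊓ (bDle g R y s ⊓
    ⨅ t, bmem t κ' ⇨ bDle g R x t ⇨ bDle g R y t ⇨ bDle g R s t))

theorem los_dj (U : UF B) (κ' g R x y s : BSet B) :
    bDJ κ' g R x y s ∈ U ↔ DJ (MU.E U) (MU.mk U κ') (MU.mk U g) (MU.mk U R) (MU.mk U x)
      (MU.mk U y) (MU.mk U s) := by
  unfold bDJ DJ
  rw [UF.inf_mem_iff, UF.inf_mem_iff, UF.inf_mem_iff, los_dle, los_dle]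
  refine and_congr Iff.rfl (and_congr Iff.rfl (and_congr Iff.rfl ?_))
  refine card_iInf (P := fun U t => MU.E U t (MU.mk U κ') →
    Dle (MU.E U) (MU.mk U g) (MU.mk U R) (MU.mk U x) t →
    Dle (MU.E U) (MU.mk U g) (MU.mk U R) (MU.mk U y) t →
    Dle (MU.E U) (MU.mk U g) (MU.mk U R) (MU.mk U s) t) (fun U t => ?_) U
  rw [UF.himp_mem_iff, UF.himp_mem_iff, UF.himp_mem_iff, los_dle, los_dle, los_dle]
  exact Iff.rfl

/-- Boolean value of `SmallerThan` -/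
noncomputable def bSmall (κ : BSet B) (X : BSet B → B) : B :=
  ⨆ β, bmem β κ ⊓ ⨆ f, bInjOn f X (fun y => bmem y β)

theorem los_small {X : BSet B → B} {X' : ∀ U : UF B, MU U → Prop}
    (hX : ∀ (U : UF B) (x : BSet B), X x ∈ U ↔ X' U (MU.mk U x)) (U : UF B) (κ : BSet B) :
    bSmall κ X ∈ U ↔ SmallerThan (MU.E U) (MU.mk U κ) (X' U) := by
  unfold bSmall SmallerThan
  refine card_iSup (P := fun U β => MU.E U β (MU.mk U κ) ∧
    ∃ f, InjOn (MU.E U) f (X' U) (fun y => MU.E U y β)) (fun U β => ?_) U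
  rw [UF.inf_mem_iff]
  refine and_congr Iff.rfl ?_
  refine card_iSup (P := fun U f => InjOn (MU.E U) f (X' U) (fun y => MU.E U y (MU.mk U β)))
    (fun U f => ?_) U
  exact los_injOn hX (Y' := fun U y => MU.E U y (MU.mk U β)) (fun U x => Iff.rfl) U f

noncomputable def bDsim (κ κ' L g R : BSet B) : B :=
  bInjOn g (fun x => bmem x κ') (fun y => bmem y L) ⊓
  ((⨅ x, bmem x κ' ⇨ bDle g R x x) ⊓
  ((⨅ x, ⨅ y, ⨅ z, bmem x κ' ⇨ bmem y κ' ⇨ bmem z κ' ⇨ bDle g R x y ⇨ bDle g R y z ⇨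
    bDle g R x z) ⊓
  ((⨅ x, ⨅ y, bmem x κ' ⇨ bmem y κ' ⇨ bDle g R x y ⇨ bDle g R y x ⇨ beq x y) ⊓
  ((⨅ x, ⨅ y, bmem x κ' ⇨ bmem y κ' ⇨ ⨆ s, bDJ κ' g R x y s) ⊓
  ((⨅ x, ⨅ y, ⨅ z, ⨅ s1, ⨅ s2, ⨅ s3, bmem x κ' ⇨ bmem y κ' ⇨ bmem z κ' ⇨
    bDJ κ' g R x y s1 ⇨ bDJ κ' g R y z s2 ⇨ bDJ κ' g R x z s3 ⇨
    (bDle g R z s1 ⊔ (bDle g R x s2 ⊔ bDle g R y s3))) ⊓
  (⨅ x, bmem x κ' ⇨ ⨆ a, bmem (opr x a) g ⊓
    bSmall κ (fun z => bmem z L ⊓ bmem (opr z a) R)))))))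

theorem los_dsim (U : UF B) (κ κ' L g R : BSet B) :
    bDsim κ κ' L g R ∈ U ↔ Dsim (MU.E U) (MU.mk U κ) (MU.mk U κ') (MU.mk U L) (MU.mk U g)
      (MU.mk U R) := by
  have h : bDsim κ κ' L g R ∈ U ↔
      InjOn (MU.E U) (MU.mk U g) (fun x => MU.E U x (MU.mk U κ'))
        (fun y => MU.E U y (MU.mk U L)) ∧
      (∀ x, MU.E U x (MU.mk U κ') → Dle (MU.E U) (MU.mk U g) (MU.mk U R) x x) ∧
      (∀ x y z, MU.E U x (MU.mk U κ') → MU.E U y (MU.mk U κ') → MU.E U z (MU.mk U κ') →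
        Dle (MU.E U) (MU.mk U g) (MU.mk U R) x y → Dle (MU.E U) (MU.mk U g) (MU.mk U R) y z →
        Dle (MU.E U) (MU.mk U g) (MU.mk U R) x z) ∧
      (∀ x y, MU.E U x (MU.mk U κ') → MU.E U y (MU.mk U κ') →
        Dle (MU.E U) (MU.mk U g) (MU.mk U R) x y → Dle (MU.E U) (MU.mk U g) (MU.mk U R) y x →
        x = y) ∧
      (∀ x y, MU.E U x (MU.mk U κ') → MU.E U y (MU.mk U κ') →
        ∃ s, DJ (MU.E U) (MU.mk U κ') (MU.mk U g) (MU.mk U R) x y s) ∧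
      (∀ x y z s1 s2 s3, MU.E U x (MU.mk U κ') → MU.E U y (MU.mk U κ') →
        MU.E U z (MU.mk U κ') →
        DJ (MU.E U) (MU.mk U κ') (MU.mk U g) (MU.mk U R) x y s1 →
        DJ (MU.E U) (MU.mk U κ') (MU.mk U g) (MU.mk U R) y z s2 →
        DJ (MU.E U) (MU.mk U κ') (MU.mk U g) (MU.mk U R) x z s3 →
        Dle (MU.E U) (MU.mk U g) (MU.mk U R) z s1 ∨ Dle (MU.E U) (MU.mk U g) (MU.mk U R) x s2 ∨
          Dle (MU.E U) (MU.mk U g) (MU.mk U R) y s3) ∧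
      (∀ x, MU.E U x (MU.mk U κ') → ∃ a, App (MU.E U) (MU.mk U g) x a ∧
        SmallerThan (MU.E U) (MU.mk U κ)
          (fun z => MU.E U z (MU.mk U L) ∧ App (MU.E U) (MU.mk U R) z a)) := by
    unfold bDsim
    rw [UF.inf_mem_iff, UF.inf_mem_iff, UF.inf_mem_iff, UF.inf_mem_iff, UF.inf_mem_iff,
      UF.inf_mem_iff]
    refine and_congr ?_ (and_congr ?_ (and_congr ?_ (and_congr ?_ (and_congr ?_
      (and_congr ?_ ?_)))))
    · exact los_injOn (X' := fun U x => MU.E U x (MU.mk U κ'))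
        (Y' := fun U y => MU.E U y (MU.mk U L)) (fun U x => Iff.rfl) (fun U x => Iff.rfl) U g
    · refine card_iInf (P := fun U x => MU.E U x (MU.mk U κ') →
        Dle (MU.E U) (MU.mk U g) (MU.mk U R) x x) (fun U x => ?_) U
      rw [UF.himp_mem_iff, los_dle]
      exact Iff.rfl
    · refine card_iInf (P := fun U x => ∀ y z, MU.E U x (MU.mk U κ') →
        MU.E U y (MU.mk U κ') → MU.E U z (MU.mk U κ') →
        Dle (MU.E U) (MU.mk U g) (MU.mk U R) x y → Dle (MU.E U) (MU.mk U g) (MU.mk U R) y z →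
        Dle (MU.E U) (MU.mk U g) (MU.mk U R) x z) (fun U x => ?_) U
      refine card_iInf (P := fun U y => ∀ z, MU.E U (MU.mk U x) (MU.mk U κ') →
        MU.E U y (MU.mk U κ') → MU.E U z (MU.mk U κ') →
        Dle (MU.E U) (MU.mk U g) (MU.mk U R) (MU.mk U x) y →
        Dle (MU.E U) (MU.mk U g) (MU.mk U R) y z →
        Dle (MU.E U) (MU.mk U g) (MU.mk U R) (MU.mk U x) z) (fun U y => ?_) U
      refine card_iInf (P := fun U z => MU.E U (MU.mk U x) (MU.mk U κ') →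
        MU.E U (MU.mk U y) (MU.mk U κ') → MU.E U z (MU.mk U κ') →
        Dle (MU.E U) (MU.mk U g) (MU.mk U R) (MU.mk U x) (MU.mk U y) →
        Dle (MU.E U) (MU.mk U g) (MU.mk U R) (MU.mk U y) z →
        Dle (MU.E U) (MU.mk U g) (MU.mk U R) (MU.mk U x) z) (fun U z => ?_) U
      rw [UF.himp_mem_iff, UF.himp_mem_iff, UF.himp_mem_iff, UF.himp_mem_iff, UF.himp_mem_iff,
        los_dle, los_dle, los_dle]
      exact Iff.rfl
    · refine card_iInf (P := fun U x => ∀ y, MU.E U x (MU.mk U κ') →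
        MU.E U y (MU.mk U κ') →
        Dle (MU.E U) (MU.mk U g) (MU.mk U R) x y → Dle (MU.E U) (MU.mk U g) (MU.mk U R) y x →
        x = y) (fun U x => ?_) U
      refine card_iInf (P := fun U y => MU.E U (MU.mk U x) (MU.mk U κ') →
        MU.E U y (MU.mk U κ') →
        Dle (MU.E U) (MU.mk U g) (MU.mk U R) (MU.mk U x) y →
        Dle (MU.E U) (MU.mk U g) (MU.mk U R) y (MU.mk U x) → MU.mk U x = y) (fun U y => ?_) U
      rw [UF.himp_mem_iff, UF.himp_mem_iff, UF.himp_mem_iff, UF.himp_mem_iff,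
        los_dle, los_dle, MU.mk_eq_iff]
      exact Iff.rfl
    · refine card_iInf (P := fun U x => ∀ y, MU.E U x (MU.mk U κ') →
        MU.E U y (MU.mk U κ') →
        ∃ s, DJ (MU.E U) (MU.mk U κ') (MU.mk U g) (MU.mk U R) x y s) (fun U x => ?_) U
      refine card_iInf (P := fun U y => MU.E U (MU.mk U x) (MU.mk U κ') →
        MU.E U y (MU.mk U κ') →
        ∃ s, DJ (MU.E U) (MU.mk U κ') (MU.mk U g) (MU.mk U R) (MU.mk U x) y s)
        (fun U y => ?_) U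
      rw [UF.himp_mem_iff, UF.himp_mem_iff]
      refine imp_congr Iff.rfl (imp_congr Iff.rfl ?_)
      exact card_iSup (P := fun U s => DJ (MU.E U) (MU.mk U κ') (MU.mk U g) (MU.mk U R)
        (MU.mk U x) (MU.mk U y) s) (fun U s => los_dj U κ' g R x y s) U
    · refine card_iInf (P := fun U x => ∀ y z s1 s2 s3, MU.E U x (MU.mk U κ') →
        MU.E U y (MU.mk U κ') → MU.E U z (MU.mk U κ') →
        DJ (MU.E U) (MU.mk U κ') (MU.mk U g) (MU.mk U R) x y s1 →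
        DJ (MU.E U) (MU.mk U κ') (MU.mk U g) (MU.mk U R) y z s2 →
        DJ (MU.E U) (MU.mk U κ') (MU.mk U g) (MU.mk U R) x z s3 →
        Dle (MU.E U) (MU.mk U g) (MU.mk U R) z s1 ∨ Dle (MU.E U) (MU.mk U g) (MU.mk U R) x s2 ∨
          Dle (MU.E U) (MU.mk U g) (MU.mk U R) y s3) (fun U x => ?_) U
      refine card_iInf (P := fun U y => ∀ z s1 s2 s3, MU.E U (MU.mk U x) (MU.mk U κ') →
        MU.E U y (MU.mk U κ') → MU.E U z (MU.mk U κ') →
        DJ (MU.E U) (MU.mk U κ') (MU.mk U g) (MU.mk U R) (MU.mk U x) y s1 →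
        DJ (MU.E U) (MU.mk U κ') (MU.mk U g) (MU.mk U R) y z s2 →
        DJ (MU.E U) (MU.mk U κ') (MU.mk U g) (MU.mk U R) (MU.mk U x) z s3 →
        Dle (MU.E U) (MU.mk U g) (MU.mk U R) z s1 ∨
          Dle (MU.E U) (MU.mk U g) (MU.mk U R) (MU.mk U x) s2 ∨
          Dle (MU.E U) (MU.mk U g) (MU.mk U R) y s3) (fun U y => ?_) U
      refine card_iInf (P := fun U z => ∀ s1 s2 s3, MU.E U (MU.mk U x) (MU.mk U κ') →
        MU.E U (MU.mk U y) (MU.mk U κ') → MU.E U z (MU.mk U κ') →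
        DJ (MU.E U) (MU.mk U κ') (MU.mk U g) (MU.mk U R) (MU.mk U x) (MU.mk U y) s1 →
        DJ (MU.E U) (MU.mk U κ') (MU.mk U g) (MU.mk U R) (MU.mk U y) z s2 →
        DJ (MU.E U) (MU.mk U κ') (MU.mk U g) (MU.mk U R) (MU.mk U x) z s3 →
        Dle (MU.E U) (MU.mk U g) (MU.mk U R) z s1 ∨
          Dle (MU.E U) (MU.mk U g) (MU.mk U R) (MU.mk U x) s2 ∨
          Dle (MU.E U) (MU.mk U g) (MU.mk U R) (MU.mk U y) s3) (fun U z => ?_) U
      refine card_iInf (P := fun U s1 => ∀ s2 s3, MU.E U (MU.mk U x) (MU.mk U κ') →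
        MU.E U (MU.mk U y) (MU.mk U κ') → MU.E U (MU.mk U z) (MU.mk U κ') →
        DJ (MU.E U) (MU.mk U κ') (MU.mk U g) (MU.mk U R) (MU.mk U x) (MU.mk U y) s1 →
        DJ (MU.E U) (MU.mk U κ') (MU.mk U g) (MU.mk U R) (MU.mk U y) (MU.mk U z) s2 →
        DJ (MU.E U) (MU.mk U κ') (MU.mk U g) (MU.mk U R) (MU.mk U x) (MU.mk U z) s3 →
        Dle (MU.E U) (MU.mk U g) (MU.mk U R) (MU.mk U z) s1 ∨
          Dle (MU.E U) (MU.mk U g) (MU.mk U R) (MU.mk U x) s2 ∨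
          Dle (MU.E U) (MU.mk U g) (MU.mk U R) (MU.mk U y) s3) (fun U s1 => ?_) U
      refine card_iInf (P := fun U s2 => ∀ s3, MU.E U (MU.mk U x) (MU.mk U κ') →
        MU.E U (MU.mk U y) (MU.mk U κ') → MU.E U (MU.mk U z) (MU.mk U κ') →
        DJ (MU.E U) (MU.mk U κ') (MU.mk U g) (MU.mk U R) (MU.mk U x) (MU.mk U y)
          (MU.mk U s1) →
        DJ (MU.E U) (MU.mk U κ') (MU.mk U g) (MU.mk U R) (MU.mk U y) (MU.mk U z) s2 →
        DJ (MU.E U) (MU.mk U κ') (MU.mk U g) (MU.mk U R) (MU.mk U x) (MU.mk U z) s3 →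
        Dle (MU.E U) (MU.mk U g) (MU.mk U R) (MU.mk U z) (MU.mk U s1) ∨
          Dle (MU.E U) (MU.mk U g) (MU.mk U R) (MU.mk U x) s2 ∨
          Dle (MU.E U) (MU.mk U g) (MU.mk U R) (MU.mk U y) s3) (fun U s2 => ?_) U
      refine card_iInf (P := fun U s3 => MU.E U (MU.mk U x) (MU.mk U κ') →
        MU.E U (MU.mk U y) (MU.mk U κ') → MU.E U (MU.mk U z) (MU.mk U κ') →
        DJ (MU.E U) (MU.mk U κ') (MU.mk U g) (MU.mk U R) (MU.mk U x) (MU.mk U y)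
          (MU.mk U s1) →
        DJ (MU.E U) (MU.mk U κ') (MU.mk U g) (MU.mk U R) (MU.mk U y) (MU.mk U z)
          (MU.mk U s2) →
        DJ (MU.E U) (MU.mk U κ') (MU.mk U g) (MU.mk U R) (MU.mk U x) (MU.mk U z) s3 →
        Dle (MU.E U) (MU.mk U g) (MU.mk U R) (MU.mk U z) (MU.mk U s1) ∨
          Dle (MU.E U) (MU.mk U g) (MU.mk U R) (MU.mk U x) (MU.mk U s2) ∨
          Dle (MU.E U) (MU.mk U g) (MU.mk U R) (MU.mk U y) s3) (fun U s3 => ?_) U
      rw [UF.himp_mem_iff, UF.himp_mem_iff, UF.himp_mem_iff, UF.himp_mem_iff, UF.himp_mem_iff,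
        UF.himp_mem_iff, UF.sup_mem_iff, UF.sup_mem_iff, los_dj, los_dj, los_dj, los_dle,
        los_dle, los_dle]
      exact Iff.rfl
    · refine card_iInf (P := fun U x => MU.E U x (MU.mk U κ') →
        ∃ a, App (MU.E U) (MU.mk U g) x a ∧
        SmallerThan (MU.E U) (MU.mk U κ)
          (fun z => MU.E U z (MU.mk U L) ∧ App (MU.E U) (MU.mk U R) z a)) (fun U x => ?_) U
      rw [UF.himp_mem_iff]
      refine imp_congr Iff.rfl ?_
      refine card_iSup (P := fun U a => App (MU.E U) (MU.mk U g) (MU.mk U x) a ∧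
        SmallerThan (MU.E U) (MU.mk U κ)
          (fun z => MU.E U z (MU.mk U L) ∧ App (MU.E U) (MU.mk U R) z a)) (fun U a => ?_) U
      rw [UF.inf_mem_iff, los_app]
      refine and_congr Iff.rfl ?_
      refine los_small (X' := fun U z => MU.E U z (MU.mk U L) ∧
        App (MU.E U) (MU.mk U R) z (MU.mk U a)) (fun U z => ?_) U κ
      rw [UF.inf_mem_iff, los_app]
      exact Iff.rfl
  rw [h]
  constructor
  · rintro ⟨h1, h2, h3, h4, h5, h6, h7⟩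
    exact ⟨h1, h2, h3, h4, h5, h6, h7⟩
  · rintro ⟨h1, h2, h3, h4, h5, h6, h7⟩
    exact ⟨h1, h2, h3, h4, h5, h6, h7⟩

end BV
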