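import Pool.Agent.H26.BV.Lam

/-!
# MEAS: normal measures on `P_κ(S)`
-/

set_option autoImplicit false

universe u

open Cardinal Order

namespace BV

variable {κ : Cardinal.{u}} {S : Type u} {V : Ultrafilter (Set S)}

theorem meas_normal (hV : IsNormalMeasure κ S V) (f : Set S → S) (h : ∀ᶠ x in (V : Filter (Set S)), f x ∈ x) :
    ∃ s, ∀ᶠ x in (V : Filter (Set S)), f x = s :=
  hV.normal f h

/-- diagonal intersections -/
theorem meas_diag (hV : IsNormalMeasure κ S V) (A : S → Set S → Prop)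
    (h : ∀ s, ∀ᶠ x in (V : Filter (Set S)), A s x) :
    ∀ᶠ x in (V : Filter (Set S)), ∀ s ∈ x, A s x := by
  by_contra hc
  rw [← Ultrafilter.eventually_not] at hc
  have hc' : ∀ᶠ x in (V : Filter (Set S)), ∃ s, s ∈ x ∧ ¬ A s x := by
    filter_upwards [hc] with x hx
    push Not at hx
    exact hx
  obtain ⟨x0, s0, _⟩ := hc'.exists
  have hne : Nonempty S := ⟨s0⟩
  let f : Set S → S := fun x => Classical.epsilon fun s => s ∈ x ∧ ¬ A s x
  have hf : ∀ᶠ x in (V : Filter (Set S)), f x ∈ x ∧ ¬ A (f x) x := by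
    filter_upwards [hc'] with x hx
    exact Classical.epsilon_spec hx
  obtain ⟨s, hs⟩ := meas_normal hV f (hf.mono fun x hx => hx.1)
  obtain ⟨x, ⟨h1, h2⟩, h3⟩ := ((hf.and hs).and (h s)).exists
  rw [h2] at h1
  exact h1.2 h3

/-- almost all `x` are closed under `G` -/
theorem meas_closed (hV : IsNormalMeasure κ S V) (G : S → S) :
    ∀ᶠ x in (V : Filter (Set S)), ∀ s ∈ x, G s ∈ x :=
  meas_diag hV (fun s x => G s ∈ x) fun s => hV.fine (G s)

theorem meas_closed₂ (hV : IsNormalMeasure κ S V) (G : S → S → S) :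
    ∀ᶠ x in (V : Filter (Set S)), ∀ s ∈ x, ∀ t ∈ x, G s t ∈ x :=
  meas_diag hV (fun s x => ∀ t ∈ x, G s t ∈ x) fun s => meas_closed hV (G s)

/-- completeness, for `κ` uncountable -/
theorem meas_countable (hκ : ℵ₀ < κ) (hV : IsNormalMeasure κ S V) (A : ℕ → Set S → Prop)
    (h : ∀ n, ∀ᶠ x in (V : Filter (Set S)), A n x) : ∀ᶠ x in (V : Filter (Set S)), ∀ n, A n x := by
  have h1 := hV.complete (ULift.{u} ℕ) (fun n => {x | A n.down x}) (by simpa using hκ)
    fun n => h n.down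
  refine Filter.mem_of_superset h1 fun x hx n => ?_
  exact Set.mem_iInter.1 hx (ULift.up n)

theorem meas_const_nat (hκ : ℵ₀ < κ) (hV : IsNormalMeasure κ S V) (g : Set S → ℕ) :
    ∃ k, ∀ᶠ x in (V : Filter (Set S)), g x = k := by
  by_contra hc
  have h1 : ∀ k, ∀ᶠ x in (V : Filter (Set S)), g x ≠ k := fun k =>
    Ultrafilter.eventually_not.2 fun h => hc ⟨k, h⟩
  obtain ⟨x, hx⟩ := (meas_countable hκ hV (fun k x => g x ≠ k) h1).exists
  exact hx (g x) rfl

end BV
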