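import Pool.Agent.H26.BV.Alg

/-!
# MIX: mixing lemma and maximum principle

* `exists_mix`: `y = mk (Σ i, (x i).Idx) (fun p => (x p.1).nm p.2) (fun p => b p.1 ⊓ (x p.1).vl p.2)`.
* `exists_max`: the set of values `{f y}` is a subset of `B : Type u`; choose a name `y c` for each
  value `c`; well-order the values, `b c = c ⊓ (⨆ c' < c, c')ᶜ` is an antichain with the same
  supremum; mix the `y c` along `b`, then `b c ≤ beq x (y c) ⊓ f (y c) ≤ f x`.
* `exists_min`: apply it to `(f x)ᶜ`.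
-/

set_option autoImplicit false

universe u

namespace BV

variable {B : Type u} [CompleteBooleanAlgebra B]

/-- least element principle: disjointification along a well-order -/
theorem iSup_first {ι : Type*} [LinearOrder ι] [WellFoundedLT ι] (b : ι → B) :
    (⨆ i, b i ⊓ (⨆ j : Set.Iio i, b j)ᶜ) = ⨆ i, b i := by
  apply le_antisymm
  · exact iSup_mono fun i => inf_le_left
  · refine iSup_le fun i => ?_
    induction i using WellFoundedLT.induction with
    | ind i ih =>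
      have h1 : (⨆ j : Set.Iio i, b j) ≤ ⨆ i, b i ⊓ (⨆ j : Set.Iio i, b j)ᶜ :=
        iSup_le fun j => ih j.1 j.2
      have h2 : b i ⊓ (⨆ j : Set.Iio i, b j)ᶜ ≤ ⨆ i, b i ⊓ (⨆ j : Set.Iio i, b j)ᶜ :=
        le_iSup (fun i => b i ⊓ (⨆ j : Set.Iio i, b j)ᶜ) i
      calc b i = b i ⊓ (⨆ j : Set.Iio i, b j) ⊔ b i ⊓ (⨆ j : Set.Iio i, b j)ᶜ := by
            rw [← inf_sup_left, sup_compl_eq_top, inf_top_eq]
        _ ≤ _ := sup_le (inf_le_right.trans h1) h2

theorem exists_mix {ι : Type u} (b : ι → B) (hb : ∀ i j, i ≠ j → b i ⊓ b j = ⊥)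
    (x : ι → BSet B) : ∃ y, ∀ i, b i ≤ beq y (x i) := by
  refine ⟨BSet.mk (Σ i, (x i).Idx) (fun p => (x p.1).nm p.2)
    (fun p => b p.1 ⊓ (x p.1).vl p.2), fun i => ?_⟩
  rw [beq_eq]
  refine le_inf (le_iInf fun p => ?_) (le_iInf fun j => ?_)
  · rw [le_himp_iff]
    change b i ⊓ (b p.1 ⊓ (x p.1).vl p.2) ≤ bmem ((x p.1).nm p.2) (x i)
    by_cases h : p.1 = i
    · obtain ⟨i', j⟩ := p
      simp only at h
      subst h
      exact (inf_le_right.trans inf_le_right).trans (vl_le_bmem _ _)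
    · rw [← inf_assoc, hb i p.1 (fun h' => h h'.symm), bot_inf_eq]
      exact bot_le
  · rw [le_himp_iff]
    exact vl_le_bmem (BSet.mk (Σ i, (x i).Idx) (fun p => (x p.1).nm p.2)
      (fun p => b p.1 ⊓ (x p.1).vl p.2)) ⟨i, j⟩

theorem exists_max_aux {ι : Type u} [LinearOrder ι] [WellFoundedLT ι] {f : BSet B → B}
    (hf : Ext f) (c : ι → B) (y : ι → BSet B) (hy : ∀ i, f (y i) = c i)
    (hc : (⨆ y, f y) ≤ ⨆ i, c i) : ∃ x, f x = ⨆ y, f y := by
  set b : ι → B := fun i => c i ⊓ (⨆ j : Set.Iio i, c j)ᶜ with hb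
  have hlt : ∀ i j : ι, i < j → b i ⊓ b j = ⊥ := by
    intro i j hij
    have h1 : c i ≤ ⨆ k : Set.Iio j, c k := le_iSup (fun k : Set.Iio j => c k) ⟨i, hij⟩
    rw [eq_bot_iff]
    calc b i ⊓ b j ≤ (⨆ k : Set.Iio j, c k) ⊓ (⨆ k : Set.Iio j, c k)ᶜ :=
          inf_le_inf (inf_le_left.trans h1) inf_le_right
      _ = ⊥ := inf_compl_eq_bot
  obtain ⟨z, hz⟩ := exists_mix b (fun i j hij => by
    rcases lt_or_gt_of_ne hij with h | h
    · exact hlt i j h
    · rw [inf_comm]; exact hlt j i h) y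
  refine ⟨z, le_antisymm (le_iSup f z) ?_⟩
  have h1 : (⨆ i, b i) = ⨆ i, c i := iSup_first c
  refine hc.trans (h1 ▸ iSup_le fun i => ?_)
  calc b i ≤ beq (y i) z ⊓ f (y i) := by
        refine le_inf ?_ ?_
        · rw [beq_symm]; exact hz i
        · rw [hy i]; exact inf_le_left
    _ ≤ f z := hf _ _

theorem exists_max {f : BSet B → B} (hf : Ext f) : ∃ x, f x = ⨆ y, f y := by
  obtain ⟨hl, hw⟩ := exists_wellFoundedLT (Set.range f)
  choose y hy using fun c : Set.range f => c.2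
  exact @exists_max_aux B _ (Set.range f) hl hw f hf (fun c => (c : B)) y hy
    (iSup_le fun y => le_iSup (fun c : Set.range f => (c : B)) ⟨f y, ⟨y, rfl⟩⟩)

theorem exists_min {f : BSet B → B} (hf : Ext f) : ∃ x, f x = ⨅ y, f y := by
  obtain ⟨x, hx⟩ := exists_max (ext_compl hf)
  refine ⟨x, ?_⟩
  rw [← compl_iInf] at hx
  exact compl_injective hx

end BV
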