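import Pool.Agent.H26.BV.Pairs
import Pool.Agent.H26.BV.Zfc

/-!
# ORD: ordinals in the quotients
-/

set_option autoImplicit false

universe u v

namespace BV

section General

variable {M : Type v} {E : M → M → Prop}

theorem mem_irrefl (h : IsZFC E) (x : M) : ¬ E x x := by
  intro hx
  obtain ⟨p, hp⟩ := h.pairing x x
  obtain ⟨y, hy, hmin⟩ := h.foundation p ⟨x, (hp x).2 (Or.inl rfl)⟩
  have hyx : y = x := by
    rcases (hp y).1 hy with h1 | h1 <;> exact h1
  subst hyx
  exact hmin y hx hy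

theorem mem_asymm (h : IsZFC E) {x y : M} (hxy : E x y) : ¬ E y x := by
  intro hyx
  obtain ⟨p, hp⟩ := h.pairing x y
  obtain ⟨m, hm, hmin⟩ := h.foundation p ⟨x, (hp x).2 (Or.inl rfl)⟩
  rcases (hp m).1 hm with h1 | h1
  · subst h1
    exact hmin y hyx ((hp y).2 (Or.inr rfl))
  · subst h1
    exact hmin x hxy ((hp x).2 (Or.inl rfl))

theorem isOrd_of_mem {x y : M} (hx : IsOrd E x) (hy : E y x) : IsOrd E y :=
  ⟨hx.2 y hy, fun z hz => hx.2 z (hx.1 y hy z hz)⟩

end General

variable {B : Type u} [CompleteBooleanAlgebra B]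

/-- Boolean value of `IsTrans` -/
noncomputable def bTrans (x : BSet B) : B := ⨅ y, bmem y x ⇨ ⨅ z, bmem z y ⇨ bmem z x

/-- Boolean value of `IsOrd` -/
noncomputable def bOrd (x : BSet B) : B := bTrans x ⊓ ⨅ y, bmem y x ⇨ bTrans y

theorem ord_los_sub (U : UF B) (x y : BSet B) :
    (⨅ z, bmem z y ⇨ bmem z x) ∈ U ↔
      ∀ z, MU.E U z (MU.mk U y) → MU.E U z (MU.mk U x) := by
  refine los_iInf (ext_himp (ext_mem_left y) (ext_mem_left x)) U
    (P := fun z => MU.E U z (MU.mk U y) → MU.E U z (MU.mk U x)) (fun z => ?_)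
  rw [UF.himp_mem_iff]
  exact Iff.rfl

theorem los_trans (U : UF B) (x : BSet B) : bTrans x ∈ U ↔ IsTrans (MU.E U) (MU.mk U x) := by
  unfold bTrans IsTrans
  refine los_iInf (ext_himp (ext_mem_left x)
    (ext_iInf fun z => ext_himp (ext_mem_right z) (ext_const (bmem z x)))) U
    (P := fun y => MU.E U y (MU.mk U x) → ∀ z, MU.E U z y → MU.E U z (MU.mk U x)) (fun y => ?_)
  rw [UF.himp_mem_iff, ord_los_sub U x y]
  exact Iff.rfl

theorem ord_ext_trans : Ext (bTrans (B := B)) :=
  ext_of_los (P := fun U m => IsTrans (MU.E U) m) los_trans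

theorem los_ord (U : UF B) (x : BSet B) : bOrd x ∈ U ↔ IsOrd (MU.E U) (MU.mk U x) := by
  unfold bOrd IsOrd
  rw [UF.inf_mem_iff, los_trans]
  refine and_congr Iff.rfl ?_
  refine los_iInf (ext_himp (ext_mem_left x) ord_ext_trans) U
    (P := fun y => MU.E U y (MU.mk U x) → IsTrans (MU.E U) y) (fun y => ?_)
  rw [UF.himp_mem_iff, los_trans]
  exact Iff.rfl

theorem ord_ext_ord : Ext (bOrd (B := B)) :=
  ext_of_los (P := fun U m => IsOrd (MU.E U) m) los_ord

theorem ord_isTrans_ck (U : UF B) (α : Ordinal.{u}) : IsTrans (MU.E U) (ck U α) := by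
  intro y hy
  refine ball_ck (f := fun y => ⨅ z, bmem z y ⇨ bmem z (chk B α))
    (P := fun U y => ∀ z, MU.E U z y → MU.E U z (ck U α)) (fun U x => ?_) α ?_ U y hy
  · exact ord_los_sub U (chk B α) x
  · intro V β hβ z hz
    refine ball_ck (f := fun z => bmem z (chk B α))
      (P := fun U z => MU.E U z (ck U α)) (fun U x => Iff.rfl) β ?_ V z hz
    intro W γ hγ
    exact (E_ck W α γ).2 (hγ.trans hβ)

theorem isOrd_ck (U : UF B) (α : Ordinal.{u}) : IsOrd (MU.E U) (ck U α) := by
  refine ⟨ord_isTrans_ck U α, fun y hy => ?_⟩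
  exact ball_ck (f := bTrans) (P := fun U y => IsTrans (MU.E U) y) los_trans α
    (fun V β _ => ord_isTrans_ck V β) U y hy

/-- Boolean value of comparability -/
noncomputable def ord_cmp (x y : BSet B) : B := (bmem x y ⊔ beq x y) ⊔ bmem y x

theorem ord_los_cmp (U : UF B) (x y : BSet B) : ord_cmp x y ∈ U ↔
    (MU.E U (MU.mk U x) (MU.mk U y) ∨ MU.mk U x = MU.mk U y ∨ MU.E U (MU.mk U y) (MU.mk U x)) := by
  unfold ord_cmp
  rw [UF.sup_mem_iff, UF.sup_mem_iff, ← MU.mk_eq_iff, or_assoc]
  exact Iff.rfl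

theorem ord_ext_cmp_right (x : BSet B) : Ext (fun y => bOrd y ⇨ ord_cmp x y) := by
  unfold ord_cmp
  exact ext_himp ord_ext_ord
    (ext_sup (ext_sup (ext_mem_right x) (ext_eq_right x)) (ext_mem_left x))

theorem ord_ext_cmp_left (y : BSet B) : Ext (fun x => bOrd y ⇨ ord_cmp x y) := by
  unfold ord_cmp
  exact ext_himp (ext_const _)
    (ext_sup (ext_sup (ext_mem_left y) (ext_eq_left y)) (ext_mem_right y))

/-- comparability of ordinals: double `MU.induction` -/
theorem MU.trichotomy (U : UF B) (x y : MU U) (hx : IsOrd (MU.E U) x) (hy : IsOrd (MU.E U) y) :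
    MU.E U x y ∨ x = y ∨ MU.E U y x := by
  -- outer predicate
  have houter : ∀ m : MU U, IsOrd (MU.E U) m →
      ∀ n, IsOrd (MU.E U) n → MU.E U m n ∨ m = n ∨ MU.E U n m := by
    intro m
    refine MU.induction U (f := fun x => bOrd x ⇨ ⨅ y, bOrd y ⇨ ord_cmp x y)
      (P := fun m => IsOrd (MU.E U) m →
        ∀ n, IsOrd (MU.E U) n → MU.E U m n ∨ m = n ∨ MU.E U n m) ?_ ?_ ?_ m
    · exact ext_himp ord_ext_ord (ext_iInf fun y => ord_ext_cmp_left y)
    · intro x
      rw [UF.himp_mem_iff, los_ord]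
      refine imp_congr Iff.rfl ?_
      refine los_iInf (ord_ext_cmp_right x) U
        (P := fun n => IsOrd (MU.E U) n →
          MU.E U (MU.mk U x) n ∨ MU.mk U x = n ∨ MU.E U n (MU.mk U x)) (fun y => ?_)
      rw [UF.himp_mem_iff, los_ord, ord_los_cmp]
    · intro m ihm hm n
      obtain ⟨x, rfl⟩ := MU.mk_surj U m
      -- inner induction
      refine MU.induction U (f := fun y => bOrd y ⇨ ord_cmp x y)
        (P := fun n => IsOrd (MU.E U) n →
          MU.E U (MU.mk U x) n ∨ MU.mk U x = n ∨ MU.E U n (MU.mk U x)) (ord_ext_cmp_right x)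
        ?_ ?_ n
      · intro y
        rw [UF.himp_mem_iff, los_ord, ord_los_cmp]
      · intro n ihn hn
        by_contra hcon
        rw [not_or, not_or] at hcon
        obtain ⟨h1, h2, h3⟩ := hcon
        apply h2
        apply MU.ext_E U
        intro z
        constructor
        · intro hz
          rcases ihm z hz (isOrd_of_mem hm hz) n hn with h4 | h4 | h4
          · exact h4
          · subst h4
            exact absurd hz h3
          · exact absurd (hm.1 z hz n h4) h3
        · intro hz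
          rcases ihn z hz (isOrd_of_mem hn hz) with h4 | h4 | h4
          · exact absurd (hn.1 z hz _ h4) h1
          · rw [← h4] at hz
            exact absurd hz h1
          · exact h4
  exact houter x hx y hy

end BV
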