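import Pool.Agent.H26.BV.AxA

/-!
# PAIRS: ordered pairs, in general structures and in the quotients
-/

set_option autoImplicit false

universe u v

namespace BV

section General

variable {M : Type v} {E : M → M → Prop}

theorem isPair_unique (hext : ∀ x y, (∀ z, E z x ↔ E z y) → x = y) {p q x y : M}
    (hp : IsPair E p x y) (hq : IsPair E q x y) : p = q :=
  hext p q fun z => (hp z).trans (hq z).symm

theorem isOPair_unique (hext : ∀ x y, (∀ z, E z x ↔ E z y) → x = y) {p q x y : M}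
    (hp : IsOPair E p x y) (hq : IsOPair E q x y) : p = q := by
  obtain ⟨a, b, ha, hb, hab⟩ := hp
  obtain ⟨a', b', ha', hb', hab'⟩ := hq
  obtain rfl := isPair_unique hext ha ha'
  obtain rfl := isPair_unique hext hb hb'
  exact isPair_unique hext hab hab'

theorem isOPair_inj {p x y x' y' : M} (hp : IsOPair E p x y) (hq : IsOPair E p x' y') :
    x = x' ∧ y = y' := by
  obtain ⟨a, b, ha, hb, hab⟩ := hp
  obtain ⟨a', b', ha', hb', hab'⟩ := hq
  -- elements of `a` are `x`, elements of `b` are `x, y`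
  have hxa : E x a := (ha x).2 (Or.inl rfl)
  have hxb : E x b := (hb x).2 (Or.inl rfl)
  have hyb : E y b := (hb y).2 (Or.inr rfl)
  have hxa' : E x' a' := (ha' x').2 (Or.inl rfl)
  have hxb' : E x' b' := (hb' x').2 (Or.inl rfl)
  have hyb' : E y' b' := (hb' y').2 (Or.inr rfl)
  have hx : x = x' := by
    have h1 : E a' p := (hab' a').2 (Or.inl rfl)
    rcases (hab a').1 h1 with h | h
    · rw [h] at hxa'
      rcases (ha x').1 hxa' with h2 | h2 <;> exact h2.symm
    · have h2 : E x a' := by rw [h]; exact hxb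
      rcases (ha' x).1 h2 with h3 | h3 <;> exact h3
  subst hx
  refine ⟨rfl, ?_⟩
  have hy1 : y' = x ∨ y' = y := by
    have h1 : E b' p := (hab' b').2 (Or.inr rfl)
    rcases (hab b').1 h1 with h | h
    · rw [h] at hyb'
      rcases (ha y').1 hyb' with h2 | h2 <;> exact Or.inl h2
    · rw [h] at hyb'
      exact (hb y').1 hyb'
  have hy2 : y = x ∨ y = y' := by
    have h1 : E b p := (hab b).2 (Or.inr rfl)
    rcases (hab' b).1 h1 with h | h
    · rw [h] at hyb
      rcases (ha' y).1 hyb with h2 | h2 <;> exact Or.inl h2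
    · rw [h] at hyb
      exact (hb' y).1 hyb
  rcases hy2 with h2 | h2
  · rcases hy1 with h1 | h1
    · rw [h1, h2]
    · exact h1.symm
  · exact h2

theorem exists_isOPair (hpair : ∀ x y, ∃ p, ∀ z, E z p ↔ z = x ∨ z = y) (x y : M) :
    ∃ p, IsOPair E p x y := by
  obtain ⟨a, ha⟩ := hpair x x
  obtain ⟨b, hb⟩ := hpair x y
  obtain ⟨p, hp⟩ := hpair a b
  exact ⟨p, a, b, ha, hb, hp⟩

end General

variable {B : Type u} [CompleteBooleanAlgebra B]

/-- name of the ordered pair -/
def opr (x y : BSet B) : BSet B := upr (upr x x) (upr x y)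

theorem MU.ext_E (U : UF B) (x y : MU U) (h : ∀ z, MU.E U z x ↔ MU.E U z y) : x = y := by
  obtain ⟨x, rfl⟩ := MU.mk_surj U x
  obtain ⟨y, rfl⟩ := MU.mk_surj U y
  rw [MU.mk_eq_iff, beq_ext, UF.inf_mem_iff]
  constructor
  · refine (los_iInf (ext_himp (ext_mem_left x) (ext_mem_left y)) U
      (P := fun n => MU.E U n (MU.mk U x) → MU.E U n (MU.mk U y)) (fun z => ?_)).2
      fun z => (h z).1
    rw [UF.himp_mem_iff]
    exact Iff.rfl
  · refine (los_iInf (ext_himp (ext_mem_left y) (ext_mem_left x)) U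
      (P := fun n => MU.E U n (MU.mk U y) → MU.E U n (MU.mk U x)) (fun z => ?_)).2
      fun z => (h z).2
    rw [UF.himp_mem_iff]
    exact Iff.rfl

theorem isPair_upr (U : UF B) (x y : BSet B) :
    IsPair (MU.E U) (MU.mk U (upr x y)) (MU.mk U x) (MU.mk U y) := by
  intro z
  obtain ⟨z, rfl⟩ := MU.mk_surj U z
  rw [MU.E_mk, bmem_upr, UF.sup_mem_iff, MU.mk_eq_iff, MU.mk_eq_iff]

theorem isOPair_opr (U : UF B) (x y : BSet B) :
    IsOPair (MU.E U) (MU.mk U (opr x y)) (MU.mk U x) (MU.mk U y) :=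
  ⟨MU.mk U (upr x x), MU.mk U (upr x y), isPair_upr U x x, isPair_upr U x y,
    isPair_upr U (upr x x) (upr x y)⟩

/-- by `UF.eq_of_forall` -/
theorem beq_opr (x y x' y' : BSet B) : beq (opr x y) (opr x' y') = beq x x' ⊓ beq y y' := by
  refine UF.eq_of_forall fun U => ?_
  rw [UF.inf_mem_iff, ← MU.mk_eq_iff, ← MU.mk_eq_iff, ← MU.mk_eq_iff]
  constructor
  · intro h
    have h1 := isOPair_opr U x y
    have h2 := isOPair_opr U x' y'
    rw [← h] at h2
    exact isOPair_inj h1 h2
  · rintro ⟨hx, hy⟩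
    have h1 := isOPair_opr U x y
    have h2 := isOPair_opr U x' y'
    rw [← hx, ← hy] at h2
    exact isOPair_unique (MU.ext_E U) h1 h2

theorem los_app (U : UF B) (f x y : BSet B) :
    bmem (opr x y) f ∈ U ↔ App (MU.E U) (MU.mk U f) (MU.mk U x) (MU.mk U y) := by
  constructor
  · intro h
    exact ⟨MU.mk U (opr x y), isOPair_opr U x y, h⟩
  · rintro ⟨p, hp, hpf⟩
    obtain rfl := isOPair_unique (MU.ext_E U) hp (isOPair_opr U x y)
    exact hpf

end BV
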