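import Pool.Agent.H26.BV.Size
import Pool.Agent.H26.BV.Bad
import Pool.Agent.H26.BV.Clo

/-!
# POINT: the bad point
Take `G'` from `exists_closed_gt`, `x` good for `size_ae`, `bad_ae`, `meas_closed` for `G'`, `small`;
`γ` = least upper bound of `x` (`exists_gt_of_card_le`, well-foundedness); `s` from `exists_seq`.
-/

set_option autoImplicit false

universe u

open Cardinal Order

namespace BV

theorem exists_point {κ : Cardinal.{u}} (hκ : ℵ₀ < κ) {V : Ultrafilter (Set (SS κ))}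
    (hV : IsNormalMeasure κ (SS κ) V) (f : SS κ → ℕ → Ordinal.{u})
    (hf1 : ∀ s n, f s n < (lam κ n).ord)
    (hf2 : ∀ s t, t < s → ∃ k, ∀ n, k ≤ n → f t n < f s n) (G : SS κ → SS κ) :
    ∃ (ν : Cardinal.{u}) (γ : SS κ) (s : (succ ν).ord.ToType → SS κ), ℵ₀ ≤ ν ∧ ν < κ ∧
      StrictMono s ∧ (∀ i, s i < γ) ∧ (∀ t, t < γ → ∃ i, t < s i) ∧ GClosed G γ ∧
      (∀ i, GClosed G (s i)) ∧ (∀ i, lamw κ ≤ #(Set.Iio (s i))) ∧
      ¬ ∃ A : Set (SS κ), (∀ a ∈ A, a < γ) ∧ (∀ t, t < γ → ∃ a ∈ A, t < a) ∧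
        ∃ k, ∀ n, k ≤ n → StrictMonoOn (fun s => f s n) A := by
  obtain ⟨G', hG'⟩ := exists_closed_gt hκ.le G
  have hsmall : ∀ᶠ x : Set (SS κ) in (V : Filter (Set (SS κ))), #x < κ := hV.small
  obtain ⟨x, ⟨⟨hx1, hx2⟩, hx3⟩, hx4⟩ :=
    (((hsmall.and (size_ae hκ hV)).and (bad_ae hκ hV f hf1 hf2)).and
      (meas_closed hV G')).exists
  obtain ⟨⟨ν, hν1, hν2, hν3, hν4⟩, hnomax⟩ := hx2
  obtain ⟨s, hs1, hs2, hs3⟩ := exists_seq hν1 x hν3 hν4 hnomax G' hx4 (fun t => (hG' t).1)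
  -- least upper bound
  have hub : ({t | ∀ a ∈ x, a < t} : Set (SS κ)).Nonempty := by
    obtain ⟨t, ht⟩ := exists_gt_of_card_le hκ.le x
      (hx1.le.trans ((le_lam κ 0).trans (lam_lt_lamw κ 0).le))
    exact ⟨t, ht⟩
  have hwf : WellFounded ((· < ·) : SS κ → SS κ → Prop) := wellFounded_lt
  set γ : SS κ := hwf.min {t | ∀ a ∈ x, a < t} hub with hγ
  have hγ1 : ∀ a ∈ x, a < γ := hwf.min_mem {t | ∀ a ∈ x, a < t} hub
  have hγ2 : ∀ t, t < γ → ∃ a ∈ x, t ≤ a := by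
    intro t ht
    by_contra hcon
    push Not at hcon
    exact hwf.not_lt_min {t | ∀ a ∈ x, a < t} (x := t) hcon ht
  have hsx : ∀ i, s i ∈ x := by
    intro i
    obtain ⟨t, ht, hst⟩ := hs2 i
    rw [hst]
    exact hx4 t ht
  have hcof : ∀ t, t < γ → ∃ i, t < s i := by
    intro t ht
    obtain ⟨a, ha, hta⟩ := hγ2 t ht
    obtain ⟨i, hi⟩ := hs3 a ha
    exact ⟨i, lt_of_le_of_lt hta hi⟩
  have hGs : ∀ i, GClosed G (s i) := by
    intro i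
    obtain ⟨t, _, hst⟩ := hs2 i
    rw [hst]
    exact (hG' t).2.1
  refine ⟨ν, γ, s, hν1, hν2, hs1, fun i => hγ1 _ (hsx i), hcof, ?_, hGs, ?_, ?_⟩
  · intro t ht
    obtain ⟨i, hi⟩ := hcof t ht
    exact (hGs i t hi).trans (hγ1 _ (hsx i))
  · intro i
    obtain ⟨t, _, hst⟩ := hs2 i
    rw [hst]
    exact (hG' t).2.2
  · rintro ⟨A, hA1, hA2, hA3⟩
    apply hx3
    refine ⟨A, ?_, ?_, hA3⟩
    · intro a ha
      obtain ⟨b, hb, hab⟩ := hγ2 a (hA1 a ha)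
      obtain ⟨t, ht, hbt⟩ := hnomax b hb
      exact ⟨t, ht, lt_of_le_of_lt hab hbt⟩
    · intro t ht
      exact hA2 t (hγ1 t ht)

end BV
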