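import Pool.Agent.H26.BV.Defs

/-!
# ULT: ultrafilters of a Boolean algebra

Existence: `DistribLattice.prime_ideal_of_disjoint_filter_ideal` (Mathlib.Order.PrimeSeparator) or
Zorn; everything else is elementary.  `UF.le_of_forall` reduces Boolean inequalities to two-valued
reasoning; it is used all the time in the upper layers.
-/

set_option autoImplicit false

universe u

namespace BV

variable {B : Type u}

namespace UF

section BA

variable [BooleanAlgebra B] (U : UF B)

theorem top_mem : (⊤ : B) ∈ U := U.top_mem'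

theorem mem_of_le {a b : B} (ha : a ∈ U) (h : a ≤ b) : b ∈ U := U.mem_of_le' a b ha h

theorem bot_notMem : (⊥ : B) ∉ U := U.bot_notMem'

theorem inf_mem {a b : B} (ha : a ∈ U) (hb : b ∈ U) : a ⊓ b ∈ U := U.inf_mem' a b ha hb

theorem inf_mem_iff {a b : B} : a ⊓ b ∈ U ↔ a ∈ U ∧ b ∈ U :=
  ⟨fun h => ⟨U.mem_of_le h inf_le_left, U.mem_of_le h inf_le_right⟩, fun h => U.inf_mem h.1 h.2⟩

theorem compl_mem_iff {a : B} : aᶜ ∈ U ↔ a ∉ U := by
  constructor
  · intro h h'
    apply U.bot_notMem
    have h2 := U.inf_mem h h'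
    rwa [compl_inf_self] at h2
  · intro h
    exact (U.em' a).resolve_left h

theorem sup_mem_iff {a b : B} : a ⊔ b ∈ U ↔ a ∈ U ∨ b ∈ U := by
  constructor
  · intro h
    by_contra hc
    rw [not_or] at hc
    have h1 := U.inf_mem (U.compl_mem_iff.mpr hc.1) (U.compl_mem_iff.mpr hc.2)
    rw [← compl_sup, U.compl_mem_iff] at h1
    exact h1 h
  · rintro (h | h)
    · exact U.mem_of_le h le_sup_left
    · exact U.mem_of_le h le_sup_right

theorem himp_mem_iff {a b : B} : a ⇨ b ∈ U ↔ (a ∈ U → b ∈ U) := by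
  rw [himp_eq, U.sup_mem_iff, U.compl_mem_iff]
  tauto

theorem ne_bot_of_mem {a : B} (ha : a ∈ U) : a ≠ ⊥ := by
  rintro rfl
  exact U.bot_notMem ha

/-- every nonzero element lies in an ultrafilter -/
theorem exists_mem {a : B} (ha : a ≠ ⊥) : ∃ U : UF B, a ∈ U := by
  have hd : Disjoint ((Order.PFilter.principal a : Order.PFilter B) : Set B)
      ((Order.Ideal.principal (⊥ : B) : Order.Ideal B) : Set B) := by
    rw [Set.disjoint_left]
    intro x hx hx'
    have h1 : a ≤ x := hx
    have h2 : x ≤ ⊥ := hx'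
    exact ha (le_bot_iff.mp (h1.trans h2))
  obtain ⟨J, hJp, -, hJF⟩ := DistribLattice.prime_ideal_of_disjoint_filter_ideal hd
  have haJ : a ∉ J := fun h => Set.disjoint_left.mp hJF (show a ≤ a from le_rfl) h
  refine ⟨⟨{x | x ∉ J}, ?_, ?_, ?_, ?_, ?_⟩, haJ⟩
  · intro h
    exact haJ (J.lower le_top h)
  · intro x y hx hxy hy
    exact hx (J.lower hxy hy)
  · intro x y hx hy hxy
    rcases hJp.mem_or_mem hxy with h | h
    · exact hx h
    · exact hy h
  · intro h
    exact h J.bot_mem
  · intro x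
    by_contra hc
    rw [not_or] at hc
    have h1 : x ∈ J := by
      by_contra h
      exact hc.1 h
    have h2 : xᶜ ∈ J := by
      by_contra h
      exact hc.2 h
    have h3 : x ⊔ xᶜ ∈ J := J.sup_mem h1 h2
    rw [sup_compl_eq_top] at h3
    exact haJ (J.lower le_top h3)

theorem le_of_forall {a b : B} (h : ∀ U : UF B, a ∈ U → b ∈ U) : a ≤ b := by
  by_contra hc
  have h1 : a ⊓ bᶜ ≠ ⊥ := by
    intro h2
    exact hc (disjoint_compl_right_iff.mp (disjoint_iff.mpr h2))
  obtain ⟨U, hU⟩ := exists_mem h1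
  have h3 := U.inf_mem_iff.mp hU
  exact U.compl_mem_iff.mp h3.2 (h U h3.1)

theorem eq_top_of_forall {a : B} (h : ∀ U : UF B, a ∈ U) : a = ⊤ :=
  top_le_iff.mp (le_of_forall fun U _ => h U)

theorem eq_bot_of_forall {a : B} (h : ∀ U : UF B, a ∉ U) : a = ⊥ :=
  le_bot_iff.mp (le_of_forall fun U hU => absurd hU (h U))

theorem eq_of_forall {a b : B} (h : ∀ U : UF B, a ∈ U ↔ b ∈ U) : a = b :=
  le_antisymm (le_of_forall fun U => (h U).mp) (le_of_forall fun U => (h U).mpr)

end BA

section CBA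

variable [CompleteBooleanAlgebra B] (U : UF B)

theorem mem_of_iInf {ι : Sort*} {f : ι → B} (h : (⨅ i, f i) ∈ U) (i : ι) : f i ∈ U :=
  U.mem_of_le h (iInf_le f i)

theorem iSup_mem_of_mem {ι : Sort*} {f : ι → B} {i : ι} (h : f i ∈ U) : (⨆ i, f i) ∈ U :=
  U.mem_of_le h (le_iSup f i)

/-- an infimum of elements equal to the top is in `U`; the values need to be in ALL ultrafilters -/
theorem iInf_mem_of_forall {ι : Sort*} {f : ι → B} (h : ∀ (U : UF B) (i : ι), f i ∈ U)
    (U : UF B) : (⨅ i, f i) ∈ U := by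
  have h1 : (⨅ i, f i) = ⊤ := by
    rw [iInf_eq_top]
    exact fun i => eq_top_of_forall fun U => h U i
  rw [h1]
  exact U.top_mem

/-- for finite index sets suprema commute with ultrafilters -/
theorem exists_of_biSup_mem {ι : Type*} (s : Finset ι) {f : ι → B} (h : (⨆ i ∈ s, f i) ∈ U) :
    ∃ i ∈ s, f i ∈ U := by
  classical
  induction s using Finset.induction_on with
  | empty =>
    exfalso
    apply U.bot_notMem
    simpa using h
  | insert a s _ ih =>
    rw [Finset.iSup_insert, U.sup_mem_iff] at h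
    rcases h with h | h
    · exact ⟨a, Finset.mem_insert_self a s, h⟩
    · obtain ⟨i, hi, hi'⟩ := ih h
      exact ⟨i, Finset.mem_insert_of_mem hi, hi'⟩

end CBA

end UF

end BV
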