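import Pool.Agent.H26.BV.Alg
import Pool.Agent.H26.BV.Ult
import Pool.Agent.H26.BV.Mix

/-!
# QUO: the quotient `MU U` and the rules of Los for quantifiers
-/

set_option autoImplicit false

universe u v

namespace BV

variable {B : Type u} [CompleteBooleanAlgebra B]

/-- equality modulo `U` -/
def MU.setoid (U : UF B) : Setoid (BSet B) where
  r x y := beq x y ∈ U
  iseqv := {
    refl := fun x => by
      rw [beq_refl]
      exact U.top_mem
    symm := fun {x y} h => by
      rw [beq_symm]
      exact h
    trans := fun {x y z} h h' => U.mem_of_le (U.inf_mem h h') (beq_trans x y z) }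

/-- the quotient of the Boolean-valued universe by an ultrafilter -/
def MU (U : UF B) : Type (u + 1) := Quotient (MU.setoid U)

namespace MU

/-- class of a name -/
def mk (U : UF B) (x : BSet B) : MU U := Quotient.mk (MU.setoid U) x

/-- membership relation of the quotient -/
def E (U : UF B) : MU U → MU U → Prop :=
  Quotient.lift₂ (s₁ := MU.setoid U) (s₂ := MU.setoid U) (fun x y => bmem x y ∈ U) (by
    intro x y x' y' hx hy
    apply propext
    constructor
    · intro h
      exact U.mem_of_le (U.inf_mem hy (U.mem_of_le (U.inf_mem hx h) (bmem_congr_left x x' y)))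
        (bmem_congr_right y y' x')
    · intro h
      have hx' : beq x' x ∈ U := by rw [beq_symm]; exact hx
      have hy' : beq y' y ∈ U := by rw [beq_symm]; exact hy
      exact U.mem_of_le (U.inf_mem hy' (U.mem_of_le (U.inf_mem hx' h) (bmem_congr_left x' x y')))
        (bmem_congr_right y' y x))

variable (U : UF B)

theorem mk_surj (m : MU U) : ∃ x, mk U x = m :=
  Quotient.exists_rep (s := MU.setoid U) m

theorem mk_eq_iff (x y : BSet B) : mk U x = mk U y ↔ beq x y ∈ U :=
  Quotient.eq (r := MU.setoid U)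

theorem E_mk (x y : BSet B) : E U (mk U x) (mk U y) ↔ bmem x y ∈ U := Iff.rfl

end MU

/-- Boolean-valued predicates which are two-valued predicates in all quotients are extensional -/
theorem ext_of_los {f : BSet B → B} {P : ∀ U : UF B, MU U → Prop}
    (h : ∀ (U : UF B) (x : BSet B), f x ∈ U ↔ P U (MU.mk U x)) : Ext f := by
  intro x y
  refine UF.le_of_forall fun U hU => ?_
  rw [UF.inf_mem_iff] at hU
  have h1 : MU.mk U x = MU.mk U y := (MU.mk_eq_iff U x y).2 hU.1
  rw [h U y, ← h1, ← h U x]
  exact hU.2

theorem los_iInf {f : BSet B → B} (hf : Ext f) (U : UF B) {P : MU U → Prop}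
    (h : ∀ x, f x ∈ U ↔ P (MU.mk U x)) : (⨅ x, f x) ∈ U ↔ ∀ m, P m := by
  constructor
  · intro hU m
    obtain ⟨x, rfl⟩ := MU.mk_surj U m
    exact (h x).1 (U.mem_of_iInf hU x)
  · intro hP
    obtain ⟨x, hx⟩ := exists_min hf
    rw [← hx]
    exact (h x).2 (hP _)

theorem los_iSup {f : BSet B → B} (hf : Ext f) (U : UF B) {P : MU U → Prop}
    (h : ∀ x, f x ∈ U ↔ P (MU.mk U x)) : (⨆ x, f x) ∈ U ↔ ∃ m, P m := by
  constructor
  · intro hU
    obtain ⟨x, hx⟩ := exists_max hf
    rw [← hx] at hU
    exact ⟨_, (h x).1 hU⟩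
  · rintro ⟨m, hm⟩
    obtain ⟨x, rfl⟩ := MU.mk_surj U m
    exact U.iSup_mem_of_mem ((h x).2 hm)

/-- Boolean value of a formula under an assignment of names -/
noncomputable def val : Fml → (ℕ → BSet B) → B
  | .mem i j, w => bmem (w i) (w j)
  | .eq i j, w => beq (w i) (w j)
  | .bot, _ => ⊥
  | .imp φ ψ, w => val φ w ⇨ val ψ w
  | .all i φ, w => ⨅ x, val φ (Function.update w i x)

theorem quo_update (U : UF B) (w : ℕ → BSet B) (i : ℕ) (x : BSet B) :
    (fun j => MU.mk U (Function.update w i x j)) =
      Function.update (fun j => MU.mk U (w j)) i (MU.mk U x) := by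
  funext j
  by_cases h : j = i
  · subst h
    simp
  · simp [h]

/-- the theorem of Los, all ultrafilters at once -/
theorem quo_los (φ : Fml) : ∀ (U : UF B) (w : ℕ → BSet B),
    val φ w ∈ U ↔ Sat (MU.E U) φ (fun i => MU.mk U (w i)) := by
  induction φ with
  | mem i j =>
    intro U w
    exact Iff.rfl
  | eq i j =>
    intro U w
    exact (MU.mk_eq_iff U (w i) (w j)).symm
  | bot =>
    intro U w
    exact iff_of_false U.bot_notMem (fun h => h)
  | imp φ ψ ih1 ih2 =>
    intro U w
    show (val φ w ⇨ val ψ w) ∈ U ↔ (_ → _)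
    rw [UF.himp_mem_iff, ih1 U w, ih2 U w]
  | all i φ ih =>
    intro U w
    have h : ∀ (U : UF B) (x : BSet B), val φ (Function.update w i x) ∈ U ↔
        Sat (MU.E U) φ (Function.update (fun j => MU.mk U (w j)) i (MU.mk U x)) := by
      intro U x
      rw [ih U, quo_update]
    have hext : Ext (fun x => val φ (Function.update w i x)) :=
      ext_of_los (P := fun U m => Sat (MU.E U) φ (Function.update (fun j => MU.mk U (w j)) i m)) h
    exact los_iInf hext U (P := fun m => Sat (MU.E U) φ
      (Function.update (fun j => MU.mk U (w j)) i m)) (h U)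

/-- the theorem of Los -/
theorem los_fml (φ : Fml) (U : UF B) (w : ℕ → BSet B) :
    val φ w ∈ U ↔ Sat (MU.E U) φ (fun i => MU.mk U (w i)) :=
  quo_los φ U w

end BV
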