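import Pool.Agent.H26.BV.Stmt
import Pool.Agent.H26.BV.Pairs

/-!
# SIM: transport of a semilattice to the cardinal `κ'`; breadth two for three elements
-/

set_option autoImplicit false

universe v

namespace BV

variable {M : Type v}

/-- `g x ≤ g y` -/
def Dle (E : M → M → Prop) (g R x y : M) : Prop :=
  ∃ u v, App E g x u ∧ App E g y v ∧ App E R u v

/-- `g s` is the join of `g x` and `g y` -/
def DJ (E : M → M → Prop) (κ' g R x y s : M) : Prop :=
  E s κ' ∧ Dle E g R x s ∧ Dle E g R y s ∧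
    ∀ t, E t κ' → Dle E g R x t → Dle E g R y t → Dle E g R s t

/-- the simplified properties -/
structure Dsim (E : M → M → Prop) (κ κ' L g R : M) : Prop where
  inj : InjOn E g (fun x => E x κ') (fun y => E y L)
  refl : ∀ x, E x κ' → Dle E g R x x
  trans : ∀ x y z, E x κ' → E y κ' → E z κ' → Dle E g R x y → Dle E g R y z → Dle E g R x z
  antisymm : ∀ x y, E x κ' → E y κ' → Dle E g R x y → Dle E g R y x → x = y
  sup : ∀ x y, E x κ' → E y κ' → ∃ s, DJ E κ' g R x y s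
  breadth : ∀ x y z s1 s2 s3, E x κ' → E y κ' → E z κ' → DJ E κ' g R x y s1 →
    DJ E κ' g R y z s2 → DJ E κ' g R x z s3 →
    Dle E g R z s1 ∨ Dle E g R x s2 ∨ Dle E g R y s3
  small : ∀ x, E x κ' → ∃ a, App E g x a ∧ SmallerThan E κ (fun z => E z L ∧ App E R z a)

theorem sim_dle_iff {E : M → M → Prop} {κ' L g R x y u v : M}
    (hg : InjOn E g (fun x => E x κ') (fun y => E y L)) (hx : E x κ') (hy : E y κ')
    (hu : App E g x u) (hv : App E g y v) : Dle E g R x y ↔ App E R u v := by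
  constructor
  · rintro ⟨u', v', hu', hv', h⟩
    rw [hg.2.1 x u u' hx hu hu', hg.2.1 y v v' hy hv hv']
    exact h
  · intro h
    exact ⟨u, v, hu, hv, h⟩

/-- sets with three elements exist and are finite -/
theorem sim_triple {E : M → M → Prop} (hZ : IsZFC E) (a b c : M) :
    ∃ X, (∀ z, E z X ↔ z = a ∨ z = b ∨ z = c) ∧ IsFin E X := by
  obtain ⟨A1, hA1⟩ := hZ.pairing a a
  obtain ⟨A2, hA2⟩ := hZ.pairing a b
  obtain ⟨C, hC⟩ := hZ.pairing c c
  obtain ⟨W, hW⟩ := hZ.pairing A2 C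
  obtain ⟨X, hX⟩ := hZ.union W
  obtain ⟨w, ⟨e, _, he⟩, _⟩ := hZ.infinity
  have hX' : ∀ z, E z X ↔ z = a ∨ z = b ∨ z = c := by
    intro z
    rw [hX]
    constructor
    · rintro ⟨y, hy, hz⟩
      rcases (hW y).1 hy with h | h
      · rw [h, hA2] at hz
        rcases hz with hz | hz
        · exact Or.inl hz
        · exact Or.inr (Or.inl hz)
      · rw [h, hC] at hz
        rcases hz with hz | hz <;> exact Or.inr (Or.inr hz)
    · rintro (hz | hz | hz)
      · exact ⟨A2, (hW A2).2 (Or.inl rfl), (hA2 z).2 (Or.inl hz)⟩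
      · exact ⟨A2, (hW A2).2 (Or.inl rfl), (hA2 z).2 (Or.inr hz)⟩
      · exact ⟨C, (hW C).2 (Or.inr rfl), (hC z).2 (Or.inl hz)⟩
  refine ⟨X, hX', ?_⟩
  intro F h0 h1
  have e0 : E e F := h0 e he
  have e1 : E A1 F := by
    refine h1 e a A1 e0 ((hX' a).2 (Or.inl rfl)) (fun z => ?_)
    rw [hA1]
    constructor
    · rintro (h | h) <;> exact Or.inr h
    · rintro (h | h)
      · exact absurd h (he z)
      · exact Or.inl h
  have e2 : E A2 F := by
    refine h1 A1 b A2 e1 ((hX' b).2 (Or.inr (Or.inl rfl))) (fun z => ?_)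
    rw [hA2, hA1, or_self]
  refine h1 A2 c X e2 ((hX' c).2 (Or.inr (Or.inr rfl))) (fun z => ?_)
  rw [hX', hA2, or_assoc]

/-- For `breadth` build `X = {g x, g y, g z}` (pairing, union); it is finite in the sense of `IsFin`
(start with the empty set and add three elements). -/
theorem dsim_of {E : M → M → Prop} (hZ : IsZFC E) {κ κ' L g R : M}
    (hg : InjOn E g (fun x => E x κ') (fun y => E y L))
    (hg' : ∀ y, E y L → ∃ x, E x κ' ∧ App E g x y) (hL : IsBreadthTwo E L R)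
    (hs : ∀ a, E a L → SmallerThan E κ (fun x => E x L ∧ App E R x a)) :
    Dsim E κ κ' L g R := by
  refine ⟨hg, ?_, ?_, ?_, ?_, ?_, ?_⟩
  · intro x hx
    obtain ⟨u, huL, hu⟩ := hg.1 x hx
    exact ⟨u, u, hu, hu, hL.refl u huL⟩
  · intro x y z hx hy hz hxy hyz
    obtain ⟨u, huL, hu⟩ := hg.1 x hx
    obtain ⟨v, hvL, hv⟩ := hg.1 y hy
    obtain ⟨w, hwL, hw⟩ := hg.1 z hz
    rw [sim_dle_iff hg hx hy hu hv] at hxy
    rw [sim_dle_iff hg hy hz hv hw] at hyz
    rw [sim_dle_iff hg hx hz hu hw]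
    exact hL.trans u v w huL hvL hwL hxy hyz
  · intro x y hx hy hxy hyx
    obtain ⟨u, huL, hu⟩ := hg.1 x hx
    obtain ⟨v, hvL, hv⟩ := hg.1 y hy
    rw [sim_dle_iff hg hx hy hu hv] at hxy
    rw [sim_dle_iff hg hy hx hv hu] at hyx
    have huv := hL.antisymm u v huL hvL hxy hyx
    subst huv
    exact hg.2.2 x y u hx hy hu hv
  · intro x y hx hy
    obtain ⟨u, huL, hu⟩ := hg.1 x hx
    obtain ⟨v, hvL, hv⟩ := hg.1 y hy
    obtain ⟨s, hsL, hs1, hs2⟩ := hL.sup u v huL hvL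
    obtain ⟨s', hs', hs's⟩ := hg' s hsL
    refine ⟨s', hs', ?_, ?_, ?_⟩
    · rw [sim_dle_iff hg hx hs' hu hs's]
      exact hs1 u (Or.inl rfl)
    · rw [sim_dle_iff hg hy hs' hv hs's]
      exact hs1 v (Or.inr rfl)
    · intro t ht hxt hyt
      obtain ⟨w, hwL, hw⟩ := hg.1 t ht
      rw [sim_dle_iff hg hx ht hu hw] at hxt
      rw [sim_dle_iff hg hy ht hv hw] at hyt
      rw [sim_dle_iff hg hs' ht hs's hw]
      refine hs2 w hwL ?_
      rintro z (rfl | rfl)
      · exact hxt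
      · exact hyt
  · intro x y z s1 s2 s3 hx hy hz h1 h2 h3
    obtain ⟨u, huL, hu⟩ := hg.1 x hx
    obtain ⟨v, hvL, hv⟩ := hg.1 y hy
    obtain ⟨w, hwL, hw⟩ := hg.1 z hz
    obtain ⟨hs1, h1x, h1y, _⟩ := h1
    obtain ⟨hs2, h2y, h2z, _⟩ := h2
    obtain ⟨hs3, h3x, h3z, _⟩ := h3
    obtain ⟨r1, hr1L, hr1⟩ := hg.1 s1 hs1
    obtain ⟨r2, hr2L, hr2⟩ := hg.1 s2 hs2
    obtain ⟨r3, hr3L, hr3⟩ := hg.1 s3 hs3
    rw [sim_dle_iff hg hx hs1 hu hr1] at h1x
    rw [sim_dle_iff hg hy hs1 hv hr1] at h1y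
    rw [sim_dle_iff hg hy hs2 hv hr2] at h2y
    rw [sim_dle_iff hg hz hs2 hw hr2] at h2z
    rw [sim_dle_iff hg hx hs3 hu hr3] at h3x
    rw [sim_dle_iff hg hz hs3 hw hr3] at h3z
    rw [sim_dle_iff hg hz hs1 hw hr1, sim_dle_iff hg hx hs2 hu hr2, sim_dle_iff hg hy hs3 hv hr3]
    obtain ⟨X, hX, hfin⟩ := sim_triple hZ u v w
    obtain ⟨a, b, ha, hb, s, ⟨hsL, hsub, _⟩, ⟨_, _, hslub⟩⟩ := hL.breadth X
      ⟨u, (hX u).2 (Or.inl rfl)⟩ (by
        intro t ht
        rcases (hX t).1 ht with rfl | rfl | rfl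
        · exact huL
        · exact hvL
        · exact hwL) hfin
    have hus : App E R u s := hsub u ((hX u).2 (Or.inl rfl))
    have hvs : App E R v s := hsub v ((hX v).2 (Or.inr (Or.inl rfl)))
    have hws : App E R w s := hsub w ((hX w).2 (Or.inr (Or.inr rfl)))
    have key : ∀ r, E r L → App E R a r → App E R b r → App E R s r := by
      intro r hr har hbr
      refine hslub r hr ?_
      rintro t (rfl | rfl)
      · exact har
      · exact hbr
    have fin1 : App E R a r1 → App E R b r1 → App E R w r1 := fun p q =>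
      hL.trans w s r1 hwL hsL hr1L hws (key r1 hr1L p q)
    have fin2 : App E R a r2 → App E R b r2 → App E R u r2 := fun p q =>
      hL.trans u s r2 huL hsL hr2L hus (key r2 hr2L p q)
    have fin3 : App E R a r3 → App E R b r3 → App E R v r3 := fun p q =>
      hL.trans v s r3 hvL hsL hr3L hvs (key r3 hr3L p q)
    rcases (hX a).1 ha with rfl | rfl | rfl <;> rcases (hX b).1 hb with rfl | rfl | rfl
    · exact Or.inl (fin1 h1x h1x)
    · exact Or.inl (fin1 h1x h1y)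
    · exact Or.inr (Or.inr (fin3 h3x h3z))
    · exact Or.inl (fin1 h1y h1x)
    · exact Or.inl (fin1 h1y h1y)
    · exact Or.inr (Or.inl (fin2 h2y h2z))
    · exact Or.inr (Or.inr (fin3 h3z h3x))
    · exact Or.inr (Or.inl (fin2 h2z h2y))
    · exact Or.inr (Or.inl (fin2 h2z h2z))
  · intro x hx
    obtain ⟨u, huL, hu⟩ := hg.1 x hx
    exact ⟨u, hu, hs u huL⟩

end BV
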