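import Pool.Agent.H26.BV.Meas

/-!
# SIZE: the shape of almost all `x ∈ P_κ(κ^{+ω+1})`
Fix `s0 : SS κ` with `lamw κ ≤ #(Iio s0)` and for every `s` an injection `Iio s → Iio s0`.  Almost
all `x` are closed under them, so `#(x ∩ Iio s) ≤ #(x ∩ Iio s0) =: ν` for `s ∈ x`.  `x ∩ Iio s0` is
infinite (fineness for countably many points, `meas_countable`) and smaller than `κ`.
If `#x ≤ #(x ∩ Iio s0)` for almost all `x`, take injections `g x : x → x ∩ Iio s0`; by normality
`g x s = g s` for almost all `x`, for every `s`; `g : S → Iio s0` is injective, contradiction with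
`#(SS κ) = Lam κ > lamw κ`.  No maximum: closed under a function `s ↦ s' > s`.
-/

set_option autoImplicit false

universe u

open Cardinal Order

namespace BV

theorem size_lt {κ : Cardinal.{u}} {V : Ultrafilter (Set (SS κ))}
    (hV : IsNormalMeasure κ (SS κ) V) (s0 : SS κ) :
    ∀ᶠ x : Set (SS κ) in (V : Filter (Set (SS κ))),
      ¬ (#x ≤ #(x ∩ Set.Iio s0 : Set (SS κ))) := by
  classical
  have hfine : ∀ s : SS κ, ∀ᶠ x : Set (SS κ) in (V : Filter (Set (SS κ))), s ∈ x :=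
    fun s => hV.fine s
  rw [Ultrafilter.eventually_not]
  intro hle
  have hex : ∀ x : Set (SS κ), ∃ g : SS κ → SS κ, #x ≤ #(x ∩ Set.Iio s0 : Set (SS κ)) →
      (∀ s ∈ x, g s ∈ x ∧ g s < s0) ∧ Set.InjOn g x := by
    intro x
    by_cases hx : #x ≤ #(x ∩ Set.Iio s0 : Set (SS κ))
    · obtain ⟨e⟩ := hx
      refine ⟨fun s => if h : s ∈ x then (e ⟨s, h⟩ : SS κ) else s, fun _ => ⟨?_, ?_⟩⟩
      · intro s hs
        simp only [dif_pos hs]
        exact ⟨(e ⟨s, hs⟩).2.1, (e ⟨s, hs⟩).2.2⟩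
      · intro s hs t ht hst
        simp only [dif_pos hs, dif_pos ht] at hst
        have h1 := e.injective (Subtype.ext hst)
        exact congrArg Subtype.val h1
    · exact ⟨id, fun h => absurd h hx⟩
  choose g hg using hex
  have hnorm : ∀ s : SS κ, ∃ t : SS κ, ∀ᶠ x : Set (SS κ) in (V : Filter (Set (SS κ))),
      g x s = t := by
    intro s
    refine meas_normal hV (fun x => g x s) ?_
    filter_upwards [hle, hfine s] with x hx hs
    exact ((hg x hx).1 s hs).1
  choose G hG using hnorm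
  have hlt : ∀ s, G s < s0 := by
    intro s
    obtain ⟨x, hx1, hx2, hx3⟩ := ((hG s).and (hle.and (hfine s))).exists
    rw [← hx1]
    exact ((hg x hx2).1 s hx3).2
  have hinj : Function.Injective G := by
    intro s t hst
    obtain ⟨x, hx1, hx2, hx3, hx4, hx5⟩ :=
      ((hG s).and ((hG t).and (hle.and ((hfine s).and (hfine t))))).exists
    refine (hg x hx3).2 hx4 hx5 ?_
    rw [hx1, hx2, hst]
  have hinj' : Function.Injective (fun s => (⟨G s, hlt s⟩ : Set.Iio s0)) := by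
    intro s t hst
    exact hinj (congrArg Subtype.val hst)
  have h1 := Cardinal.mk_le_of_injective hinj'
  rw [mk_SS] at h1
  exact absurd (h1.trans (mk_Iio_le s0)) (not_le.2 (lamw_lt_Lam κ))

theorem size_ae {κ : Cardinal.{u}} (hκ : ℵ₀ < κ) {V : Ultrafilter (Set (SS κ))}
    (hV : IsNormalMeasure κ (SS κ) V) :
    ∀ᶠ x : Set (SS κ) in (V : Filter (Set (SS κ))), (∃ ν : Cardinal.{u}, ℵ₀ ≤ ν ∧ ν < κ ∧ ν < #x ∧
      ∀ s ∈ x, #(x ∩ Set.Iio s : Set (SS κ)) ≤ ν) ∧ ∀ s ∈ x, ∃ t ∈ x, s < t := by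
  classical
  have hfine : ∀ s : SS κ, ∀ᶠ x : Set (SS κ) in (V : Filter (Set (SS κ))), s ∈ x :=
    fun s => hV.fine s
  have hsmall : ∀ᶠ x : Set (SS κ) in (V : Filter (Set (SS κ))), #x < κ := hV.small
  obtain ⟨s0, hs0⟩ := exists_large hκ.le
  have hinj : ∀ s : SS κ, ∃ f : Set.Iio s → Set.Iio s0, Function.Injective f := by
    intro s
    obtain ⟨e⟩ := (mk_Iio_le s).trans hs0
    exact ⟨e, e.injective⟩
  choose f hf using hinj
  have h1 := meas_closed₂ hV (fun s t => if h : t < s then (f s ⟨t, h⟩ : SS κ) else t)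
  have hκ' : κ ≤ lamw κ := (le_lam κ 0).trans (lam_lt_lamw κ 0).le
  have hinf : Infinite (Set.Iio s0) := by
    rw [Cardinal.infinite_iff]
    exact (hκ.le.trans hκ').trans hs0
  have h3 := meas_countable hκ hV (fun n x => ((Infinite.natEmbedding (Set.Iio s0) n : SS κ) ∈ x))
    (fun n => hfine _)
  have h4 := size_lt hV s0
  have hnext : ∀ s : SS κ, ∃ t, s < t := by
    intro s
    obtain ⟨t, ht⟩ := exists_gt_of_card_le hκ.le ({s} : Set (SS κ)) (by
      rw [Cardinal.mk_singleton]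
      exact (Cardinal.one_le_aleph0.trans hκ.le).trans hκ')
    exact ⟨t, ht s rfl⟩
  choose next hnext using hnext
  have h5 := meas_closed hV next
  filter_upwards [hsmall, h1, h3, h4, h5] with x hx hx1 hx3 hx4 hx5
  refine ⟨⟨#(x ∩ Set.Iio s0 : Set (SS κ)), ?_, ?_, not_le.1 hx4, ?_⟩,
    fun s hs => ⟨next s, hx5 s hs, hnext s⟩⟩
  · rw [← Cardinal.infinite_iff]
    exact Infinite.of_injective (fun n : ℕ => (⟨(Infinite.natEmbedding (Set.Iio s0) n : SS κ),
      hx3 n, (Infinite.natEmbedding (Set.Iio s0) n).2⟩ : (x ∩ Set.Iio s0 : Set (SS κ))))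
      (fun n m hnm => (Infinite.natEmbedding (Set.Iio s0)).injective
        (Subtype.ext (congrArg (fun z : (x ∩ Set.Iio s0 : Set (SS κ)) => (z : SS κ)) hnm)))
  · exact lt_of_le_of_lt (Cardinal.mk_le_mk_of_subset Set.inter_subset_left) hx
  · intro s hs
    refine Cardinal.mk_le_of_injective (f := fun t : (x ∩ Set.Iio s : Set (SS κ)) =>
      (⟨(f s ⟨t.1, t.2.2⟩ : SS κ), ?_, (f s ⟨t.1, t.2.2⟩).2⟩ :
        (x ∩ Set.Iio s0 : Set (SS κ)))) ?_
    · have h6 := hx1 s hs t.1 t.2.1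
      have h7 : (t : SS κ) < s := t.2.2
      rw [dif_pos h7] at h6
      exact h6
    · intro t t' htt
      have h8 : (f s ⟨t.1, t.2.2⟩ : SS κ) = (f s ⟨t'.1, t'.2.2⟩ : SS κ) :=
        congrArg (fun z : (x ∩ Set.Iio s0 : Set (SS κ)) => (z : SS κ)) htt
      have h9 := hf s (Subtype.ext h8)
      exact Subtype.ext (congrArg (fun z : Set.Iio s => (z : SS κ)) h9)

end BV
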