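import Pool.Agent.H26.BV.Defs

/-!
# Definitions for the statement: supercompactness and Ditor's problem
-/

set_option autoImplicit false

universe u v

open Cardinal Order

namespace BV

/-! ## Cardinals -/

/-- `lam κ n = κ^{+n}` -/
noncomputable def lam (κ : Cardinal.{u}) : ℕ → Cardinal.{u}
  | 0 => κ
  | n + 1 => succ (lam κ n)

/-- `κ^{+ω}` -/
noncomputable def lamw (κ : Cardinal.{u}) : Cardinal.{u} := ⨆ n, lam κ n

/-- `κ^{+ω+1}` -/
noncomputable def Lam (κ : Cardinal.{u}) : Cardinal.{u} := succ (lamw κ)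

/-- `V` is a normal fine `κ`-complete ultrafilter on `P_κ(S) = {x ⊆ S : |x| < κ}` -/
structure IsNormalMeasure (κ : Cardinal.{u}) (S : Type u) (V : Ultrafilter (Set S)) : Prop where
  small : {x : Set S | #x < κ} ∈ V
  fine : ∀ s : S, {x : Set S | s ∈ x} ∈ V
  complete : ∀ (ι : Type u) (A : ι → Set (Set S)), #ι < κ → (∀ i, A i ∈ V) → (⋂ i, A i) ∈ V
  normal : ∀ f : Set S → S, {x : Set S | f x ∈ x} ∈ V → ∃ s, {x : Set S | f x = s} ∈ V

/-- `κ` is `c`-supercompact -/
def IsSupercompactFor (κ c : Cardinal.{u}) : Prop :=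
  κ.IsInaccessible ∧ ∃ V : Ultrafilter (Set c.ord.ToType), IsNormalMeasure κ c.ord.ToType V

section Structures

variable {M : Type v}

/-- `s` is the least upper bound of the class `X` in the set `L` ordered by `R` -/
def IsLub (E : M → M → Prop) (L R : M) (X : M → Prop) (s : M) : Prop :=
  E s L ∧ (∀ x, X x → App E R x s) ∧ ∀ t, E t L → (∀ x, X x → App E R x t) → App E R s t

/-- `X` is finite (Kuratowski): `X` belongs to every set `F` which contains the empty set and is
closed under adding elements of `X` -/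
def IsFin (E : M → M → Prop) (X : M) : Prop :=
  ∀ F, (∀ e, (∀ z, ¬ E z e) → E e F) →
    (∀ A a A', E A F → E a X → (∀ z, E z A' ↔ E z A ∨ z = a) → E A' F) → E X F

/-- the set `L` ordered by the relation `R` is a join-semilattice of breadth at most two: every
nonempty finite `X ⊆ L` has a least upper bound, which is the least upper bound of a subset
`{a, b} ⊆ X` -/
structure IsBreadthTwo (E : M → M → Prop) (L R : M) : Prop where
  refl : ∀ x, E x L → App E R x x
  trans : ∀ x y z, E x L → E y L → E z L → App E R x y → App E R y z → App E R x z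
  antisymm : ∀ x y, E x L → E y L → App E R x y → App E R y x → x = y
  sup : ∀ x y, E x L → E y L → ∃ s, IsLub E L R (fun z => z = x ∨ z = y) s
  breadth : ∀ X, (∃ x, E x X) → (∀ x, E x X → E x L) → IsFin E X →
    ∃ a b, E a X ∧ E b X ∧
      ∃ s, IsLub E L R (fun z => E z X) s ∧ IsLub E L R (fun z => z = a ∨ z = b) s

/-- `|X| < κ` for an infinite cardinal `κ` and a class `X`: `X` injects into an element of `κ` -/
def SmallerThan (E : M → M → Prop) (κ : M) (X : M → Prop) : Prop :=
  ∃ β, E β κ ∧ ∃ f, InjOn E f X (fun y => E y β)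

/-- there is a bijection from the set `κ'` onto the set `L` -/
def HasCard (E : M → M → Prop) (κ' L : M) : Prop :=
  ∃ g, InjOn E g (fun x => E x κ') (fun y => E y L) ∧ ∀ y, E y L → ∃ x, E x κ' ∧ App E g x y

/-- in `(M, E)` every join-semilattice of breadth at most two and of cardinality `ℵ_{ω+1}` has a
principal ideal which is not of cardinality less than `ℵ_ω` -/
def NoDitor (E : M → M → Prop) : Prop :=
  ∀ κ κ' L R, IsAlephOmega E κ → IsSuccCard E κ κ' → HasCard E κ' L → IsBreadthTwo E L R →
    ∃ a, E a L ∧ ¬ SmallerThan E κ (fun x => E x L ∧ App E R x a)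

end Structures

end BV
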