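import Pool.Agent.H26.BV.CoreC
import Pool.Agent.H26.BV.Dom
import Pool.Agent.H26.BV.Point

/-!
# VFIN: for some `ν < κ` there is no Boolean-valued semilattice
Suppose `Cand κ ν` for all infinite `ν < κ`.  For `i : κ.ord.ToType` put
`ν i = max ℵ₀ #(Set.Iio i) < κ` and choose the data.  `I = Σ i, Q i × R i` has size at most `κ`.
`dom` with `D ⟨i, p⟩ c = poss (F i) (e i p) c` gives `f`, `h`; `exists_clo` with
`T i r s = {δ | bJ (F i) r s δ ⊓ b i ≠ ⊥} ∪ poss (F i) (b i) r` (`card_joins_le`, `card_poss_le`)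
gives `G`; `exists_point` gives `ν, γ, s`; `ν = ν i` for some `i`; `GClosed` points are `ClF`
points; `core` gives a contradiction.
-/

set_option autoImplicit false

universe u

open Cardinal Order

namespace BV

/-- there is a forcing `Q × R` as in `core` and a Boolean-valued semilattice -/
def Cand (κ ν : Cardinal.{u}) : Prop :=
  ∃ (Q R : Type u) (_ : Preorder Q) (_ : Preorder R) (B : Type u) (_ : CompleteBooleanAlgebra B)
    (e : Q × R → B) (b : B) (F : SS κ → SS κ → B), #Q ≤ ν ∧ #(Q × R) ≤ κ ∧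
    (∀ (i : (succ ν).ord.ToType) (r : (succ ν).ord.ToType → R),
      (∀ j k, j ≤ k → k < i → r k ≤ r j) → ∃ r', ∀ j, j < i → r' ≤ r j) ∧
    DenseEmb (Q × R) B e ∧ BDitor e b F

/-- the infinite cardinals below `κ`, indexed by the well-order of type `κ` -/
theorem vfin_index {κ : Cardinal.{u}} (hω : ℵ₀ < κ) :
    ∃ νf : κ.ord.ToType → Cardinal.{u}, (∀ i, ℵ₀ ≤ νf i) ∧ (∀ i, νf i < κ) ∧
      ∀ ν, ℵ₀ ≤ ν → ν < κ → ∃ i, νf i = ν := by
  refine ⟨fun i => max ℵ₀ #(Set.Iio i), fun i => le_max_left _ _,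
    fun i => max_lt hω (mk_Iio_toType_ord_lt i), fun ν h1 h2 => ?_⟩
  have h3 : ν.ord < Ordinal.type (α := κ.ord.ToType) (· < ·) := by
    rw [Ordinal.type_toType]
    exact ord_lt_ord.2 h2
  obtain ⟨i, hi⟩ := Ordinal.typein_surj (α := κ.ord.ToType) (· < ·) h3
  refine ⟨i, ?_⟩
  have h4 : #(Set.Iio i) = ν := by
    have h5 := congrArg Ordinal.card hi
    rw [card_ord] at h5
    rw [← h5]
    rfl
  show max ℵ₀ #(Set.Iio i) = ν
  rw [h4]
  exact max_eq_right h1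

theorem exists_not_cand {κ : Cardinal.{u}} (hκ : IsSupercompactFor κ (Lam κ)) :
    ∃ ν, ℵ₀ ≤ ν ∧ ν < κ ∧ ¬ Cand κ ν := by
  classical
  by_contra hcon
  push Not at hcon
  obtain ⟨hin, V, hV⟩ := hκ
  have hreg : κ.IsRegular := hin.isRegular
  have hω : ℵ₀ < κ := hin.aleph0_lt
  obtain ⟨νf, hν1, hν2, hν3⟩ := vfin_index hω
  have hcand : ∀ i, Cand κ (νf i) := fun i => hcon (νf i) (hν1 i) (hν2 i)
  unfold Cand at hcand
  choose Q R iQ iR B iB e b F hQ hQR hclo he hD using hcand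
  have hlw : ℵ₀ ≤ lamw κ := hω.le.trans (lam_le_lamw κ)
  have hκI : #κ.ord.ToType ≤ lamw κ := by
    rw [mk_ord_toType]
    exact lam_le_lamw κ
  have hI : #(Σ i : κ.ord.ToType, Q i × R i) ≤ lamw κ := by
    rw [mk_sigma]
    refine (sum_le_mk_mul_iSup _).trans ?_
    refine mul_le_of_le hlw hκI (ciSup_le' fun i => ?_)
    exact (hQR i).trans (lam_le_lamw κ)
  obtain ⟨f, h, hf1, hh1, hh2, hf2⟩ := dom hreg hI
    (fun ip c => poss (F ip.1) (e ip.1 ip.2) c)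
  obtain ⟨G, hG⟩ := exists_clo hω.le hκI
    (fun i r s => {δ | bJ (F i) r s δ ⊓ b i ≠ ⊥} ∪ poss (F i) (b i) r) (by
      intro i r s
      refine (mk_union_le _ _).trans (add_le_of_le hlw ?_ ?_)
      · exact (card_joins_le (he i) (hD i) r s).trans ((hQR i).trans (lam_le_lamw κ))
      · exact card_poss_le (he i) hω.le (hQR i) (hD i) r)
  obtain ⟨ν, γ, s, hν4, hν5, hs1, hs2, hs3, hGγ, hGs, hsize, hbad⟩ :=
    exists_point hω hV f hf1 hf2 G
  obtain ⟨i, rfl⟩ := hν3 ν hν4 hν5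
  have hcl : ∀ t, GClosed G t → ClF (F i) (b i) t := by
    intro t ht
    constructor
    · intro ξ η δ hξ hη hδ
      exact hG t ht i ξ η hξ hη δ (Or.inl hδ)
    · intro ξ η hξ hη
      exact hG t ht i ξ ξ hξ hξ η (Or.inr hη)
  apply hbad
  exact core hreg hν4 (hQ i) (hQR i) (hclo i) (he i) (hD i) γ s hs1 hs2 hs3 (hcl γ hGγ)
    (fun j => hcl (s j) (hGs j)) hsize f (fun p c t n => h ⟨i, p⟩ c t n)
    (fun p c t n => hh1 ⟨i, p⟩ c t n) (fun a p c t => hh2 a ⟨i, p⟩ c t)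

end BV
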